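import Mathlib

/-!
Weak convergence to a Gaussian law from one-sided convergence of moment generating functions.
-/

set_option autoImplicit false

namespace Pool.Agent.R967.Mea

open MeasureTheory ProbabilityTheory Filter Topology Complex
open scoped NNReal ENNReal

theorem re_aux (e t x : ℝ) : (((e : ℂ) + t * I) * (x : ℂ)).re = e * x := by simp

theorem re_aux' (e t : ℝ) : ((e : ℂ) + t * I).re = e := by simp

theorem tendsto_complexMGF (ν : Measure ℝ) [IsProbabilityMeasure ν]
    (hi : Integrable (fun x : ℝ => Real.exp x) ν) (t : ℝ) :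
    Tendsto (fun n : ℕ => complexMGF id ν ((1 / ((n : ℝ) + 1) : ℝ) + t * I)) atTop
      (𝓝 (charFun ν t)) := by
  rw [← complexMGF_id_mul_I]
  unfold complexMGF
  refine tendsto_integral_of_dominated_convergence (fun x => 1 + Real.exp x) ?_ ?_ ?_ ?_
  · intro n
    exact Measurable.aestronglyMeasurable (by fun_prop)
  · exact (integrable_const _).add hi
  · intro n
    refine Eventually.of_forall fun x => ?_
    rw [Complex.norm_exp]
    rw [re_aux, id]
    rcases le_or_gt 0 x with hx | hx
    · have h1 : 1 / ((n : ℝ) + 1) * x ≤ x := by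
        have : 1 / ((n : ℝ) + 1) ≤ 1 := by
          rw [div_le_one (by positivity)]
          have : (0 : ℝ) ≤ n := Nat.cast_nonneg n
          linarith
        nlinarith
      have h2 := Real.exp_le_exp.2 h1
      linarith
    · have h1 : 1 / ((n : ℝ) + 1) * x ≤ 0 := mul_nonpos_of_nonneg_of_nonpos (by positivity) hx.le
      have h2 := Real.exp_le_one_iff.2 h1
      have h3 := Real.exp_pos x
      linarith
  · refine Eventually.of_forall fun x => ?_
    have h1 : Tendsto (fun n : ℕ => (1 / ((n : ℝ) + 1) : ℝ)) atTop (𝓝 0) :=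
      tendsto_one_div_add_atTop_nhds_zero_nat
    have h2 : Tendsto (fun n : ℕ => ((1 / ((n : ℝ) + 1) : ℝ) : ℂ)) atTop (𝓝 ((0 : ℝ) : ℂ)) :=
      (Complex.continuous_ofReal.tendsto 0).comp h1
    have h3 : Tendsto (fun n : ℕ => ((((1 / ((n : ℝ) + 1) : ℝ) : ℂ) + t * I) * (id x : ℝ))) atTop
        (𝓝 ((((0 : ℝ) : ℂ) + t * I) * (id x : ℝ))) := (h2.add_const _).mul_const _
    have h4 := (Complex.continuous_exp.tendsto _).comp h3
    rw [Complex.ofReal_zero, zero_add] at h4
    exact h4

/-- A law whose moment generating function is that of a centred Gaussian law on the positive half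
line is that Gaussian law. -/
theorem eq_of_mgf_pos (μ : Measure ℝ) [IsProbabilityMeasure μ] (v : ℝ≥0)
    (hi : ∀ t : ℝ, 0 < t → Integrable (fun x : ℝ => Real.exp (t * x)) μ)
    (hm : ∀ t : ℝ, 0 < t → ∫ x, Real.exp (t * x) ∂μ = Real.exp (v * t ^ 2 / 2)) :
    μ = gaussianReal 0 v := by
  have hsub : Set.Ioi (0 : ℝ) ⊆ integrableExpSet id μ := fun t ht => hi t ht
  have hint : Set.Ioi (0 : ℝ) ⊆ interior (integrableExpSet id μ) :=
    interior_maximal hsub isOpen_Ioi
  have hsub' : Set.Ioi (0 : ℝ) ⊆ integrableExpSet id (gaussianReal 0 v) :=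
    fun t _ => integrable_exp_mul_gaussianReal t
  have hint' : Set.Ioi (0 : ℝ) ⊆ interior (integrableExpSet id (gaussianReal 0 v)) :=
    interior_maximal hsub' isOpen_Ioi
  have hX : AnalyticOnNhd ℂ (complexMGF id μ) {z : ℂ | 0 < z.re} :=
    fun z hz => analyticAt_complexMGF (hint hz)
  have hY : AnalyticOnNhd ℂ (complexMGF id (gaussianReal 0 v)) {z : ℂ | 0 < z.re} :=
    fun z hz => analyticAt_complexMGF (hint' hz)
  have hpre : IsPreconnected {z : ℂ | 0 < z.re} := (convex_halfSpace_re_gt 0).isPreconnected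
  have hm' : ∀ t : ℝ, 0 < t → complexMGF id μ t = complexMGF id (gaussianReal 0 v) t := by
    intro t ht
    rw [complexMGF_ofReal, complexMGF_ofReal, mgf_id_gaussianReal]
    simp only [zero_mul, zero_add]
    rw [← hm t ht]
    rfl
  have h_real : ∃ᶠ (x : ℝ) in 𝓝[≠] (1 : ℝ),
      complexMGF id μ x = complexMGF id (gaussianReal 0 v) x := by
    apply Filter.Eventually.frequently
    filter_upwards [nhdsWithin_le_nhds (lt_mem_nhds (show (0 : ℝ) < 1 by norm_num))] with x hx
    exact hm' x hx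
  have h_tend : Tendsto (fun x : ℝ => (x : ℂ)) (𝓝[≠] (1 : ℝ)) (𝓝[≠] ((1 : ℝ) : ℂ)) := by
    refine tendsto_nhdsWithin_of_tendsto_nhds_of_eventually_within _ ?_ ?_
    · exact (Complex.continuous_ofReal.tendsto 1).mono_left nhdsWithin_le_nhds
    · filter_upwards [self_mem_nhdsWithin] with x hx
      simpa using hx
  have heq := AnalyticOnNhd.eqOn_of_preconnected_of_frequently_eq hX hY hpre
    (z₀ := ((1 : ℝ) : ℂ)) (by simp) (h_tend.frequently h_real)
  refine Measure.ext_of_charFun ?_
  funext t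
  have h1 := tendsto_complexMGF μ (by simpa using hi 1 one_pos) t
  have h2 := tendsto_complexMGF (gaussianReal 0 v)
    (by simpa using integrable_exp_mul_gaussianReal (μ := 0) (v := v) 1) t
  refine tendsto_nhds_unique (h1.congr fun n => ?_) h2
  apply heq
  simp only [Set.mem_ofPred_eq]
  rw [re_aux']
  positivity

/-- Second moments bounded give tightness. -/
theorem tight_of_sq {μ : ℕ → ProbabilityMeasure ℝ} (C : ℝ)
    (h2i : ∀ n, Integrable (fun x : ℝ => x ^ 2) (μ n : Measure ℝ))
    (h2 : ∀ n, ∫ x, x ^ 2 ∂(μ n : Measure ℝ) ≤ C) :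
    IsTightMeasureSet {((μ n : Measure ℝ)) | n} := by
  refine isTightMeasureSet_of_tendsto_measure_norm_gt ?_
  have hC : 0 ≤ C := le_trans (integral_nonneg fun x => sq_nonneg x) (h2 0)
  have h3 : Tendsto (fun r : ℝ => ENNReal.ofReal (C / r ^ 2)) atTop (𝓝 0) := by
    have : Tendsto (fun r : ℝ => C / r ^ 2) atTop (𝓝 0) :=
      tendsto_const_nhds.div_atTop (tendsto_pow_atTop two_ne_zero)
    have h4 := (ENNReal.continuous_ofReal.tendsto 0).comp this
    rwa [ENNReal.ofReal_zero] at h4
  refine tendsto_of_tendsto_of_tendsto_of_le_of_le' tendsto_const_nhds h3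
    (Eventually.of_forall fun _ => zero_le) ?_
  filter_upwards [eventually_gt_atTop 0] with r hr
  refine iSup₂_le fun ν hν => ?_
  obtain ⟨n, rfl⟩ := hν
  have h5 := mul_meas_ge_le_integral_of_nonneg (μ := (μ n : Measure ℝ)) (f := fun x : ℝ => x ^ 2)
    (Eventually.of_forall fun x => sq_nonneg x) (h2i n) (r ^ 2)
  have h6 : (μ n : Measure ℝ).real {x | r < ‖x‖} ≤ C / r ^ 2 := by
    rw [le_div_iff₀ (by positivity), mul_comm]
    refine le_trans ?_ (h5.trans (h2 n))
    refine mul_le_mul_of_nonneg_left ?_ (by positivity)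
    refine measureReal_mono ?_
    intro x hx
    simp only [Set.mem_ofPred_eq, Real.norm_eq_abs] at hx ⊢
    rw [← sq_abs x]
    exact pow_le_pow_left₀ hr.le hx.le 2
  rw [← ofReal_measureReal]
  exact ENNReal.ofReal_le_ofReal h6

/-- The truncated exponential. -/
noncomputable def trE (t : ℝ) (T : ℝ) : BoundedContinuousFunction ℝ ℝ :=
  BoundedContinuousFunction.ofNormedAddCommGroup (fun x => min (Real.exp (t * x)) T)
    (by fun_prop) |T| (by
      intro x
      rw [Real.norm_eq_abs]
      rcases le_or_gt 0 T with hT | hT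
      · rw [abs_of_nonneg (le_min (Real.exp_pos _).le hT), abs_of_nonneg hT]
        exact min_le_right _ _
      · rw [min_eq_right (hT.le.trans (Real.exp_pos _).le)])

theorem trE_apply (t T x : ℝ) : trE t T x = min (Real.exp (t * x)) T := rfl

/-- The mgf of a limit point along an ultrafilter. -/
theorem mgf_limit {μ : ℕ → ProbabilityMeasure ℝ} {v : ℝ≥0}
    (hi : ∀ n, ∀ t : ℝ, 0 < t → Integrable (fun x : ℝ => Real.exp (t * x)) (μ n : Measure ℝ))
    (hm : ∀ t : ℝ, 0 < t → Tendsto (fun n => ∫ x, Real.exp (t * x) ∂(μ n : Measure ℝ)) atTop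
      (𝓝 (Real.exp (v * t ^ 2 / 2))))
    (U : Ultrafilter ℕ) (hU : (U : Filter ℕ) ≤ atTop) (μ' : ProbabilityMeasure ℝ)
    (hμ' : Tendsto μ U (𝓝 μ')) (t : ℝ) (ht : 0 < t) :
    Integrable (fun x : ℝ => Real.exp (t * x)) (μ' : Measure ℝ) ∧
      ∫ x, Real.exp (t * x) ∂(μ' : Measure ℝ) = Real.exp (v * t ^ 2 / 2) := by
  have hw := ProbabilityMeasure.tendsto_iff_forall_integral_tendsto.1 hμ'
  have hmU := (hm t ht).mono_left hU
  have hmU2 := (hm (2 * t) (by linarith)).mono_left hU
  have hup : ∀ T : ℝ, 1 ≤ T → ∫ x, trE t T x ∂(μ' : Measure ℝ) ≤ Real.exp (v * t ^ 2 / 2) := by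
    intro T hT
    refine le_of_tendsto_of_tendsto' (hw (trE t T)) hmU fun n => ?_
    exact integral_mono ((trE t T).integrable _) (hi n t ht) fun x => min_le_left _ _
  have hlow : ∀ T : ℝ, 1 ≤ T → Real.exp (v * t ^ 2 / 2) - Real.exp (v * (2 * t) ^ 2 / 2) / T ≤
      ∫ x, trE t T x ∂(μ' : Measure ℝ) := by
    intro T hT
    refine le_of_tendsto_of_tendsto' (hmU.sub (hmU2.div_const T)) (hw (trE t T)) fun n => ?_
    rw [← integral_div, ← integral_sub (hi n t ht) ((hi n (2 * t) (by linarith)).div_const T)]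
    refine integral_mono ((hi n t ht).sub ((hi n (2 * t) (by linarith)).div_const T))
      ((trE t T).integrable _) fun x => ?_
    simp only [trE_apply]
    have hT' : 0 < T := by linarith
    have e : Real.exp (2 * t * x) = Real.exp (t * x) ^ 2 := by
      rw [← Real.exp_nat_mul]
      congr 1
      push_cast
      ring
    rw [e]
    have hp := Real.exp_pos (t * x)
    rcases le_total (Real.exp (t * x)) T with h | h
    · rw [min_eq_left h]
      have : 0 ≤ Real.exp (t * x) ^ 2 / T := by positivity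
      linarith
    · rw [min_eq_right h]
      have : Real.exp (t * x) ≤ Real.exp (t * x) ^ 2 / T := by
        rw [le_div_iff₀ hT']
        nlinarith
      linarith
  have hlim : Tendsto (fun m : ℕ => ∫ x, trE t ((m : ℝ) + 1) x ∂(μ' : Measure ℝ)) atTop
      (𝓝 (Real.exp (v * t ^ 2 / 2))) := by
    have h1 : Tendsto (fun m : ℕ => Real.exp (v * t ^ 2 / 2) -
        Real.exp (v * (2 * t) ^ 2 / 2) / ((m : ℝ) + 1)) atTop
        (𝓝 (Real.exp (v * t ^ 2 / 2) - 0)) :=
      tendsto_const_nhds.sub (tendsto_const_nhds.div_atTop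
        (tendsto_atTop_add_const_right _ _ tendsto_natCast_atTop_atTop))
    rw [sub_zero] at h1
    refine tendsto_of_tendsto_of_tendsto_of_le_of_le h1 tendsto_const_nhds ?_ ?_
    · intro m
      exact hlow _ (by have : (0 : ℝ) ≤ m := Nat.cast_nonneg m; linarith)
    · intro m
      exact hup _ (by have : (0 : ℝ) ≤ m := Nat.cast_nonneg m; linarith)
  have hlint : Tendsto (fun m : ℕ => ∫⁻ x, ENNReal.ofReal (trE t ((m : ℝ) + 1) x)
      ∂(μ' : Measure ℝ)) atTop (𝓝 (∫⁻ x, ENNReal.ofReal (Real.exp (t * x)) ∂(μ' : Measure ℝ))) := by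
    refine lintegral_tendsto_of_tendsto_of_monotone ?_ ?_ ?_
    · intro m
      exact (ENNReal.measurable_ofReal.comp (trE t ((m : ℝ) + 1)).continuous.measurable).aemeasurable
    · refine Eventually.of_forall fun x => ?_
      intro a b hab
      refine ENNReal.ofReal_le_ofReal ?_
      simp only [trE_apply]
      have : (a : ℝ) ≤ b := by exact_mod_cast hab
      exact min_le_min le_rfl (by linarith)
    · refine Eventually.of_forall fun x => ?_
      refine tendsto_atTop_of_eventually_const (i₀ := ⌈Real.exp (t * x)⌉₊) fun m hm => ?_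
      rw [trE_apply, min_eq_left]
      have h1 := Nat.le_ceil (Real.exp (t * x))
      have h2 : ((⌈Real.exp (t * x)⌉₊ : ℕ) : ℝ) ≤ m := by exact_mod_cast hm
      linarith
  have hlint2 : Tendsto (fun m : ℕ => ∫⁻ x, ENNReal.ofReal (trE t ((m : ℝ) + 1) x)
      ∂(μ' : Measure ℝ)) atTop (𝓝 (ENNReal.ofReal (Real.exp (v * t ^ 2 / 2)))) := by
    refine ((ENNReal.continuous_ofReal.tendsto _).comp hlim).congr fun m => ?_
    simp only [Function.comp_apply]
    rw [ofReal_integral_eq_lintegral_ofReal ((trE t ((m : ℝ) + 1)).integrable _)]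
    refine Eventually.of_forall fun x => ?_
    simp only [trE_apply, Pi.zero_apply]
    have : (0 : ℝ) ≤ m := Nat.cast_nonneg m
    exact le_min (Real.exp_pos _).le (by linarith)
  have hval := tendsto_nhds_unique hlint hlint2
  have hmeas : AEStronglyMeasurable (fun x : ℝ => Real.exp (t * x)) (μ' : Measure ℝ) :=
    Measurable.aestronglyMeasurable (by fun_prop)
  constructor
  · refine ⟨hmeas, ?_⟩
    rw [hasFiniteIntegral_iff_ofReal (Eventually.of_forall fun x => (Real.exp_pos _).le), hval]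
    exact ENNReal.ofReal_lt_top
  · rw [integral_eq_lintegral_of_nonneg_ae (Eventually.of_forall fun x => (Real.exp_pos _).le)
      hmeas, hval, ENNReal.toReal_ofReal (Real.exp_pos _).le]

/-- One-sided convergence of moment generating functions and bounded second moments imply weak
convergence to the Gaussian law. -/
theorem tendsto_gaussian_of_mgf {μ : ℕ → ProbabilityMeasure ℝ} {v : ℝ≥0}
    (hi : ∀ n, ∀ t : ℝ, 0 < t → Integrable (fun x : ℝ => Real.exp (t * x)) (μ n : Measure ℝ))
    (hm : ∀ t : ℝ, 0 < t → Tendsto (fun n => ∫ x, Real.exp (t * x) ∂(μ n : Measure ℝ)) atTop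
      (𝓝 (Real.exp (v * t ^ 2 / 2))))
    (C : ℝ) (h2i : ∀ n, Integrable (fun x : ℝ => x ^ 2) (μ n : Measure ℝ))
    (h2 : ∀ n, ∫ x, x ^ 2 ∂(μ n : Measure ℝ) ≤ C) :
    Tendsto μ atTop (𝓝 (⟨gaussianReal 0 v, inferInstance⟩ : ProbabilityMeasure ℝ)) := by
  refine (Filter.tendsto_iff_ultrafilter _ _ _).2 fun U hU ↦ ?_
  have h_compact : IsCompact (closure {μ n | n}) :=
    isCompact_closure_of_isTightMeasureSet (by simpa using tight_of_sq C h2i h2)
  obtain ⟨μ', -, hμ'⟩ := h_compact.ultrafilter_le_nhds (U.map μ)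
    (.trans (by simp) (monotone_principal subset_closure))
  have hμ'' : Tendsto μ U (𝓝 μ') := hμ'
  have h3 := fun t ht => mgf_limit hi hm U hU μ' hμ'' t ht
  have h4 := eq_of_mgf_pos (μ' : Measure ℝ) v (fun t ht => (h3 t ht).1) (fun t ht => (h3 t ht).2)
  have h5 : μ' = (⟨gaussianReal 0 v, inferInstance⟩ : ProbabilityMeasure ℝ) := Subtype.ext h4
  rw [← h5]
  exact hμ''

end Pool.Agent.R967.Mea
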