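import Pool.Agent.R967.Mea.Rec

/-!
The cycle lemma, and the closed form of the generating polynomial.
-/

set_option autoImplicit false

namespace Pool.Agent.R967.Mea

open Finset

/-- The weights of the steps. -/
def ww (s : ℝ) : ℕ → ℝ
  | 0 => 1
  | 1 => 0
  | (i + 2) => s * dd i

/-- Partial sums. -/
def PS {n B : ℕ} (e : Fin n → Fin B) (t : ℕ) : ℤ :=
  ∑ i : Fin n, if i.val < t then (((e i : ℕ) : ℤ) - 1) else 0

/-- Good sequences. -/
def Good {n B : ℕ} (h : ℕ) (e : Fin n → Fin B) : Prop :=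
  (∀ t, 1 ≤ t → t < n → PS e t ≤ h) ∧ PS e n = h + 1

/-- The product of the weights. -/
noncomputable def wp (s : ℝ) {n B : ℕ} (e : Fin n → Fin B) : ℝ := ∏ i, ww s (e i)

theorem PS_zero {n B : ℕ} (e : Fin n → Fin B) : PS e 0 = 0 := by
  simp [PS]

theorem PS_cons {n B : ℕ} (x : Fin B) (e : Fin n → Fin B) (t : ℕ) :
    PS (Fin.cons x e : Fin (n + 1) → Fin B) (t + 1) = (((x : ℕ) : ℤ) - 1) + PS e t := by
  unfold PS
  rw [Fin.sum_univ_succ]
  simp

theorem Good_cons {n B : ℕ} (h : ℕ) (x : Fin B) (e : Fin (n + 1) → Fin B) :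
    Good h (Fin.cons x e : Fin (n + 1 + 1) → Fin B) ↔
      (x : ℕ) ≤ h + 1 ∧ Good (h + 1 - (x : ℕ)) e := by
  unfold Good
  constructor
  · rintro ⟨h1, h2⟩
    have h3 : PS (Fin.cons x e : Fin (n + 1 + 1) → Fin B) (0 + 1) ≤ h := h1 1 le_rfl (by omega)
    rw [PS_cons, PS_zero] at h3
    have hx : (x : ℕ) ≤ h + 1 := by omega
    refine ⟨hx, fun t ht ht' => ?_, ?_⟩
    · have h4 := h1 (t + 1) (by omega) (by omega)
      rw [PS_cons] at h4
      omega
    · rw [PS_cons] at h2
      omega
  · rintro ⟨hx, h1, h2⟩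
    refine ⟨fun t ht ht' => ?_, ?_⟩
    · obtain ⟨u, rfl⟩ : ∃ u, t = u + 1 := ⟨t - 1, by omega⟩
      rw [PS_cons]
      rcases Nat.eq_zero_or_pos u with hu | hu
      · subst hu
        rw [PS_zero]
        omega
      · have := h1 u hu (by omega)
        omega
    · rw [PS_cons]
      omega

theorem wp_cons (s : ℝ) {n B : ℕ} (x : Fin B) (e : Fin n → Fin B) :
    wp s (Fin.cons x e : Fin (n + 1) → Fin B) = ww s x * wp s e := by
  unfold wp
  rw [Fin.prod_univ_succ]
  simp

theorem sum_cons {n B : ℕ} (F : (Fin (n + 1) → Fin B) → ℝ) :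
    ∑ e : Fin (n + 1) → Fin B, F e =
      ∑ x : Fin B, ∑ e : Fin n → Fin B, F (Fin.cons x e) := by
  rw [← Fintype.sum_prod_type']
  symm
  exact Fintype.sum_equiv (Fin.consEquiv (fun _ => Fin B)) _ _ (fun p => rfl)

open Classical in
/-- The sum over the good sequences. -/
theorem good_sum (s : ℝ) (L : ℕ) : ∀ (h B : ℕ), h + L + 3 ≤ B →
    ∑ e : Fin (L + 1) → Fin B, (if Good h e then wp s e else 0) = s * Ph s L h := by
  induction L with
  | zero =>
    intro h B hB
    rw [sum_cons]
    have h1 : ∀ x : Fin B, ∑ e : Fin 0 → Fin B,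
        (if Good h (Fin.cons x e : Fin (0 + 1) → Fin B) then
          wp s (Fin.cons x e : Fin (0 + 1) → Fin B) else 0) =
        if (x : ℕ) = h + 2 then ww s x else 0 := by
      intro x
      rw [Fintype.sum_unique]
      have h2 : Good h (Fin.cons x default : Fin (0 + 1) → Fin B) ↔ (x : ℕ) = h + 2 := by
        unfold Good
        rw [PS_cons, PS_zero]
        constructor
        · rintro ⟨-, h3⟩
          omega
        · intro h3
          exact ⟨fun t ht ht' => by omega, by omega⟩
      rw [wp_cons]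
      simp only [h2]
      simp [wp]
    rw [Finset.sum_congr rfl fun x _ => h1 x]
    rw [Finset.sum_eq_single (⟨h + 2, by omega⟩ : Fin B)]
    · simp [ww, Ph]
    · intro x _ hx
      rw [if_neg]
      intro h3
      exact hx (Fin.ext h3)
    · intro h3
      exact absurd (Finset.mem_univ _) h3
  | succ L ih =>
    intro h B hB
    rw [sum_cons]
    have h1 : ∀ x : Fin B, ∑ e : Fin (L + 1) → Fin B,
        (if Good h (Fin.cons x e : Fin (L + 1 + 1) → Fin B) then
          wp s (Fin.cons x e : Fin (L + 1 + 1) → Fin B) else 0) =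
        if (x : ℕ) ≤ h + 1 then ww s x * (s * Ph s L (h + 1 - (x : ℕ))) else 0 := by
      intro x
      simp only [Good_cons, wp_cons]
      by_cases hx : (x : ℕ) ≤ h + 1
      · rw [if_pos hx, ← ih (h + 1 - (x : ℕ)) B (by omega), Finset.mul_sum]
        refine Finset.sum_congr rfl fun e _ => ?_
        by_cases hg : Good (h + 1 - (x : ℕ)) e
        · rw [if_pos ⟨hx, hg⟩, if_pos hg]
        · rw [if_neg (fun h' => hg h'.2), if_neg hg, mul_zero]
      · rw [if_neg hx]
        refine Finset.sum_eq_zero fun e _ => ?_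
        rw [if_neg (fun h' => hx h'.1)]
    rw [Finset.sum_congr rfl fun x _ => h1 x]
    rw [Fin.sum_univ_eq_sum_range (fun x => if x ≤ h + 1 then ww s x * (s * Ph s L (h + 1 - x)) else 0)]
    have h2 : ∑ x ∈ Finset.range B, (if x ≤ h + 1 then ww s x * (s * Ph s L (h + 1 - x)) else 0) =
        ∑ x ∈ Finset.range (h + 2), ww s x * (s * Ph s L (h + 1 - x)) := by
      rw [← Finset.sum_filter]
      congr 1
      ext x
      rw [Finset.mem_filter, Finset.mem_range, Finset.mem_range]
      omega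
    rw [h2, Finset.sum_range_succ', Finset.sum_range_succ']
    show _ = s * (Ph s L (h + 1) + s * ∑ i ∈ Finset.range h, dd i * Ph s L (h - 1 - i))
    have h3 : ∑ k ∈ Finset.range h, ww s (k + 1 + 1) * (s * Ph s L (h + 1 - (k + 1 + 1))) =
        s * (s * ∑ i ∈ Finset.range h, dd i * Ph s L (h - 1 - i)) := by
      rw [Finset.mul_sum, Finset.mul_sum]
      refine Finset.sum_congr rfl fun k _ => ?_
      rw [show h + 1 - (k + 1 + 1) = h - 1 - k by omega]
      show s * dd k * _ = _
      ring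
    rw [h3]
    simp only [ww, zero_mul, add_zero, one_mul, Nat.sub_zero, zero_add]
    ring

/-! ### The cycle lemma -/

/-- The periodic extension. -/
def ext1 {n B : ℕ} (hn : 0 < n) (e : Fin n → Fin B) (u : ℕ) : ℤ :=
  ((e ⟨u % n, Nat.mod_lt u hn⟩ : ℕ) : ℤ) - 1

/-- The partial sums of the periodic extension. -/
def SS {n B : ℕ} (hn : 0 < n) (e : Fin n → Fin B) (t : ℕ) : ℤ := ∑ u ∈ Finset.range t, ext1 hn e u

theorem PS_eq_SS {n B : ℕ} (hn : 0 < n) (e : Fin n → Fin B) {t : ℕ} (ht : t ≤ n) :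
    PS e t = SS hn e t := by
  unfold PS SS
  have h1 : ∀ i : Fin n, (if i.val < t then (((e i : ℕ) : ℤ) - 1) else 0) =
      (fun u : ℕ => if u < t then ext1 hn e u else 0) i.val := by
    intro i
    simp only
    congr 1
    unfold ext1
    congr 4
    exact Fin.ext (Nat.mod_eq_of_lt i.2).symm
  rw [Finset.sum_congr rfl fun i _ => h1 i, Fin.sum_univ_eq_sum_range
    (fun u : ℕ => if u < t then ext1 hn e u else 0), ← Finset.sum_filter]
  congr 1
  ext x
  rw [Finset.mem_filter, Finset.mem_range, Finset.mem_range]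
  omega

theorem SS_add {n B : ℕ} (hn : 0 < n) (e : Fin n → Fin B) (t : ℕ) :
    SS hn e (t + n) = SS hn e t + SS hn e n := by
  induction t with
  | zero => simp [SS]
  | succ t ih =>
    have h1 : SS hn e (t + 1 + n) = SS hn e (t + n) + ext1 hn e (t + n) := by
      rw [show t + 1 + n = (t + n) + 1 by ring]
      exact Finset.sum_range_succ _ _
    have h2 : SS hn e (t + 1) = SS hn e t + ext1 hn e t := Finset.sum_range_succ _ _
    have h3 : ext1 hn e (t + n) = ext1 hn e t := by
      unfold ext1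
      congr 4
      exact Fin.ext (by simp)
    rw [h1, h2, ih, h3]
    ring

/-- Rotation. -/
def rot {n B : ℕ} (r : Fin n) (e : Fin n → Fin B) (i : Fin n) : Fin B := e (i + r)

theorem SS_rot {n B : ℕ} (hn : 0 < n) (e : Fin n → Fin B) (r : Fin n) (t : ℕ) :
    SS hn (rot r e) t = SS hn e (r + t) - SS hn e r := by
  have h1 : ∀ u, ext1 hn (rot r e) u = ext1 hn e (r + u) := by
    intro u
    unfold ext1 rot
    congr 4
    refine Fin.ext ?_
    rw [Fin.val_add]
    simp [add_comm]
  unfold SS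
  rw [Finset.sum_congr rfl fun u _ => h1 u, Finset.sum_range_add]
  ring

theorem cycle {n B : ℕ} (hn : 0 < n) (e : Fin n → Fin B) (h1 : PS e n = 1) :
    ∃! r : Fin n, Good 0 (rot r e) := by
  have hS : SS hn e n = 1 := by rw [← PS_eq_SS hn e le_rfl, h1]
  have key : ∀ r : Fin n, Good 0 (rot r e) ↔
      ∀ t, 1 ≤ t → t < n → SS hn e (r + t) ≤ SS hn e r := by
    intro r
    unfold Good
    constructor
    · rintro ⟨h2, -⟩ t ht ht'
      have h3 := h2 t ht ht'
      rw [PS_eq_SS hn _ ht'.le, SS_rot] at h3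
      push_cast at h3
      linarith
    · intro h2
      refine ⟨fun t ht ht' => ?_, ?_⟩
      · rw [PS_eq_SS hn _ ht'.le, SS_rot]
        have := h2 t ht ht'
        push_cast
        linarith
      · rw [PS_eq_SS hn _ le_rfl, SS_rot, SS_add, hS]
        push_cast
        ring
  -- the maximum
  obtain ⟨m, hm, hmax⟩ := Finset.exists_max_image (Finset.range n) (fun t => SS hn e t)
    ⟨0, Finset.mem_range.2 hn⟩
  have hex : ∃ r, r < n ∧ ∀ t, t < n → SS hn e t ≤ SS hn e r :=
    ⟨m, Finset.mem_range.1 hm, fun t ht => hmax t (Finset.mem_range.2 ht)⟩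
  classical
  obtain ⟨hr1, hr2⟩ := Nat.find_spec hex
  have hr3 : ∀ j, j < Nat.find hex → SS hn e j < SS hn e (Nat.find hex) := by
    intro j hj
    by_contra hcon
    refine Nat.find_min hex hj ⟨by omega, fun t ht => ?_⟩
    exact (hr2 t ht).trans (not_lt.1 hcon)
  refine ⟨⟨Nat.find hex, hr1⟩, (key _).2 fun t ht ht' => ?_, ?_⟩
  · show SS hn e (Nat.find hex + t) ≤ SS hn e (Nat.find hex)
    rcases Nat.lt_or_ge (Nat.find hex + t) n with h2 | h2
    · exact hr2 _ h2
    · obtain ⟨j, hj⟩ : ∃ j, Nat.find hex + t = j + n := ⟨Nat.find hex + t - n, by omega⟩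
      rw [hj, SS_add, hS]
      have := hr3 j (by omega)
      omega
  · have uniq : ∀ r r' : Fin n, Good 0 (rot r e) → Good 0 (rot r' e) → ¬ r < r' := by
      intro r r' hr hr' hlt
      rw [key] at hr hr'
      have hlt' : (r : ℕ) < r' := hlt
      have a1 := hr ((r' : ℕ) - r) (by omega) (by omega)
      have a2 := hr' ((r : ℕ) + n - r') (by omega) (by omega)
      rw [show (r : ℕ) + ((r' : ℕ) - r) = r' by omega] at a1
      rw [show (r' : ℕ) + ((r : ℕ) + n - r') = r + n by omega, SS_add, hS] at a2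
      omega
    intro r' hr'
    have h3 : Good 0 (rot (⟨Nat.find hex, hr1⟩ : Fin n) e) := (key _).2 fun t ht ht' => by
      show SS hn e (Nat.find hex + t) ≤ SS hn e (Nat.find hex)
      rcases Nat.lt_or_ge (Nat.find hex + t) n with h2 | h2
      · exact hr2 _ h2
      · obtain ⟨j, hj⟩ : ∃ j, Nat.find hex + t = j + n := ⟨Nat.find hex + t - n, by omega⟩
        rw [hj, SS_add, hS]
        have := hr3 j (by omega)
        omega
    rcases lt_trichotomy r' ⟨Nat.find hex, hr1⟩ with h | h | h
    · exact absurd h (uniq _ _ hr' h3)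
    · exact h
    · exact absurd h (uniq _ _ h3 hr')

theorem rot_inv {n B : ℕ} (hn : 0 < n) (r : Fin n) :
    ∃ E : (Fin n → Fin B) ≃ (Fin n → Fin B), ∀ e, E e = rot r e := by
  have : NeZero n := ⟨hn.ne'⟩
  exact ⟨(Equiv.addRight r).symm.arrowCongr (Equiv.refl _), fun e => by
    funext i
    simp [rot, Equiv.arrowCongr]⟩

theorem wp_rot (s : ℝ) {n B : ℕ} (hn : 0 < n) (r : Fin n) (e : Fin n → Fin B) :
    wp s (rot r e) = wp s e := by
  have : NeZero n := ⟨hn.ne'⟩
  unfold wp rot
  exact Equiv.prod_comp (Equiv.addRight r) (fun i => ww s (e i))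

theorem PS_rot {n B : ℕ} (hn : 0 < n) (r : Fin n) (e : Fin n → Fin B) :
    PS (rot r e) n = PS e n := by
  rw [PS_eq_SS hn _ le_rfl, PS_eq_SS hn _ le_rfl, SS_rot, SS_add]
  ring

open Classical in
theorem cycle_sum (s : ℝ) {n : ℕ} (hn : 0 < n) (B : ℕ) :
    ∑ e : Fin n → Fin B, (if PS e n = 1 then wp s e else 0) =
      n * ∑ e : Fin n → Fin B, (if Good 0 e then wp s e else 0) := by
  have h1 : ∀ e : Fin n → Fin B, (if PS e n = 1 then wp s e else 0) =
      ∑ r : Fin n, (if Good 0 (rot r e) then wp s (rot r e) else 0) := by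
    intro e
    by_cases h : PS e n = 1
    · rw [if_pos h]
      obtain ⟨r, hr, huniq⟩ := cycle hn e h
      rw [Finset.sum_eq_single r]
      · rw [if_pos hr, wp_rot s hn]
      · intro r' _ hne
        rw [if_neg]
        intro h2
        exact hne (huniq r' h2)
      · intro h2
        exact absurd (Finset.mem_univ _) h2
    · rw [if_neg h]
      symm
      refine Finset.sum_eq_zero fun r _ => ?_
      rw [if_neg]
      intro h2
      apply h
      rw [← PS_rot hn r e]
      have := h2.2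
      push_cast at this
      linarith
  rw [Finset.sum_congr rfl fun e _ => h1 e, Finset.sum_comm]
  have h2 : ∀ r : Fin n, ∑ e : Fin n → Fin B, (if Good 0 (rot r e) then wp s (rot r e) else 0) =
      ∑ e : Fin n → Fin B, (if Good 0 e then wp s e else 0) := by
    intro r
    obtain ⟨E, hE⟩ := rot_inv (B := B) hn r
    rw [← Equiv.sum_comp E (fun e => if Good 0 e then wp s e else 0)]
    refine Finset.sum_congr rfl fun e _ => ?_
    simp only [hE]
  rw [Finset.sum_congr rfl fun r _ => h2 r]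
  simp

/-- The power series of the weights. -/
noncomputable def wS (s : ℝ) : PowerSeries ℝ := PowerSeries.mk (ww s)

theorem all_sum (s : ℝ) (n : ℕ) : ∀ (m B : ℕ), m < B →
    ∑ e : Fin n → Fin B, (if ∑ i, (e i : ℕ) = m then wp s e else 0) =
      PowerSeries.coeff m (wS s ^ n) := by
  induction n with
  | zero =>
    intro m B hB
    rw [Fintype.sum_unique, pow_zero, PowerSeries.coeff_one]
    simp [wp, eq_comm]
  | succ n ih =>
    intro m B hB
    rw [sum_cons, pow_succ', PowerSeries.coeff_mul, Finset.Nat.sum_antidiagonal_eq_sum_range_succ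
      (fun i j => PowerSeries.coeff i (wS s) * PowerSeries.coeff j (wS s ^ n))]
    have h1 : ∀ x : Fin B, ∑ e : Fin n → Fin B,
        (if ∑ i, ((Fin.cons x e : Fin (n + 1) → Fin B) i : ℕ) = m then
          wp s (Fin.cons x e : Fin (n + 1) → Fin B) else 0) =
        if (x : ℕ) ≤ m then ww s x * PowerSeries.coeff (m - (x : ℕ)) (wS s ^ n) else 0 := by
      intro x
      by_cases hx : (x : ℕ) ≤ m
      · rw [if_pos hx, ← ih (m - (x : ℕ)) B (by omega), Finset.mul_sum]
        refine Finset.sum_congr rfl fun e _ => ?_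
        rw [wp_cons, Fin.sum_univ_succ]
        simp only [Fin.cons_zero, Fin.cons_succ]
        by_cases h2 : ∑ i, (e i : ℕ) = m - (x : ℕ)
        · rw [if_pos h2, if_pos (by omega)]
        · rw [if_neg h2, if_neg (by omega), mul_zero]
      · rw [if_neg hx]
        refine Finset.sum_eq_zero fun e _ => ?_
        rw [Fin.sum_univ_succ, if_neg]
        simp only [Fin.cons_zero, Fin.cons_succ]
        omega
    rw [Finset.sum_congr rfl fun x _ => h1 x]
    rw [Fin.sum_univ_eq_sum_range (fun x => if x ≤ m then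
      ww s x * PowerSeries.coeff (m - x) (wS s ^ n) else 0), ← Finset.sum_filter]
    have h2 : (Finset.range B).filter (fun x => x ≤ m) = Finset.range (m + 1) := by
      ext x
      rw [Finset.mem_filter, Finset.mem_range, Finset.mem_range]
      omega
    rw [h2]
    refine Finset.sum_congr rfl fun x _ => ?_
    simp [wS]

theorem PS_total {n B : ℕ} (e : Fin n → Fin B) :
    PS e n = 1 ↔ ∑ i, (e i : ℕ) = n + 1 := by
  have h1 : PS e n = ((∑ i, (e i : ℕ) : ℕ) : ℤ) - n := by
    unfold PS
    have : ∀ i : Fin n, (if i.val < n then (((e i : ℕ) : ℤ) - 1) else 0) = ((e i : ℕ) : ℤ) - 1 := by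
      intro i
      rw [if_pos i.2]
    rw [Finset.sum_congr rfl fun i _ => this i, Finset.sum_sub_distrib]
    simp
  rw [h1]
  omega

theorem Ph_closed (s : ℝ) (L : ℕ) :
    s * ((L + 1 : ℕ) : ℝ) * Ph s L 0 = PowerSeries.coeff (L + 2) (wS s ^ (L + 1)) := by
  classical
  have h1 := good_sum s L 0 (L + 3) (by omega)
  have h2 := cycle_sum s (Nat.succ_pos L) (L + 3)
  rw [h1] at h2
  have h3 := all_sum s (L + 1) (L + 2) (L + 3) (by omega)
  rw [← h3]
  have h4 : ∑ e : Fin (L + 1) → Fin (L + 3), (if ∑ i, (e i : ℕ) = L + 2 then wp s e else 0) =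
      ∑ e : Fin (L + 1) → Fin (L + 3), (if PS e (L + 1) = 1 then wp s e else 0) := by
    refine Finset.sum_congr rfl fun e _ => ?_
    by_cases h : PS e (L + 1) = 1
    · rw [if_pos h, if_pos ((PS_total e).1 h)]
    · rw [if_neg h, if_neg (fun h' => h ((PS_total e).2 h'))]
  rw [h4, h2]
  ring

/-- The power series of the squares of the Catalan numbers in `X ^ 2`. -/
noncomputable def dS : PowerSeries ℝ := PowerSeries.mk dd

theorem wS_eq (s : ℝ) : wS s = PowerSeries.C s * PowerSeries.X ^ 2 * dS + 1 := by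
  ext n
  rw [map_add, mul_assoc, PowerSeries.coeff_C_mul, PowerSeries.coeff_X_pow_mul', PowerSeries.coeff_one]
  rcases n with _ | _ | n
  · simp [wS, ww]
  · simp [wS, ww]
  · simp [wS, ww, dS]

/-- The closed form. -/
theorem Ph_sum (s : ℝ) (L : ℕ) :
    s * ((L + 1 : ℕ) : ℝ) * Ph s L 0 = ∑ j ∈ Finset.range (L + 2),
      ((L + 1).choose j : ℝ) * s ^ j * (if 2 * j ≤ L + 2 then
        PowerSeries.coeff (L + 2 - 2 * j) (dS ^ j) else 0) := by
  rw [Ph_closed, wS_eq, add_pow]
  simp only [one_pow, mul_one]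
  rw [map_sum]
  refine Finset.sum_congr rfl fun j _ => ?_
  rw [mul_pow, mul_pow, ← map_pow, ← pow_mul, mul_assoc, mul_assoc,
    PowerSeries.coeff_C_mul]
  have h1 : (PowerSeries.X ^ (2 * j) * (dS ^ j * (((L + 1).choose j : ℕ) : PowerSeries ℝ)) :
      PowerSeries ℝ) = PowerSeries.C (((L + 1).choose j : ℕ) : ℝ) *
        (PowerSeries.X ^ (2 * j) * dS ^ j) := by
    rw [map_natCast]
    ring
  rw [h1, PowerSeries.coeff_C_mul, PowerSeries.coeff_X_pow_mul']
  ring

end Pool.Agent.R967.Mea
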