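import Pool.Agent.R967.Mea.Unif

/-!
Second order expansion of the ratios for a fixed number of marked components.
-/

set_option autoImplicit false

namespace Pool.Agent.R967.Mea

open Finset Filter Topology

theorem summable_ipp : Summable (fun i : ℕ => (i : ℝ) * pp i) :=
  summable_of_sum_range_le (fun i => mul_nonneg (Nat.cast_nonneg i) (pp_pos i).le) sum_ipp_le

/-- The mean of the law `pp`. -/
noncomputable def mu1 : ℝ := ∑' i : ℕ, (i : ℝ) * pp i

theorem summable_pp : Summable pp := hasSum_pp.summable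

theorem summable_qq (k : ℕ) : Summable (qq k) :=
  summable_of_sum_range_le (qq_nonneg k) (sum_qq_le k)

theorem summable_iqq (k : ℕ) : Summable (fun m : ℕ => (m : ℝ) * qq k m) :=
  summable_of_sum_range_le (fun i => mul_nonneg (Nat.cast_nonneg i) (qq_nonneg k i)) (sum_iqq_le k)

theorem qq_succ (k m : ℕ) :
    qq (k + 1) m = ∑ p ∈ Finset.HasAntidiagonal.antidiagonal m, pp p.1 * qq k p.2 := by
  unfold qq
  rw [pow_succ', PowerSeries.coeff_mul]
  simp [pS]

theorem sn {f : ℕ → ℝ} (h : Summable f) (h0 : ∀ n, 0 ≤ f n) : Summable (fun n => ‖f n‖) := by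
  have : (fun n => ‖f n‖) = f := by
    funext n
    exact Real.norm_of_nonneg (h0 n)
  rw [this]
  exact h

theorem tsum_qq (k : ℕ) : ∑' m, qq k m = 1 := by
  induction k with
  | zero =>
    have : qq 0 = fun m => if m = 0 then 1 else 0 := by
      funext m
      unfold qq
      rw [pow_zero, PowerSeries.coeff_one]
    rw [this, tsum_ite_eq]
  | succ k ih =>
    have h := tsum_mul_tsum_eq_tsum_sum_antidiagonal_of_summable_norm
      (sn summable_pp fun n => (pp_pos n).le) (sn (summable_qq k) (qq_nonneg k))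
    rw [hasSum_pp.tsum_eq, ih, one_mul] at h
    rw [h]
    exact tsum_congr fun m => qq_succ k m

theorem tsum_iqq (k : ℕ) : ∑' m : ℕ, (m : ℝ) * qq k m = k * mu1 := by
  induction k with
  | zero =>
    have : (fun m : ℕ => (m : ℝ) * qq 0 m) = fun _ => 0 := by
      funext m
      unfold qq
      rw [pow_zero, PowerSeries.coeff_one]
      split_ifs with h
      · rw [h]; simp
      · simp
    rw [this]
    simp
  | succ k ih =>
    have s1 := sn summable_ipp fun n => mul_nonneg (Nat.cast_nonneg n) (pp_pos n).le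
    have s2 := sn (summable_iqq k) fun n => mul_nonneg (Nat.cast_nonneg n) (qq_nonneg k n)
    have s3 := sn summable_pp fun n => (pp_pos n).le
    have s4 := sn (summable_qq k) (qq_nonneg k)
    have h1 := tsum_mul_tsum_eq_tsum_sum_antidiagonal_of_summable_norm s1 s4
    have h2 := tsum_mul_tsum_eq_tsum_sum_antidiagonal_of_summable_norm s3 s2
    have t1 := (summable_norm_sum_mul_antidiagonal_of_summable_norm s1 s4).of_norm
    have t2 := (summable_norm_sum_mul_antidiagonal_of_summable_norm s3 s2).of_norm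
    rw [tsum_qq, mul_one] at h1
    rw [hasSum_pp.tsum_eq, ih, one_mul] at h2
    have h3 : (fun m : ℕ => (m : ℝ) * qq (k + 1) m) = fun m : ℕ =>
        (∑ p ∈ Finset.HasAntidiagonal.antidiagonal m, ((p.1 : ℝ) * pp p.1) * qq k p.2) +
        ∑ p ∈ Finset.HasAntidiagonal.antidiagonal m, pp p.1 * ((p.2 : ℝ) * qq k p.2) := by
      funext m
      rw [qq_succ, Finset.mul_sum, ← Finset.sum_add_distrib]
      refine Finset.sum_congr rfl fun p hp => ?_
      rw [Finset.HasAntidiagonal.mem_antidiagonal] at hp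
      rw [← hp]
      push_cast
      ring
    rw [h3, t1.tsum_add t2, ← h1, ← h2]
    unfold mu1
    push_cast
    ring

/-! ### the ratio of consecutive masses -/

theorem ppr_up {n i : ℕ} (hi : i ≤ n) :
    pp (n - i) / pp n ≤ (1 + i / ((n : ℝ) + (1 / 4 - i))) ^ 3 := by
  have h := pp_ratio hi
  have hn := pp_pos n
  have hin : (i : ℝ) ≤ n := by exact_mod_cast hi
  have hd : 0 < (n : ℝ) + (1 / 4 - i) := by linarith
  have hd' : 0 < 4 * ((n : ℝ) - i) + 1 := by linarith
  have e : 1 + i / ((n : ℝ) + (1 / 4 - i)) = (4 * (n : ℝ) + 1) / (4 * ((n : ℝ) - i) + 1) := by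
    obtain ⟨D, hD⟩ : ∃ D : ℝ, D = (n : ℝ) + (1 / 4 - i) := ⟨_, rfl⟩
    have hn' : (n : ℝ) = D - 1 / 4 + i := by rw [hD]; ring
    rw [← hD] at hd ⊢
    rw [show 4 * ((n : ℝ) - i) + 1 = 4 * D by rw [hn']; ring, hn']
    field_simp
    ring
  rw [e, div_pow, div_le_div_iff₀ hn (by positivity)]
  linarith

theorem ppr_low {n i : ℕ} (hi : i ≤ n) :
    (1 + i / ((n : ℝ) + (1 - i))) ^ 3 ≤ pp (n - i) / pp n := by
  have h := bbU_anti (Nat.sub_le n i)
  simp only at h
  rw [Nat.cast_sub hi] at h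
  have hn := bb_pos n
  have hg := gg_pos
  have hin : (i : ℝ) ≤ n := by exact_mod_cast hi
  have hd : 0 < (n : ℝ) + (1 - i) := by linarith
  have hd' : 0 < (n : ℝ) - i + 1 := by linarith
  have e : 1 + i / ((n : ℝ) + (1 - i)) = ((n : ℝ) + 1) / ((n : ℝ) - i + 1) := by
    field_simp
    ring
  have e2 : pp (n - i) / pp n = bb (n - i) / bb n := by
    unfold pp
    field_simp
  rw [e, e2, div_pow, div_le_div_iff₀ (by positivity) hn]
  linarith

theorem cube_tendsto (i : ℕ) (c : ℝ) :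
    Tendsto (fun n : ℕ => (n : ℝ) * ((1 + (i : ℝ) / ((n : ℝ) + c)) ^ 3 - 1)) atTop
      (𝓝 (3 * (i : ℝ))) := by
  have h1 : Tendsto (fun n : ℕ => (n : ℝ) / ((n : ℝ) + c)) atTop (𝓝 1) :=
    tendsto_natCast_div_add_atTop c
  have h2 : Tendsto (fun n : ℕ => (i : ℝ) / ((n : ℝ) + c)) atTop (𝓝 0) :=
    tendsto_const_nhds.div_atTop
      (tendsto_atTop_add_const_right _ _ tendsto_natCast_atTop_atTop)
  have h3 : Tendsto (fun n : ℕ => (i : ℝ) * ((n : ℝ) / ((n : ℝ) + c)) *
      (3 + 3 * ((i : ℝ) / ((n : ℝ) + c)) + ((i : ℝ) / ((n : ℝ) + c)) ^ 2)) atTop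
      (𝓝 ((i : ℝ) * 1 * (3 + 3 * 0 + 0 ^ 2))) :=
    (h1.const_mul _).mul ((tendsto_const_nhds.add (h2.const_mul _)).add (h2.pow 2))
  have e : (i : ℝ) * 1 * (3 + 3 * 0 + 0 ^ 2) = 3 * i := by ring
  rw [e] at h3
  refine h3.congr fun n => ?_
  ring

theorem ppr_tendsto (i : ℕ) :
    Tendsto (fun n : ℕ => (n : ℝ) * (pp (n - i) / pp n - 1)) atTop (𝓝 (3 * i)) := by
  refine tendsto_of_tendsto_of_tendsto_of_le_of_le' (cube_tendsto i (1 - i))
    (cube_tendsto i (1 / 4 - i)) ?_ ?_
  · filter_upwards [eventually_ge_atTop i] with n hn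
    exact mul_le_mul_of_nonneg_left (sub_le_sub_right (ppr_low hn) 1) (Nat.cast_nonneg n)
  · filter_upwards [eventually_ge_atTop i] with n hn
    exact mul_le_mul_of_nonneg_left (sub_le_sub_right (ppr_up hn) 1) (Nat.cast_nonneg n)

theorem ppr_nonneg {n i : ℕ} (hi : i ≤ n) : 0 ≤ pp (n - i) / pp n - 1 := by
  have h := pp_anti (Nat.sub_le n i)
  have hn := pp_pos n
  rw [sub_nonneg, le_div_iff₀ hn, one_mul]
  exact h

theorem ppr_bound {n i : ℕ} {A : ℝ} (hA : 1 ≤ A) (hi : i ≤ n) (hA' : (n : ℝ) ≤ A * ((n : ℝ) - i))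
    (hn : 1 ≤ n) :
    (n : ℝ) * (pp (n - i) / pp n - 1) ≤ 3 * A ^ 3 * i := by
  have hn' : (1 : ℝ) ≤ n := by exact_mod_cast hn
  have h := ppr_up hi
  have hin : (i : ℝ) ≤ n := by exact_mod_cast hi
  have h0 : (0 : ℝ) ≤ i := Nat.cast_nonneg i
  have hd : 0 < (n : ℝ) + (1 / 4 - i) := by linarith
  obtain ⟨y, hy⟩ : ∃ y : ℝ, y = i / ((n : ℝ) + (1 / 4 - i)) := ⟨_, rfl⟩
  rw [← hy] at h
  have hy0 : 0 ≤ y := by rw [hy]; positivity
  have hy1 : (n : ℝ) * y ≤ A * i := by
    rw [hy, mul_div_assoc', div_le_iff₀ hd]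
    have : (n : ℝ) ≤ A * ((n : ℝ) + (1 / 4 - i)) := by nlinarith
    nlinarith
  have hy2 : 1 + y ≤ A := by
    have e : 1 + y = ((n : ℝ) + 1 / 4) / ((n : ℝ) + (1 / 4 - i)) := by
      rw [hy, eq_div_iff hd.ne', add_mul, div_mul_cancel₀ _ hd.ne']
      ring
    rw [e, div_le_iff₀ hd]
    nlinarith
  have h3 : (1 + y) ^ 3 - 1 ≤ 3 * A ^ 2 * y := by
    have e : (1 + y) ^ 3 - 1 = y * ((1 + y) ^ 2 + (1 + y) + 1) := by ring
    have h4 : (1 + y) ^ 2 + (1 + y) + 1 ≤ 3 * A ^ 2 := by
      have : 1 ≤ 1 + y := by linarith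
      nlinarith
    rw [e]
    calc y * ((1 + y) ^ 2 + (1 + y) + 1) ≤ y * (3 * A ^ 2) := mul_le_mul_of_nonneg_left h4 hy0
      _ = _ := by ring
  calc (n : ℝ) * (pp (n - i) / pp n - 1) ≤ n * (3 * A ^ 2 * y) := by
        refine mul_le_mul_of_nonneg_left ?_ (by linarith)
        linarith
    _ = 3 * A ^ 2 * (n * y) := by ring
    _ ≤ 3 * A ^ 2 * (A * i) := mul_le_mul_of_nonneg_left hy1 (by positivity)
    _ = _ := by ring

/-- Dominated convergence for the truncated sums. -/
theorem tannery (k : ℕ) (J : ℕ → ℕ) (hJ : Tendsto J atTop atTop) (A : ℝ) (hA : 1 ≤ A)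
    (hJA : ∀ᶠ n : ℕ in atTop, ∀ j < J n, k + j ≤ n ∧ (n : ℝ) ≤ A * ((n : ℝ) - (k + j : ℕ))) :
    Tendsto (fun n : ℕ => ∑ j ∈ Finset.range (J n),
      qq k j * ((n : ℝ) * (pp (n - (k + j)) / pp n - 1))) atTop (𝓝 (3 * k * (1 + mu1))) := by
  have hb : Summable (fun j : ℕ => qq k j * (3 * A ^ 3 * (k + j : ℕ))) := by
    have e : (fun j : ℕ => qq k j * (3 * A ^ 3 * (k + j : ℕ))) =
        fun j : ℕ => (3 * A ^ 3 * k) * qq k j + (3 * A ^ 3) * ((j : ℝ) * qq k j) := by
      funext j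
      push_cast
      ring
    rw [e]
    exact ((summable_qq k).mul_left _).add ((summable_iqq k).mul_left _)
  have hlim : ∑' j : ℕ, qq k j * (3 * (k + j : ℕ)) = 3 * k * (1 + mu1) := by
    have e : (fun j : ℕ => qq k j * (3 * ((k + j : ℕ) : ℝ))) =
        fun j : ℕ => (3 * k) * qq k j + 3 * ((j : ℝ) * qq k j) := by
      funext j
      push_cast
      ring
    rw [e, ((summable_qq k).mul_left _).tsum_add ((summable_iqq k).mul_left _), tsum_mul_left,
      tsum_mul_left, tsum_qq, tsum_iqq]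
    ring
  have hfin : ∀ n : ℕ, ∑ j ∈ Finset.range (J n),
      qq k j * ((n : ℝ) * (pp (n - (k + j)) / pp n - 1)) =
      ∑' j : ℕ, if j < J n then qq k j * ((n : ℝ) * (pp (n - (k + j)) / pp n - 1)) else 0 := by
    intro n
    rw [tsum_eq_sum (s := Finset.range (J n))]
    · refine Finset.sum_congr rfl fun j hj => ?_
      rw [Finset.mem_range] at hj
      rw [if_pos hj]
    · intro j hj
      rw [Finset.mem_range] at hj
      rw [if_neg hj]
  simp only [hfin]
  rw [← hlim]
  refine tendsto_tsum_of_dominated_convergence hb ?_ ?_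
  · intro j
    have h1 : Tendsto (fun n : ℕ => qq k j * ((n : ℝ) * (pp (n - (k + j)) / pp n - 1))) atTop
        (𝓝 (qq k j * (3 * (k + j : ℕ)))) := (ppr_tendsto (k + j)).const_mul _
    refine h1.congr' ?_
    filter_upwards [hJ.eventually_gt_atTop j] with n hn
    rw [if_pos hn]
  · filter_upwards [hJA, eventually_ge_atTop 1] with n hn hn1 j
    split_ifs with hj
    · obtain ⟨h1, h2⟩ := hn j hj
      have h3 := ppr_nonneg h1
      rw [Real.norm_of_nonneg (mul_nonneg (qq_nonneg _ _) (mul_nonneg (Nat.cast_nonneg n) h3))]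
      exact mul_le_mul_of_nonneg_left (ppr_bound hA h1 h2 hn1) (qq_nonneg _ _)
    · rw [norm_zero]
      have : 0 ≤ A := by linarith
      exact mul_nonneg (qq_nonneg _ _) (by positivity)

theorem RR_exp_up {k n T : ℕ} (h : (k + 1) * T < n - k) :
    (n : ℝ) * (RR n k - 1) ≤ ∑ j ∈ Finset.range (n - k - T),
      qq k j * ((n : ℝ) * (pp (n - (k + j)) / pp n - 1)) := by
  have hn := pp_pos n
  have h1 := qq_upper h
  have h2 : RR n k ≤ ∑ j ∈ Finset.range (n - k - T), qq k j * (pp (n - (k + j)) / pp n) := by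
    unfold RR
    rw [div_le_iff₀ (by positivity)]
    refine h1.trans (le_of_eq ?_)
    rw [Finset.sum_mul, Finset.mul_sum]
    refine Finset.sum_congr rfl fun j _ => ?_
    rw [Nat.sub_sub]
    field_simp
  have h3 : RR n k - 1 ≤ ∑ j ∈ Finset.range (n - k - T),
      qq k j * (pp (n - (k + j)) / pp n - 1) := by
    have h4 := sum_qq_le k (n - k - T)
    have e : ∑ j ∈ Finset.range (n - k - T), qq k j * (pp (n - (k + j)) / pp n - 1) =
        (∑ j ∈ Finset.range (n - k - T), qq k j * (pp (n - (k + j)) / pp n)) -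
        ∑ j ∈ Finset.range (n - k - T), qq k j := by
      rw [← Finset.sum_sub_distrib]
      exact Finset.sum_congr rfl fun j _ => by ring
    rw [e]
    linarith
  calc (n : ℝ) * (RR n k - 1) ≤ n * ∑ j ∈ Finset.range (n - k - T),
      qq k j * (pp (n - (k + j)) / pp n - 1) := mul_le_mul_of_nonneg_left h3 (Nat.cast_nonneg n)
    _ = _ := by
      rw [Finset.mul_sum]
      exact Finset.sum_congr rfl fun j _ => by ring

theorem RR_exp_low {k n T : ℕ} (h : 2 * T ≤ n - k) :
    (∑ j ∈ Finset.range T, qq k j * ((n : ℝ) * (pp (n - (k + j)) / pp n - 1))) -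
      n * (1 - ∑ j ∈ Finset.range T, qq k j) ≤ (n : ℝ) * (RR n k - 1) := by
  have hn := pp_pos n
  have h1 := qq_lower k T (n - k)
  have h2 : ∑ j ∈ Finset.range T, qq k j * (pp (n - (k + j)) / pp n) ≤ RR n k := by
    unfold RR
    rw [le_div_iff₀ (by positivity)]
    refine le_trans ?_ h1
    rw [Finset.sum_mul, Finset.mul_sum]
    have hsub : Finset.range T ⊆ Finset.range (n - k - T) := by
      intro x hx
      rw [Finset.mem_range] at hx ⊢
      omega
    refine le_trans (le_of_eq ?_) (Finset.sum_le_sum_of_subset_of_nonneg hsub fun j _ _ =>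
      mul_nonneg (by positivity) (mul_nonneg (qT_nonneg _ _ _) (pp_pos _).le))
    refine Finset.sum_congr rfl fun j hj => ?_
    rw [Finset.mem_range] at hj
    rw [qT_eq T k j hj.le, Nat.sub_sub]
    field_simp
  have h3 : (∑ j ∈ Finset.range T, qq k j * (pp (n - (k + j)) / pp n - 1)) -
      (1 - ∑ j ∈ Finset.range T, qq k j) ≤ RR n k - 1 := by
    have e : ∑ j ∈ Finset.range T, qq k j * (pp (n - (k + j)) / pp n - 1) =
        (∑ j ∈ Finset.range T, qq k j * (pp (n - (k + j)) / pp n)) -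
        ∑ j ∈ Finset.range T, qq k j := by
      rw [← Finset.sum_sub_distrib]
      exact Finset.sum_congr rfl fun j _ => by ring
    rw [e]
    linarith
  calc _ = (n : ℝ) * ((∑ j ∈ Finset.range T, qq k j * (pp (n - (k + j)) / pp n - 1)) -
      (1 - ∑ j ∈ Finset.range T, qq k j)) := by
        rw [mul_sub (n : ℝ) (∑ j ∈ Finset.range T, qq k j * (pp (n - (k + j)) / pp n - 1)),
          Finset.mul_sum]
        congr 1
        exact Finset.sum_congr rfl fun j _ => by ring
    _ ≤ _ := mul_le_mul_of_nonneg_left h3 (Nat.cast_nonneg n)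

theorem tail_bound (k T : ℕ) : (T : ℝ) * (1 - ∑ j ∈ Finset.range T, qq k j) ≤
    ∑' i : ℕ, ((i + T : ℕ) : ℝ) * qq k (i + T) := by
  have h1 := (summable_qq k).sum_add_tsum_nat_add T
  rw [tsum_qq] at h1
  have h2 : (1 : ℝ) - ∑ j ∈ Finset.range T, qq k j = ∑' i, qq k (i + T) := by linarith
  rw [h2, ← tsum_mul_left]
  refine Summable.tsum_le_tsum (fun i => ?_) ?_ ?_
  · refine mul_le_mul_of_nonneg_right ?_ (qq_nonneg _ _)
    push_cast
    have : (0 : ℝ) ≤ i := Nat.cast_nonneg i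
    linarith
  · exact ((summable_nat_add_iff T).2 (summable_qq k)).mul_left _
  · exact (summable_nat_add_iff (f := fun m : ℕ => (m : ℝ) * qq k m) T).2 (summable_iqq k)

/-- The expansion of the ratios. -/
theorem RR_exp (k : ℕ) (hk : 1 ≤ k) :
    Tendsto (fun n : ℕ => (n : ℝ) * (RR n k - 1)) atTop (𝓝 (3 * k * (1 + mu1))) := by
  have hk' : (1 : ℝ) ≤ k := by exact_mod_cast hk
  have hup : Tendsto (fun n : ℕ => ∑ j ∈ Finset.range (n - k - (n - k - 1) / (k + 1)),
      qq k j * ((n : ℝ) * (pp (n - (k + j)) / pp n - 1))) atTop (𝓝 (3 * k * (1 + mu1))) := by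
    refine tannery k _ ?_ (2 * (k + 1)) (by linarith) ?_
    · refine tendsto_atTop.2 fun b => ?_
      filter_upwards [eventually_ge_atTop (2 * b + k + 2)] with n hn
      have : (n - k - 1) / (k + 1) ≤ (n - k - 1) / 2 := Nat.div_le_div_left (by omega) (by omega)
      omega
    · filter_upwards [eventually_ge_atTop (2 * k + 2)] with n hn j hj
      have h0 := Nat.lt_mul_div_succ (n - k - 1) (show 0 < k + 1 by omega)
      obtain ⟨T, hT⟩ : ∃ T, T = (n - k - 1) / (k + 1) := ⟨_, rfl⟩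
      rw [← hT] at hj h0
      have h1 : k + j ≤ n := by omega
      refine ⟨h1, ?_⟩
      have h2 : T + 1 ≤ n - (k + j) := by omega
      have h3 : n ≤ 2 * (k + 1) * (n - (k + j)) := by
        calc n ≤ 2 * (n - k) := by omega
          _ ≤ 2 * ((k + 1) * (T + 1)) := by omega
          _ = 2 * (k + 1) * (T + 1) := by ring
          _ ≤ _ := Nat.mul_le_mul_left _ h2
      have h4 : ((n - (k + j) : ℕ) : ℝ) = (n : ℝ) - (k + j : ℕ) := Nat.cast_sub h1
      rw [← h4]
      exact_mod_cast h3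
  have hlow : Tendsto (fun n : ℕ => ∑ j ∈ Finset.range ((n - k) / 2),
      qq k j * ((n : ℝ) * (pp (n - (k + j)) / pp n - 1))) atTop (𝓝 (3 * k * (1 + mu1))) := by
    refine tannery k _ ?_ (2 * (k + 1)) (by linarith) ?_
    · refine tendsto_atTop.2 fun b => ?_
      filter_upwards [eventually_ge_atTop (2 * b + k + 2)] with n hn
      omega
    · filter_upwards [eventually_ge_atTop (2 * k + 2)] with n hn j hj
      have h1 : k + j ≤ n := by omega
      refine ⟨h1, ?_⟩
      have h3 : n ≤ 2 * (k + 1) * (n - (k + j)) := by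
        calc n ≤ 4 * (n - (k + j)) := by omega
          _ ≤ _ := Nat.mul_le_mul_right _ (by omega)
      have h4 : ((n - (k + j) : ℕ) : ℝ) = (n : ℝ) - (k + j : ℕ) := Nat.cast_sub h1
      rw [← h4]
      exact_mod_cast h3
  have htail : Tendsto (fun n : ℕ => (n : ℝ) * (1 - ∑ j ∈ Finset.range ((n - k) / 2), qq k j))
      atTop (𝓝 0) := by
    have h1 : Tendsto (fun T : ℕ => ∑' i : ℕ, ((i + T : ℕ) : ℝ) * qq k (i + T)) atTop (𝓝 0) :=
      tendsto_sum_nat_add (fun m : ℕ => (m : ℝ) * qq k m)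
    have h2 : Tendsto (fun n : ℕ => (n - k) / 2) atTop atTop := by
      refine tendsto_atTop.2 fun b => ?_
      filter_upwards [eventually_ge_atTop (2 * b + k + 2)] with n hn
      omega
    have h3 := (h1.comp h2).const_mul 8
    rw [mul_zero] at h3
    refine tendsto_of_tendsto_of_tendsto_of_le_of_le' tendsto_const_nhds h3 ?_ ?_
    · refine Eventually.of_forall fun n => ?_
      exact mul_nonneg (Nat.cast_nonneg n) (sub_nonneg.2 (sum_qq_le k _))
    · filter_upwards [eventually_ge_atTop (2 * k + 8)] with n hn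
      have h4 := tail_bound k ((n - k) / 2)
      have h5 : (n : ℝ) ≤ 8 * ((n - k) / 2 : ℕ) := by
        have : n ≤ 8 * ((n - k) / 2) := by omega
        exact_mod_cast this
      have h6 : 0 ≤ 1 - ∑ j ∈ Finset.range ((n - k) / 2), qq k j := sub_nonneg.2 (sum_qq_le k _)
      calc (n : ℝ) * (1 - ∑ j ∈ Finset.range ((n - k) / 2), qq k j)
          ≤ 8 * ((n - k) / 2 : ℕ) * (1 - ∑ j ∈ Finset.range ((n - k) / 2), qq k j) :=
            mul_le_mul_of_nonneg_right h5 h6
        _ = 8 * (((n - k) / 2 : ℕ) * (1 - ∑ j ∈ Finset.range ((n - k) / 2), qq k j)) := by ring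
        _ ≤ _ := mul_le_mul_of_nonneg_left h4 (by norm_num)
  have hlow' := hlow.sub htail
  rw [sub_zero] at hlow'
  refine tendsto_of_tendsto_of_tendsto_of_le_of_le' hlow' hup ?_ ?_
  · refine Eventually.of_forall fun n => ?_
    exact RR_exp_low (by omega)
  · filter_upwards [eventually_ge_atTop (2 * k + 2)] with n hn
    refine RR_exp_up ?_
    have := Nat.mul_div_le (n - k - 1) (k + 1)
    omega

end Pool.Agent.R967.Mea
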