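import Pool.Agent.R967.Mea.Ser

/-!
One big jump: inequalities for the laws of the sums.
-/

set_option autoImplicit false

namespace Pool.Agent.R967.Mea

open Finset Filter Topology

/-- Power series with non-negative coefficients. -/
def Nn (f : PowerSeries ℝ) : Prop := ∀ n, 0 ≤ PowerSeries.coeff n f

theorem Nn.add {f g : PowerSeries ℝ} (hf : Nn f) (hg : Nn g) : Nn (f + g) := fun n => by
  rw [map_add]
  exact add_nonneg (hf n) (hg n)

theorem Nn.mul {f g : PowerSeries ℝ} (hf : Nn f) (hg : Nn g) : Nn (f * g) := fun n => by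
  rw [PowerSeries.coeff_mul]
  exact Finset.sum_nonneg fun p _ => mul_nonneg (hf _) (hg _)

theorem Nn_one : Nn 1 := fun n => by
  rw [PowerSeries.coeff_one]
  split_ifs <;> norm_num

theorem Nn_natCast (k : ℕ) : Nn (k : PowerSeries ℝ) := by
  induction k with
  | zero => intro n; simp
  | succ k ih =>
    rw [Nat.cast_succ]
    exact ih.add Nn_one

theorem Nn.pow {f : PowerSeries ℝ} (hf : Nn f) (k : ℕ) : Nn (f ^ k) := by
  induction k with
  | zero => rw [pow_zero]; exact Nn_one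
  | succ k ih => rw [pow_succ]; exact ih.mul hf

theorem Nn_pow_sub {A B : PowerSeries ℝ} (hB : Nn B) (hD : Nn (A - B)) (k : ℕ) :
    Nn (A ^ k - B ^ k) := by
  have hA : Nn A := by
    have := hD.add hB
    rwa [sub_add_cancel] at this
  induction k with
  | zero => intro n; simp
  | succ k ih =>
    have e : A ^ (k + 1) - B ^ (k + 1) = A * (A ^ k - B ^ k) + (A - B) * B ^ k := by ring
    rw [e]
    exact (hA.mul ih).add (hD.mul (hB.pow k))

theorem Nn_upper {A B : PowerSeries ℝ} (hB : Nn B) (hD : Nn (A - B)) (k : ℕ) :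
    Nn (B ^ (k + 1) + (k + 1 : ℕ) * (A ^ k * (A - B)) - A ^ (k + 1)) := by
  have hA : Nn A := by
    have := hD.add hB
    rwa [sub_add_cancel] at this
  induction k with
  | zero => intro n; simp
  | succ k ih =>
    have e : B ^ (k + 1 + 1) + (k + 1 + 1 : ℕ) * (A ^ (k + 1) * (A - B)) - A ^ (k + 1 + 1) =
        A * (B ^ (k + 1) + (k + 1 : ℕ) * (A ^ k * (A - B)) - A ^ (k + 1)) +
        (A - B) * (A ^ (k + 1) - B ^ (k + 1)) := by
      push_cast
      ring
    rw [e]
    exact (hA.mul ih).add (hD.mul (Nn_pow_sub hB hD _))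

theorem Nn_lower {A B : PowerSeries ℝ} (hB : Nn B) (hD : Nn (A - B)) (k : ℕ) :
    Nn (A ^ (k + 1) - B ^ (k + 1) - (k + 1 : ℕ) * (B ^ k * (A - B))) := by
  induction k with
  | zero => intro n; simp
  | succ k ih =>
    have e : A ^ (k + 1 + 1) - B ^ (k + 1 + 1) - (k + 1 + 1 : ℕ) * (B ^ (k + 1) * (A - B)) =
        B * (A ^ (k + 1) - B ^ (k + 1) - (k + 1 : ℕ) * (B ^ k * (A - B))) +
        (A - B) * (A ^ (k + 1) - B ^ (k + 1)) := by
      push_cast
      ring
    rw [e]
    exact (hB.mul ih).add (hD.mul (Nn_pow_sub hB hD _))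

/-- Truncation. -/
noncomputable def tB (T : ℕ) : PowerSeries ℝ := PowerSeries.mk (fun i => if i ≤ T then pp i else 0)

/-- The law of the sum of truncated variables. -/
noncomputable def qT (T k m : ℕ) : ℝ := PowerSeries.coeff m (tB T ^ k)

theorem Nn_tB (T : ℕ) : Nn (tB T) := fun n => by
  simp only [tB, PowerSeries.coeff_mk]
  split_ifs
  · exact (pp_pos n).le
  · exact le_rfl

theorem Nn_pS : Nn pS := fun n => by
  simp only [pS, PowerSeries.coeff_mk]
  exact (pp_pos n).le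

theorem coeff_D (T n : ℕ) : PowerSeries.coeff n (pS - tB T) = if n ≤ T then 0 else pp n := by
  simp only [pS, tB, map_sub, PowerSeries.coeff_mk]
  split_ifs <;> simp

theorem Nn_D (T : ℕ) : Nn (pS - tB T) := fun n => by
  rw [coeff_D]
  split_ifs
  · exact le_rfl
  · exact (pp_pos n).le

theorem qq_nonneg (k m : ℕ) : 0 ≤ qq k m := (Nn_pS.pow k) m

theorem qT_nonneg (T k m : ℕ) : 0 ≤ qT T k m := ((Nn_tB T).pow k) m

theorem qT_le (T k m : ℕ) : qT T k m ≤ qq k m := by
  have := Nn_pow_sub (Nn_tB T) (Nn_D T) k m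
  rw [map_sub] at this
  unfold qT qq
  linarith

theorem qT_zero_of_lt (T k : ℕ) : ∀ m, k * T < m → qT T k m = 0 := by
  induction k with
  | zero =>
    intro m hm
    unfold qT
    rw [pow_zero, PowerSeries.coeff_one, if_neg (by omega)]
  | succ k ih =>
    intro m hm
    unfold qT at ih ⊢
    rw [pow_succ', PowerSeries.coeff_mul]
    refine Finset.sum_eq_zero fun p hp => ?_
    rw [Finset.HasAntidiagonal.mem_antidiagonal] at hp
    by_cases h : p.1 ≤ T
    · have h2 : k * T < p.2 := by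
        have : (k + 1) * T = k * T + T := by ring
        omega
      rw [ih p.2 h2, mul_zero]
    · simp only [tB, PowerSeries.coeff_mk, if_neg h, zero_mul]

theorem qT_eq (T k : ℕ) : ∀ m, m ≤ T → qT T k m = qq k m := by
  induction k with
  | zero => intro m _; rfl
  | succ k ih =>
    intro m hm
    unfold qT qq at ih ⊢
    rw [pow_succ', pow_succ', PowerSeries.coeff_mul, PowerSeries.coeff_mul]
    refine Finset.sum_congr rfl fun p hp => ?_
    rw [Finset.HasAntidiagonal.mem_antidiagonal] at hp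
    rw [ih p.2 (by omega)]
    simp only [tB, pS, PowerSeries.coeff_mk, if_pos (show p.1 ≤ T by omega)]

theorem coeff_mul_D (f : PowerSeries ℝ) (T m : ℕ) :
    PowerSeries.coeff m (f * (pS - tB T)) =
      ∑ j ∈ Finset.range (m - T), PowerSeries.coeff j f * pp (m - j) := by
  rw [PowerSeries.coeff_mul, Finset.Nat.sum_antidiagonal_eq_sum_range_succ
    (fun i l => PowerSeries.coeff i f * PowerSeries.coeff l (pS - tB T))]
  have hsub : Finset.range (m - T) ⊆ Finset.range (m + 1) := by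
    intro x hx
    rw [Finset.mem_range] at hx ⊢
    omega
  rw [← Finset.sum_subset hsub]
  · refine Finset.sum_congr rfl fun j hj => ?_
    rw [Finset.mem_range] at hj
    rw [coeff_D, if_neg (by omega)]
  · intro j hj hj'
    rw [Finset.mem_range] at hj hj'
    rw [coeff_D, if_pos (by omega), mul_zero]

/-- The upper inequality. -/
theorem qq_upper {k T m : ℕ} (h : (k + 1) * T < m) :
    qq (k + 1) m ≤ (k + 1) * ∑ j ∈ Finset.range (m - T), qq k j * pp (m - j) := by
  have h1 := Nn_upper (Nn_tB T) (Nn_D T) k m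
  rw [map_sub, map_add] at h1
  have h2 : PowerSeries.coeff m (tB T ^ (k + 1)) = 0 := qT_zero_of_lt T (k + 1) m h
  have h3 : PowerSeries.coeff m (((k + 1 : ℕ) : PowerSeries ℝ) * (pS ^ k * (pS - tB T))) =
      (k + 1) * ∑ j ∈ Finset.range (m - T), qq k j * pp (m - j) := by
    have : (((k + 1 : ℕ) : PowerSeries ℝ)) = PowerSeries.C ((k + 1 : ℕ) : ℝ) := by
      rw [map_natCast]
    rw [this, PowerSeries.coeff_C_mul, coeff_mul_D]
    push_cast
    rfl
  rw [h2, h3] at h1
  unfold qq at h1 ⊢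
  linarith

/-- The lower inequality. -/
theorem qq_lower (k T m : ℕ) :
    (k + 1) * ∑ j ∈ Finset.range (m - T), qT T k j * pp (m - j) ≤ qq (k + 1) m := by
  have h1 := Nn_lower (Nn_tB T) (Nn_D T) k m
  rw [map_sub, map_sub] at h1
  have h2 : 0 ≤ PowerSeries.coeff m (tB T ^ (k + 1)) := qT_nonneg T (k + 1) m
  have h3 : PowerSeries.coeff m (((k + 1 : ℕ) : PowerSeries ℝ) * (tB T ^ k * (pS - tB T))) =
      (k + 1) * ∑ j ∈ Finset.range (m - T), qT T k j * pp (m - j) := by
    have : (((k + 1 : ℕ) : PowerSeries ℝ)) = PowerSeries.C ((k + 1 : ℕ) : ℝ) := by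
      rw [map_natCast]
    rw [this, PowerSeries.coeff_C_mul, coeff_mul_D]
    push_cast
    rfl
  rw [h3] at h1
  unfold qq
  linarith

/-! ### Sums -/

theorem sum_coeff_mul (f g : PowerSeries ℝ) (M : ℕ) :
    ∑ m ∈ Finset.range M, PowerSeries.coeff m (f * g) =
      ∑ i ∈ Finset.range M, ∑ l ∈ Finset.range (M - i),
        PowerSeries.coeff i f * PowerSeries.coeff l g := by
  rw [← Finset.sum_range_diag_flip]
  refine Finset.sum_congr rfl fun m _ => ?_
  rw [PowerSeries.coeff_mul, Finset.Nat.sum_antidiagonal_eq_sum_range_succ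
    (fun i l => PowerSeries.coeff i f * PowerSeries.coeff l g)]

theorem sum_coeff_mul' (f g : PowerSeries ℝ) (M : ℕ) :
    ∑ m ∈ Finset.range M, (m : ℝ) * PowerSeries.coeff m (f * g) =
      ∑ i ∈ Finset.range M, ∑ l ∈ Finset.range (M - i),
        ((i : ℝ) + l) * (PowerSeries.coeff i f * PowerSeries.coeff l g) := by
  rw [← Finset.sum_range_diag_flip M (fun i l => ((i : ℝ) + l) *
    (PowerSeries.coeff i f * PowerSeries.coeff l g))]
  refine Finset.sum_congr rfl fun m _ => ?_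
  rw [PowerSeries.coeff_mul, Finset.Nat.sum_antidiagonal_eq_sum_range_succ
    (fun i l => PowerSeries.coeff i f * PowerSeries.coeff l g), Finset.mul_sum]
  refine Finset.sum_congr rfl fun i hi => ?_
  rw [Finset.mem_range] at hi
  have : (i : ℝ) + ((m - i : ℕ) : ℝ) = m := by
    rw [← Nat.cast_add]
    congr 1
    omega
  rw [this]

theorem sum_pp_le (M : ℕ) : ∑ i ∈ Finset.range M, pp i ≤ 1 :=
  sum_le_hasSum _ (fun i _ => (pp_pos i).le) hasSum_pp

theorem sum_qq_le (k : ℕ) : ∀ M, ∑ m ∈ Finset.range M, qq k m ≤ 1 := by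
  induction k with
  | zero =>
    intro M
    unfold qq
    simp only [pow_zero, PowerSeries.coeff_one]
    rw [Finset.sum_ite_eq']
    split_ifs <;> norm_num
  | succ k ih =>
    intro M
    unfold qq at ih ⊢
    rw [pow_succ']
    rw [sum_coeff_mul]
    calc ∑ i ∈ Finset.range M, ∑ l ∈ Finset.range (M - i),
        PowerSeries.coeff i pS * PowerSeries.coeff l (pS ^ k)
        = ∑ i ∈ Finset.range M, pp i * ∑ l ∈ Finset.range (M - i),
            PowerSeries.coeff l (pS ^ k) := by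
          refine Finset.sum_congr rfl fun i _ => ?_
          rw [Finset.mul_sum]
          simp [pS]
      _ ≤ ∑ i ∈ Finset.range M, pp i * 1 := by
          refine Finset.sum_le_sum fun i _ => ?_
          exact mul_le_mul_of_nonneg_left (ih _) (pp_pos i).le
      _ ≤ 1 := by
          simp only [mul_one]
          exact sum_pp_le M

theorem sum_inv_sq (M : ℕ) :
    ∑ i ∈ Finset.range (M + 1), 1 / ((i : ℝ) + 1) ^ 2 ≤ 2 - 1 / ((M : ℝ) + 1) := by
  induction M with
  | zero => norm_num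
  | succ M ih =>
    rw [Finset.sum_range_succ]
    push_cast
    have hM : (0 : ℝ) ≤ M := Nat.cast_nonneg M
    have h : 1 / ((M : ℝ) + 1 + 1) ^ 2 ≤ 1 / ((M : ℝ) + 1) - 1 / ((M : ℝ) + 1 + 1) := by
      have h2 : 1 / ((M : ℝ) + 1) - 1 / ((M : ℝ) + 1 + 1) = 1 / (((M : ℝ) + 1) * ((M : ℝ) + 1 + 1)) := by
        field_simp
        ring
      rw [h2]
      apply one_div_le_one_div_of_le (by positivity)
      nlinarith
    linarith

theorem sum_inv_sq' (M : ℕ) : ∑ i ∈ Finset.range M, 1 / ((i : ℝ) + 1) ^ 2 ≤ 2 := by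
  rcases M with _ | M
  · norm_num
  · refine (sum_inv_sq M).trans ?_
    have : 0 ≤ 1 / ((M : ℝ) + 1) := by positivity
    linarith

theorem sum_ipp_le (M : ℕ) : ∑ i ∈ Finset.range M, (i : ℝ) * pp i ≤ 2 := by
  refine le_trans (Finset.sum_le_sum fun i _ => ?_) (sum_inv_sq' M)
  have hi : (0 : ℝ) ≤ i := Nat.cast_nonneg i
  calc (i : ℝ) * pp i ≤ i * (1 / ((i : ℝ) + 1) ^ 3) := mul_le_mul_of_nonneg_left (pp_le i) hi
    _ ≤ ((i : ℝ) + 1) * (1 / ((i : ℝ) + 1) ^ 3) := by
        refine mul_le_mul_of_nonneg_right (by linarith) (by positivity)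
    _ = 1 / ((i : ℝ) + 1) ^ 2 := by
        field_simp

theorem sum_iqq_le (k : ℕ) : ∀ M, ∑ m ∈ Finset.range M, (m : ℝ) * qq k m ≤ 2 * k := by
  induction k with
  | zero =>
    intro M
    unfold qq
    simp [PowerSeries.coeff_one]
  | succ k ih =>
    intro M
    have e : ∑ m ∈ Finset.range M, (m : ℝ) * qq (k + 1) m =
        ∑ i ∈ Finset.range M, ((i * pp i) * ∑ l ∈ Finset.range (M - i), qq k l +
          pp i * ∑ l ∈ Finset.range (M - i), (l : ℝ) * qq k l) := by
      unfold qq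
      rw [pow_succ']
      rw [sum_coeff_mul']
      refine Finset.sum_congr rfl fun i _ => ?_
      rw [Finset.mul_sum, Finset.mul_sum, ← Finset.sum_add_distrib]
      refine Finset.sum_congr rfl fun l _ => ?_
      simp only [pS, PowerSeries.coeff_mk]
      ring
    rw [e]
    calc ∑ i ∈ Finset.range M, ((i * pp i) * ∑ l ∈ Finset.range (M - i), qq k l +
          pp i * ∑ l ∈ Finset.range (M - i), (l : ℝ) * qq k l)
        ≤ ∑ i ∈ Finset.range M, ((i * pp i) * 1 + pp i * (2 * k)) := by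
          refine Finset.sum_le_sum fun i _ => add_le_add ?_ ?_
          · exact mul_le_mul_of_nonneg_left (sum_qq_le k _)
              (mul_nonneg (Nat.cast_nonneg i) (pp_pos i).le)
          · exact mul_le_mul_of_nonneg_left (ih _) (pp_pos i).le
      _ = ∑ i ∈ Finset.range M, (i : ℝ) * pp i + (∑ i ∈ Finset.range M, pp i) * (2 * k) := by
          rw [Finset.sum_add_distrib, Finset.sum_mul]
          simp
      _ ≤ 2 + 1 * (2 * k) := by
          refine add_le_add (sum_ipp_le M) ?_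
          exact mul_le_mul_of_nonneg_right (sum_pp_le M) (by positivity)
      _ = 2 * ((k + 1 : ℕ) : ℝ) := by push_cast; ring

theorem qq_le_one (k m : ℕ) : qq k m ≤ 1 := by
  have h := sum_qq_le k (m + 1)
  rw [Finset.sum_range_succ] at h
  have : 0 ≤ ∑ i ∈ Finset.range m, qq k i := Finset.sum_nonneg fun i _ => qq_nonneg k i
  linarith

theorem tail_pp (T d : ℕ) : ∑ i ∈ Finset.range d, pp (T + 1 + i) ≤
    1 / 2 * (1 / ((T : ℝ) + 1) ^ 2 - 1 / ((T : ℝ) + 1 + d) ^ 2) := by
  induction d with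
  | zero => simp
  | succ d ih =>
    rw [Finset.sum_range_succ]
    have h1 := pp_le (T + 1 + d)
    push_cast at h1 ⊢
    have hu : (0 : ℝ) < (T : ℝ) + 1 + d := by positivity
    obtain ⟨u, hu'⟩ : ∃ u : ℝ, u = (T : ℝ) + 1 + d := ⟨_, rfl⟩
    rw [← hu'] at h1 hu ih
    have e2 : (T : ℝ) + 1 + (d + 1) = u + 1 := by rw [hu']; ring
    rw [e2]
    have h2 : 1 / (u + 1) ^ 3 ≤ 1 / 2 * (1 / u ^ 2 - 1 / (u + 1) ^ 2) := by
      rw [div_sub_div _ _ (by positivity) (by positivity), div_mul_div_comm,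
        div_le_div_iff₀ (by positivity) (by positivity)]
      have : 0 < u ^ 2 := by positivity
      nlinarith [mul_pos this hu, mul_pos this this, mul_pos hu hu]
    linarith

theorem tail_pp' (T d : ℕ) : ∑ i ∈ Finset.range d, pp (T + 1 + i) ≤ 1 / (2 * ((T : ℝ) + 1) ^ 2) := by
  refine (tail_pp T d).trans ?_
  have : 0 ≤ 1 / ((T : ℝ) + 1 + d) ^ 2 := by positivity
  have e : 1 / (2 * ((T : ℝ) + 1) ^ 2) = 1 / 2 * (1 / ((T : ℝ) + 1) ^ 2) := by
    field_simp
  rw [e]
  linarith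

theorem tail_refl (T m : ℕ) : ∑ j ∈ Finset.range (m - T), pp (m - j) ≤
    1 / (2 * ((T : ℝ) + 1) ^ 2) := by
  refine le_trans (le_of_eq ?_) (tail_pp' T (m - T))
  rw [← Finset.sum_range_reflect]
  refine Finset.sum_congr rfl fun j hj => ?_
  rw [Finset.mem_range] at hj
  congr 1
  omega

/-- Two values which are both large. -/
theorem qq_bound (r : ℕ) : ∀ Λ c : ℝ, 1 ≤ Λ → 0 < c → ∃ C : ℝ, 0 ≤ C ∧
    ∀ x : ℝ, 1 ≤ x → ∀ k : ℕ, (k : ℝ) ≤ Λ * x → ∀ j : ℕ, c * x ^ 2 ≤ j →
      qq k j ≤ C * (1 / x ^ 5 + 1 / x ^ r) := by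
  induction r with
  | zero =>
    intro Λ c hΛ hc
    refine ⟨1, zero_le_one, fun x hx k _ j _ => ?_⟩
    rw [pow_zero, one_mul]
    have : 0 ≤ 1 / x ^ 5 := by positivity
    have := qq_le_one k j
    linarith
  | succ r ih =>
    intro Λ c hΛ hc
    obtain ⟨C', hC', h'⟩ := ih Λ (c / 2) hΛ (by positivity)
    refine ⟨8 * Λ / c ^ 3 + C' * Λ ^ 3 / (2 * c ^ 2), by positivity, fun x hx k hk j hj => ?_⟩
    have hx0 : 0 < x := by linarith
    have hj0 : (0 : ℝ) < j := lt_of_lt_of_le (by positivity) hj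
    have hj1 : 1 ≤ j := by exact_mod_cast hj0
    rcases k with _ | k
    · have : qq 0 j = 0 := by
        unfold qq
        rw [pow_zero, PowerSeries.coeff_one, if_neg (by omega)]
      rw [this]
      positivity
    · obtain ⟨T, hT⟩ : ∃ T, T = (j - 1) / (k + 1) := ⟨_, rfl⟩
      have hT1 : (k + 1) * T < j := by
        have := Nat.mul_div_le (j - 1) (k + 1)
        rw [← hT] at this
        omega
      have hT2 : (j : ℝ) ≤ ((k : ℝ) + 1) * ((T : ℝ) + 1) := by
        have := Nat.lt_mul_div_succ (j - 1) (Nat.succ_pos k)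
        rw [Nat.succ_eq_add_one, ← hT] at this
        have h2 : j ≤ (k + 1) * (T + 1) := by omega
        exact_mod_cast h2
      obtain ⟨w, hw⟩ : ∃ w : ℝ, w = 1 / x ^ 5 + 1 / x ^ r := ⟨_, rfl⟩
      have hw0 : 0 ≤ w := by rw [hw]; positivity
      have hk0 : (0 : ℝ) ≤ k := Nat.cast_nonneg k
      have hk1 : (k : ℝ) + 1 ≤ Λ * x := by push_cast at hk; exact hk
      have hterm : ∀ i ∈ Finset.range (j - T), qq k i * pp (j - i) ≤
          qq k i * (8 / (j : ℝ) ^ 3) + C' * w * pp (j - i) := by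
        intro i hi
        rw [Finset.mem_range] at hi
        have hij : i ≤ j := by omega
        rcases Nat.lt_or_ge j (2 * i) with h2 | h2
        · have h3 : c / 2 * x ^ 2 ≤ i := by
            have : (j : ℝ) < 2 * i := by exact_mod_cast h2
            linarith
          have h4 := h' x hx k (by linarith) i h3
          rw [← hw] at h4
          have h5 : qq k i * pp (j - i) ≤ C' * w * pp (j - i) :=
            mul_le_mul_of_nonneg_right h4 (pp_pos _).le
          have h6 : 0 ≤ qq k i * (8 / (j : ℝ) ^ 3) := mul_nonneg (qq_nonneg k i) (by positivity)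
          linarith
        · have h3 : pp (j - i) ≤ 8 / (j : ℝ) ^ 3 := by
            refine (pp_le _).trans ?_
            rw [Nat.cast_sub hij, div_le_div_iff₀ ?_ (by positivity)]
            · have h4 : 2 * (i : ℝ) ≤ j := by exact_mod_cast h2
              have h5 : (j : ℝ) ≤ 2 * ((j : ℝ) - i + 1) := by linarith
              calc 1 * (j : ℝ) ^ 3 ≤ (2 * ((j : ℝ) - i + 1)) ^ 3 := by
                    rw [one_mul]
                    exact pow_le_pow_left₀ hj0.le h5 3
                _ = 8 * ((j : ℝ) - i + 1) ^ 3 := by ring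
            · have h4 : (i : ℝ) ≤ j := by exact_mod_cast hij
              have : (0 : ℝ) < (j : ℝ) - i + 1 := by linarith
              positivity
          have h5 : qq k i * pp (j - i) ≤ qq k i * (8 / (j : ℝ) ^ 3) :=
            mul_le_mul_of_nonneg_left h3 (qq_nonneg k i)
          have h6 : 0 ≤ C' * w * pp (j - i) := mul_nonneg (mul_nonneg hC' hw0) (pp_pos _).le
          linarith
      have hsum : ∑ i ∈ Finset.range (j - T), qq k i * pp (j - i) ≤
          8 / (j : ℝ) ^ 3 + C' * w * (1 / (2 * ((T : ℝ) + 1) ^ 2)) := by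
        refine (Finset.sum_le_sum hterm).trans ?_
        rw [Finset.sum_add_distrib, ← Finset.sum_mul, ← Finset.mul_sum]
        refine add_le_add ?_ ?_
        · have := mul_le_mul_of_nonneg_right (sum_qq_le k (j - T))
            (show (0:ℝ) ≤ 8 / (j : ℝ) ^ 3 by positivity)
          linarith
        · exact mul_le_mul_of_nonneg_left (tail_refl T j) (mul_nonneg hC' hw0)
      have h1 := qq_upper hT1
      refine h1.trans ?_
      refine (mul_le_mul_of_nonneg_left hsum (by positivity)).trans ?_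
      rw [mul_add]
      have hcx : 0 < c * x ^ 2 := by positivity
      have a1 : ((k : ℝ) + 1) * (8 / (j : ℝ) ^ 3) ≤ 8 * Λ / c ^ 3 * (1 / x ^ 5) := by
        have : 8 / (j : ℝ) ^ 3 ≤ 8 / (c * x ^ 2) ^ 3 := by
          apply div_le_div_of_nonneg_left (by norm_num) (by positivity)
          exact pow_le_pow_left₀ hcx.le hj 3
        calc ((k : ℝ) + 1) * (8 / (j : ℝ) ^ 3) ≤ (Λ * x) * (8 / (c * x ^ 2) ^ 3) :=
              mul_le_mul hk1 this (by positivity) (by positivity)
          _ = 8 * Λ / c ^ 3 * (1 / x ^ 5) := by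
              field_simp
      have a2 : ((k : ℝ) + 1) * (C' * w * (1 / (2 * ((T : ℝ) + 1) ^ 2))) ≤
          C' * Λ ^ 3 / (2 * c ^ 2) * (w / x) := by
        have hT0 : (0 : ℝ) < (T : ℝ) + 1 := by positivity
        have b1 : 1 / ((T : ℝ) + 1) ≤ (Λ * x) / (c * x ^ 2) := by
          rw [div_le_div_iff₀ hT0 hcx]
          calc 1 * (c * x ^ 2) ≤ j := by linarith
            _ ≤ ((k : ℝ) + 1) * ((T : ℝ) + 1) := hT2
            _ ≤ Λ * x * ((T : ℝ) + 1) := mul_le_mul_of_nonneg_right hk1 hT0.le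
        have b2 : 1 / (2 * ((T : ℝ) + 1) ^ 2) ≤ 1 / 2 * ((Λ * x) / (c * x ^ 2)) ^ 2 := by
          have e1 : 1 / (2 * ((T : ℝ) + 1) ^ 2) = 1 / 2 * (1 / ((T : ℝ) + 1)) ^ 2 := by
            field_simp
          rw [e1]
          refine mul_le_mul_of_nonneg_left ?_ (by norm_num)
          exact pow_le_pow_left₀ (by positivity) b1 2
        calc ((k : ℝ) + 1) * (C' * w * (1 / (2 * ((T : ℝ) + 1) ^ 2)))
            ≤ (Λ * x) * (C' * w * (1 / 2 * ((Λ * x) / (c * x ^ 2)) ^ 2)) := by
              refine mul_le_mul hk1 ?_ (by positivity) (by positivity)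
              exact mul_le_mul_of_nonneg_left b2 (mul_nonneg hC' hw0)
          _ = C' * Λ ^ 3 / (2 * c ^ 2) * (w / x) := by
              field_simp
      have a3 : w / x ≤ 1 / x ^ 5 + 1 / x ^ (r + 1) := by
        rw [hw, add_div, div_div, div_div, ← pow_succ, ← pow_succ]
        refine add_le_add ?_ le_rfl
        exact one_div_le_one_div_of_le (by positivity) (pow_le_pow_right₀ hx (by norm_num))
      have a4 : C' * Λ ^ 3 / (2 * c ^ 2) * (w / x) ≤
          C' * Λ ^ 3 / (2 * c ^ 2) * (1 / x ^ 5 + 1 / x ^ (r + 1)) :=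
        mul_le_mul_of_nonneg_left a3 (by positivity)
      have a5 : 8 * Λ / c ^ 3 * (1 / x ^ 5) ≤ 8 * Λ / c ^ 3 * (1 / x ^ 5 + 1 / x ^ (r + 1)) := by
        refine mul_le_mul_of_nonneg_left ?_ (by positivity)
        have : 0 ≤ 1 / x ^ (r + 1) := by positivity
        linarith
      rw [add_mul]
      linarith

/-! ### The ratio of the probabilities -/

theorem pp_ratio {n i : ℕ} (hi : i ≤ n) :
    pp (n - i) * (4 * ((n : ℝ) - i) + 1) ^ 3 ≤ pp n * (4 * (n : ℝ) + 1) ^ 3 := by
  have h := bT_mono (Nat.sub_le n i)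
  unfold bT at h
  rw [Nat.cast_sub hi] at h
  have hin : (i : ℝ) ≤ n := by exact_mod_cast hi
  have h0 : (0 : ℝ) ≤ i := Nat.cast_nonneg i
  obtain ⟨y, hy⟩ : ∃ y : ℝ, y = (n : ℝ) - i := ⟨_, rfl⟩
  rw [← hy] at h ⊢
  have hy0 : 0 ≤ y := by rw [hy]; linarith
  have hyn : y ≤ n := by rw [hy]; linarith
  have hn0 : (0 : ℝ) ≤ n := Nat.cast_nonneg n
  have h1 := bb_pos (n - i)
  have h2 := bb_pos n
  -- (4 y + 1) (n + 1) ≤ (4 n + 1) (y + 1)
  have h3 : (4 * y + 1) * ((n : ℝ) + 1) ≤ (4 * (n : ℝ) + 1) * (y + 1) := by nlinarith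
  have h4 : ((4 * y + 1) * ((n : ℝ) + 1)) ^ 2 ≤ ((4 * (n : ℝ) + 1) * (y + 1)) ^ 2 :=
    pow_le_pow_left₀ (by positivity) h3 2
  have h5 : bb (n - i) * (4 * y + 1) ^ 3 ≤ bb n * (4 * (n : ℝ) + 1) ^ 3 := by
    have p1 : 0 < (y + 1) ^ 2 := by positivity
    have h6 : bb (n - i) * (4 * y + 1) ^ 3 * (y + 1) ^ 2 ≤ bb n * (4 * (n : ℝ) + 1) ^ 3 * (y + 1) ^ 2 := by
      have e1 : bb (n - i) * (4 * y + 1) ^ 3 * (y + 1) ^ 2 =
          (bb (n - i) * ((y + 1) ^ 2 * (16 * y + 4))) * ((4 * y + 1) ^ 2 / 4) := by ring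
      rw [e1]
      calc (bb (n - i) * ((y + 1) ^ 2 * (16 * y + 4))) * ((4 * y + 1) ^ 2 / 4)
          ≤ (bb n * (((n : ℝ) + 1) ^ 2 * (16 * (n : ℝ) + 4))) * ((4 * y + 1) ^ 2 / 4) :=
            mul_le_mul_of_nonneg_right h (by positivity)
        _ = (bb n * (4 * (n : ℝ) + 1)) * ((4 * y + 1) * ((n : ℝ) + 1)) ^ 2 := by ring
        _ ≤ (bb n * (4 * (n : ℝ) + 1)) * ((4 * (n : ℝ) + 1) * (y + 1)) ^ 2 :=
            mul_le_mul_of_nonneg_left h4 (by positivity)
        _ = _ := by ring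
    exact le_of_mul_le_mul_right h6 p1
  have hg := gg_pos
  unfold pp
  rw [div_mul_eq_mul_div, div_mul_eq_mul_div]
  exact div_le_div_of_nonneg_right h5 hg.le

end Pool.Agent.R967.Mea
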