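import Pool.Agent.R967.Mea.Mgf
import Pool.Agent.R967.Mea.Conv

/-!
The law of the normalised number of common arcs.
-/

set_option autoImplicit false

namespace Pool.Agent.R967.Mea

open MeasureTheory ProbabilityTheory Filter Topology
open scoped NNReal ENNReal

/-! ### continuity of distribution functions -/

theorem continuous_Iic (μ : Measure ℝ) [IsProbabilityMeasure μ] [NullSingletonClass μ] :
    Continuous (fun x => μ.real (Set.Iic x)) := by
  have e : (fun x => μ.real (Set.Iic x)) = cdf μ := by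
    funext x
    rw [cdf_eq_real]
  rw [e, continuous_iff_continuousAt]
  intro x
  rw [(monotone_cdf μ).continuousAt_iff_leftLim_eq_rightLim, StieltjesFunction.rightLim_eq]
  have h1 := (cdf μ).measure_singleton x
  rw [measure_cdf, measure_singleton] at h1
  have h2 := ENNReal.ofReal_eq_zero.1 h1.symm
  have h3 := (monotone_cdf μ).leftLim_le (le_refl x)
  linarith

/-- Convergence along moving thresholds. -/
theorem tendsto_moving {F : ℕ → ℝ → ℝ} {G : ℝ → ℝ} (hmono : ∀ n, Monotone (F n))
    (hG : Continuous G) (hF : ∀ x, Tendsto (fun n => F n x) atTop (𝓝 (G x))) {x : ℕ → ℝ} {y : ℝ}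
    (hx : Tendsto x atTop (𝓝 y)) : Tendsto (fun n => F n (x n)) atTop (𝓝 (G y)) := by
  rw [Metric.tendsto_atTop]
  intro ε hε
  obtain ⟨δ, hδ, hδ'⟩ := Metric.continuousAt_iff.1 (hG.continuousAt (x := y)) (ε / 2) (by positivity)
  have h1 := hδ' (x := y - δ / 2) (by rw [Real.dist_eq, abs_lt]; constructor <;> linarith)
  have h2 := hδ' (x := y + δ / 2) (by rw [Real.dist_eq, abs_lt]; constructor <;> linarith)
  rw [Real.dist_eq, abs_lt] at h1 h2
  obtain ⟨N1, hN1⟩ := Metric.tendsto_atTop.1 (hF (y - δ / 2)) (ε / 2) (by positivity)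
  obtain ⟨N2, hN2⟩ := Metric.tendsto_atTop.1 (hF (y + δ / 2)) (ε / 2) (by positivity)
  obtain ⟨N3, hN3⟩ := Metric.tendsto_atTop.1 hx (δ / 2) (by positivity)
  refine ⟨max N1 (max N2 N3), fun n hn => ?_⟩
  have a1 := hN1 n (le_trans (le_max_left _ _) hn)
  have a2 := hN2 n (le_trans (le_trans (le_max_left _ _) (le_max_right _ _)) hn)
  have a3 := hN3 n (le_trans (le_trans (le_max_right _ _) (le_max_right _ _)) hn)
  rw [Real.dist_eq, abs_lt] at a1 a2 a3 ⊢
  have b1 := hmono n (show y - δ / 2 ≤ x n by linarith)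
  have b2 := hmono n (show x n ≤ y + δ / 2 by linarith)
  constructor <;> linarith

/-! ### the law -/

/-- The position of the normalised count. -/
noncomputable def pos (n : ℕ) (y : ℕ) : ℝ := ((y : ℝ) - 2 * aa * n) / √(n : ℝ)

/-- The law of the normalised count. -/
noncomputable def lawM (n : ℕ) : Measure ℝ :=
  ∑ p ∈ WW n, ENNReal.ofReal (1 / (catalan n : ℝ) ^ 2) • Measure.dirac (pos n (YY n p))

instance lawM_prob (n : ℕ) : IsProbabilityMeasure (lawM n) := by
  constructor
  unfold lawM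
  rw [Measure.finsetSum_apply]
  simp only [Measure.smul_apply, measure_univ, smul_eq_mul, mul_one, Finset.sum_const, nsmul_eq_mul]
  rw [← ENNReal.ofReal_natCast, ← ENNReal.ofReal_mul (Nat.cast_nonneg _), card_WW]
  have := cat_ne n
  rw [mul_one_div, div_self (by positivity), ENNReal.ofReal_one]

theorem integrable_lawM (n : ℕ) (g : ℝ → ℝ) : Integrable g (lawM n) := by
  unfold lawM
  refine integrable_finsetSum_measure.2 fun p _ => ?_
  refine Integrable.smul_measure ?_ ENNReal.ofReal_ne_top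
  exact integrable_dirac (by simp)

theorem integral_lawM (n : ℕ) (g : ℝ → ℝ) : ∫ x, g x ∂(lawM n) = EE n (fun y => g (pos n y)) := by
  unfold lawM EE
  rw [integral_finsetSum_measure]
  · rw [Finset.sum_div]
    refine Finset.sum_congr rfl fun p _ => ?_
    rw [integral_smul_measure, integral_dirac, ENNReal.toReal_ofReal (by positivity), smul_eq_mul]
    ring
  · intro p _
    refine Integrable.smul_measure ?_ ENNReal.ofReal_ne_top
    exact integrable_dirac (by simp)

/-- The law as a probability measure. -/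
noncomputable def lawP (n : ℕ) : ProbabilityMeasure ℝ := ⟨lawM n, lawM_prob n⟩

theorem sq_lawM (n : ℕ) : ∫ x, x ^ 2 ∂(lawM n) = vv n / n + (mm n - 2 * aa * n) ^ 2 / n := by
  rw [integral_lawM]
  have e : (fun y : ℕ => (pos n y) ^ 2) = fun y : ℕ => (1 / (n : ℝ)) * (((y : ℝ) ^ 2) +
      ((-(4 * aa * n)) * y + (2 * aa * n) ^ 2)) := by
    funext y
    unfold pos
    rw [div_pow, Real.sq_sqrt (Nat.cast_nonneg n)]
    ring
  rw [e, EE_smul, EE_add n (fun y : ℕ => (y : ℝ) ^ 2), EE_add n (fun y : ℕ => (-(4 * aa * n)) * (y : ℝ)),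
    EE_smul, EE_const, vv_eq']
  have : EE n (fun y => (y : ℝ)) = mm n := rfl
  rw [this]
  ring

theorem tendsto_drift : Tendsto (fun n : ℕ => (mm n - 2 * aa * n) / √(n : ℝ)) atTop (𝓝 0) :=
  tendsto_mm.div_atTop (Real.tendsto_sqrt_atTop.comp tendsto_natCast_atTop_atTop)

/-- The limit variance. -/
noncomputable def vN : ℝ≥0 := ⟨2 * aa * (1 - aa), by
  have := aa_pos
  have := aa_lt
  have : 0 < 1 - aa := by linarith
  positivity⟩

theorem vN_coe : (vN : ℝ) = 2 * aa * (1 - aa) := rfl

theorem vN_pos : 0 < (vN : ℝ) := by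
  rw [vN_coe]
  have := aa_pos
  have := aa_lt
  have : 0 < 1 - aa := by linarith
  positivity

/-- Weak convergence of the laws. -/
theorem tendsto_lawP : Tendsto lawP atTop
    (𝓝 (⟨gaussianReal 0 vN, inferInstance⟩ : ProbabilityMeasure ℝ)) := by
  have hb : ∃ C : ℝ, ∀ n, ∫ x, x ^ 2 ∂(lawM n) ≤ C := by
    have h1 : Tendsto (fun n : ℕ => ∫ x, x ^ 2 ∂(lawM n)) atTop (𝓝 (2 * aa * (1 - aa) + 0 ^ 2)) := by
      refine (tendsto_vv.add (tendsto_drift.pow 2)).congr fun n => ?_
      rw [sq_lawM, div_pow, Real.sq_sqrt (Nat.cast_nonneg n)]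
    obtain ⟨C, hC⟩ := h1.bddAbove_range
    exact ⟨C, fun n => hC ⟨n, rfl⟩⟩
  obtain ⟨C, hC⟩ := hb
  refine tendsto_gaussian_of_mgf (fun n t _ => integrable_lawM n _) (fun t ht => ?_) C
    (fun n => integrable_lawM n _) hC
  have h1 := tendsto_mgf t ht
  have e : Real.exp (vN * t ^ 2 / 2) = Real.exp (aa * (1 - aa) * t ^ 2) := by
    rw [vN_coe]
    congr 1
    ring
  rw [e]
  refine h1.congr fun n => ?_
  exact (integral_lawM n (fun x => Real.exp (t * x))).symm

theorem cdf_lawM (x : ℝ) : Tendsto (fun n => (lawM n).real (Set.Iic x)) atTop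
    (𝓝 ((gaussianReal 0 vN).real (Set.Iic x))) := by
  have hv : vN ≠ 0 := fun h => by
    have := vN_pos
    rw [h] at this
    simp at this
  have := nullSingletonClass_gaussianReal (μ := 0) hv
  have h1 := ProbabilityMeasure.tendsto_measure_of_null_frontier_of_tendsto' tendsto_lawP
    (E := Set.Iic x) (by
      rw [frontier_Iic]
      exact this.measure_singleton x)
  have h2 := (ENNReal.tendsto_toReal (measure_ne_top _ _)).comp h1
  exact h2

theorem gauss_scale (x : ℝ) : (gaussianReal 0 vN).real (Set.Iic (x * √(2 * aa * (1 - aa)))) =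
    (gaussianReal 0 1).real (Set.Iic x) := by
  have h := gaussianReal_map_const_mul (μ := 0) (v := 1) (√(2 * aa * (1 - aa)))
  have hpos : 0 < √(2 * aa * (1 - aa)) := Real.sqrt_pos.2 (by
    have := vN_pos
    rwa [vN_coe] at this)
  have e : gaussianReal (√(2 * aa * (1 - aa)) * 0) (NNReal.mk (√(2 * aa * (1 - aa)) ^ 2)
      (sq_nonneg _) * 1) = gaussianReal 0 vN := by
    congr 1
    · ring
    · rw [mul_one]
      refine NNReal.eq ?_
      rw [vN_coe]
      refine Real.sq_sqrt ?_
      have := vN_pos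
      rw [vN_coe] at this
      exact this.le
  rw [e] at h
  rw [← h]
  unfold Measure.real
  rw [Measure.map_apply (by fun_prop) measurableSet_Iic]
  congr 2
  ext z
  simp only [Set.mem_preimage, Set.mem_Iic]
  rw [mul_comm x]
  exact mul_le_mul_iff_right₀ hpos

/-- The central limit theorem. -/
theorem clt (x : ℝ) : Tendsto (fun n => EE n (fun y =>
    if ((y : ℝ) - mm n) / √(vv n) ≤ x then 1 else 0)) atTop
    (𝓝 ((gaussianReal 0 1).real (Set.Iic x))) := by
  have hv : vN ≠ 0 := fun h => by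
    have := vN_pos
    rw [h] at this
    simp at this
  have := nullSingletonClass_gaussianReal (μ := 0) hv
  have hxn : Tendsto (fun n : ℕ => x * √(vv n / n) + (mm n - 2 * aa * n) / √(n : ℝ)) atTop
      (𝓝 (x * √(2 * aa * (1 - aa)) + 0)) :=
    (((Real.continuous_sqrt.tendsto _).comp tendsto_vv).const_mul x).add tendsto_drift
  rw [add_zero] at hxn
  have h1 := tendsto_moving (F := fun n x => (lawM n).real (Set.Iic x))
    (G := fun x => (gaussianReal 0 vN).real (Set.Iic x))
    (fun n a b hab => measureReal_mono (Set.Iic_subset_Iic.2 hab)) (continuous_Iic _) cdf_lawM hxn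
  rw [gauss_scale] at h1
  have hvpos : 0 < 2 * aa * (1 - aa) := vN_pos
  refine h1.congr' ?_
  filter_upwards [eventually_ge_atTop 1, tendsto_vv.eventually (lt_mem_nhds hvpos)] with n hn hvn
  have hn' : (0 : ℝ) < n := by exact_mod_cast hn
  have hs : 0 < √(n : ℝ) := Real.sqrt_pos.2 hn'
  have hV : 0 < vv n := by
    have := mul_pos hvn hn'
    rwa [div_mul_cancel₀ _ hn'.ne'] at this
  have hsV : 0 < √(vv n) := Real.sqrt_pos.2 hV
  have h2 := integral_lawM n (Set.indicator (Set.Iic (x * √(vv n / n) +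
    (mm n - 2 * aa * n) / √(n : ℝ))) 1)
  rw [integral_indicator_one measurableSet_Iic] at h2
  rw [h2]
  congr 1
  funext y
  simp only [Set.indicator_apply, Set.mem_Iic, Pi.one_apply]
  refine if_congr ?_ rfl rfl
  unfold pos
  have e1 : (x * √(vv n / n) + (mm n - 2 * aa * n) / √(n : ℝ)) * √(n : ℝ) =
      x * √(vv n) + (mm n - 2 * aa * n) := by
    rw [Real.sqrt_div hV.le]
    field_simp
  rw [div_le_iff₀ hs, div_le_iff₀ hsV, e1]
  constructor <;> intro h <;> linarith

end Pool.Agent.R967.Mea
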