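import Mathlib

/-!
Non-crossing perfect matchings of finite sets of natural numbers: decomposition and number.
-/

set_option autoImplicit false

namespace Pool.Agent.R967.Mea

open Finset

/-- `f` is a non-crossing perfect matching of the finite set `A` (and the identity outside). -/
structure NC (A : Finset ℕ) (f : ℕ → ℕ) : Prop where
  off : ∀ i, i ∉ A → f i = i
  mem : ∀ i ∈ A, f i ∈ A
  inv : ∀ i ∈ A, f (f i) = i
  ne : ∀ i ∈ A, f i ≠ i
  nc : ∀ i ∈ A, ∀ j ∈ A, i < j → j < f i → i < f j ∧ f j < f i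

theorem finite_NC (A : Finset ℕ) : {f : ℕ → ℕ | NC A f}.Finite := by
  classical
  refine Set.Finite.subset (Set.finite_range (fun g : A → A => fun i : ℕ =>
    if h : i ∈ A then (g ⟨i, h⟩ : ℕ) else i)) ?_
  intro f hf
  refine ⟨fun i => ⟨f i, hf.mem i i.2⟩, ?_⟩
  funext i
  by_cases h : i ∈ A
  · simp [h]
  · simp [h, hf.off i h]

/-- The finite set of the non-crossing perfect matchings of `A`. -/
noncomputable def MF (A : Finset ℕ) : Finset (ℕ → ℕ) := (finite_NC A).toFinset

theorem mem_MF {A : Finset ℕ} {f : ℕ → ℕ} : f ∈ MF A ↔ NC A f := by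
  simp [MF]

/-- The elements of `A` between `a` and `b`. -/
def In (A : Finset ℕ) (a b : ℕ) : Finset ℕ := A.filter (fun x => a < x ∧ x < b)

/-- The elements of `A` outside of `[a, b]`. -/
def Out (A : Finset ℕ) (a b : ℕ) : Finset ℕ := A.filter (fun x => x < a ∨ b < x)

theorem mem_In {A : Finset ℕ} {a b x : ℕ} : x ∈ In A a b ↔ x ∈ A ∧ a < x ∧ x < b := by
  simp [In]

theorem mem_Out {A : Finset ℕ} {a b x : ℕ} : x ∈ Out A a b ↔ x ∈ A ∧ (x < a ∨ b < x) := by
  simp [Out]

/-- Restriction. -/
def res (B : Finset ℕ) (f : ℕ → ℕ) (i : ℕ) : ℕ := if i ∈ B then f i else i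

/-- Gluing. -/
def glue (A : Finset ℕ) (a b : ℕ) (f₁ f₂ : ℕ → ℕ) (i : ℕ) : ℕ :=
  if i ∈ In A a b then f₁ i else if i ∈ Out A a b then f₂ i else
    if i = a then b else if i = b then a else i

theorem cases_A {A : Finset ℕ} {a b x : ℕ} (hx : x ∈ A) :
    x ∈ In A a b ∨ x ∈ Out A a b ∨ x = a ∨ x = b := by
  rw [mem_In, mem_Out]
  rcases lt_trichotomy x a with h | h | h
  · exact Or.inr (Or.inl ⟨hx, Or.inl h⟩)
  · exact Or.inr (Or.inr (Or.inl h))
  · rcases lt_trichotomy x b with h' | h' | h'
    · exact Or.inl ⟨hx, h, h'⟩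
    · exact Or.inr (Or.inr (Or.inr h'))
    · exact Or.inr (Or.inl ⟨hx, Or.inr h'⟩)

theorem glue_In {A : Finset ℕ} {a b : ℕ} {f₁ f₂ : ℕ → ℕ} {i : ℕ} (h : i ∈ In A a b) :
    glue A a b f₁ f₂ i = f₁ i := by
  simp [glue, h]

theorem glue_Out {A : Finset ℕ} {a b : ℕ} (hab : a < b) {f₁ f₂ : ℕ → ℕ} {i : ℕ}
    (h : i ∈ Out A a b) : glue A a b f₁ f₂ i = f₂ i := by
  have h1 : i ∉ In A a b := by
    rw [mem_In]
    rw [mem_Out] at h
    omega
  simp [glue, h, h1]

theorem glue_a {A : Finset ℕ} {a b : ℕ} (hab : a < b) {f₁ f₂ : ℕ → ℕ} :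
    glue A a b f₁ f₂ a = b := by
  have h1 : a ∉ In A a b := by
    rw [mem_In]
    omega
  have h2 : a ∉ Out A a b := by
    rw [mem_Out]
    omega
  simp [glue, h1, h2]

theorem glue_b {A : Finset ℕ} {a b : ℕ} (hab : a < b) {f₁ f₂ : ℕ → ℕ} :
    glue A a b f₁ f₂ b = a := by
  have h1 : b ∉ In A a b := by
    rw [mem_In]
    omega
  have h2 : b ∉ Out A a b := by
    rw [mem_Out]
    omega
  have h3 : b ≠ a := by omega
  simp [glue, h1, h2, h3]

theorem glue_off {A : Finset ℕ} {a b : ℕ} (ha : a ∈ A) (hb : b ∈ A) {f₁ f₂ : ℕ → ℕ} {i : ℕ}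
    (h : i ∉ A) : glue A a b f₁ f₂ i = i := by
  have h1 : i ∉ In A a b := fun h' => h (mem_In.1 h').1
  have h2 : i ∉ Out A a b := fun h' => h (mem_Out.1 h').1
  have h3 : i ≠ a := fun h' => h (h' ▸ ha)
  have h4 : i ≠ b := fun h' => h (h' ▸ hb)
  simp [glue, h1, h2, h3, h4]

theorem NC_glue {A : Finset ℕ} {a b : ℕ} (ha : a ∈ A) (hb : b ∈ A) (hab : a < b)
    {f₁ f₂ : ℕ → ℕ} (h₁ : NC (In A a b) f₁) (h₂ : NC (Out A a b) f₂) :
    NC A (glue A a b f₁ f₂) := by
  have gI : ∀ i, i ∈ In A a b → glue A a b f₁ f₂ i = f₁ i := fun i hi => glue_In hi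
  have gO : ∀ i, i ∈ Out A a b → glue A a b f₁ f₂ i = f₂ i := fun i hi => glue_Out hab hi
  have ga : glue A a b f₁ f₂ a = b := glue_a hab
  have gb : glue A a b f₁ f₂ b = a := glue_b hab
  refine ⟨fun i hi => glue_off ha hb hi, ?_, ?_, ?_, ?_⟩
  · intro i hi
    rcases cases_A (a := a) (b := b) hi with h | h | rfl | rfl
    · rw [gI i h]
      exact (mem_In.1 (h₁.mem i h)).1
    · rw [gO i h]
      exact (mem_Out.1 (h₂.mem i h)).1
    · rw [ga]; exact hb
    · rw [gb]; exact ha
  · intro i hi
    rcases cases_A (a := a) (b := b) hi with h | h | rfl | rfl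
    · rw [gI i h, gI _ (h₁.mem i h), h₁.inv i h]
    · rw [gO i h, gO _ (h₂.mem i h), h₂.inv i h]
    · rw [ga, gb]
    · rw [gb, ga]
  · intro i hi
    rcases cases_A (a := a) (b := b) hi with h | h | rfl | rfl
    · rw [gI i h]; exact h₁.ne i h
    · rw [gO i h]; exact h₂.ne i h
    · rw [ga]; omega
    · rw [gb]; omega
  · intro i hi j hj hij hjf
    rcases cases_A (a := a) (b := b) hi with h | h | h | h
    · rw [gI i h] at hjf ⊢
      have h1 := mem_In.1 h
      have h2 := mem_In.1 (h₁.mem i h)
      have hj' : j ∈ In A a b := mem_In.2 ⟨hj, by omega, by omega⟩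
      rw [gI j hj']
      exact h₁.nc i h j hj' hij hjf
    · rw [gO i h] at hjf ⊢
      have h1 := mem_Out.1 h
      have h2 := mem_Out.1 (h₂.mem i h)
      rcases cases_A (a := a) (b := b) hj with h' | h' | h' | h'
      · rw [gI j h']
        have h3 := mem_In.1 h'
        have h4 := mem_In.1 (h₁.mem j h')
        omega
      · rw [gO j h']
        exact h₂.nc i h j h' hij hjf
      · rw [h', ga]
        omega
      · rw [h', gb]
        omega
    · rw [h, ga] at hjf ⊢
      rw [h] at hij
      have hj' : j ∈ In A a b := mem_In.2 ⟨hj, hij, hjf⟩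
      rw [gI j hj']
      have h4 := mem_In.1 (h₁.mem j hj')
      omega
    · rw [h, gb] at hjf
      rw [h] at hij
      omega

theorem f_In {A : Finset ℕ} {a b : ℕ} (ha : a ∈ A) (hab : a < b) {f : ℕ → ℕ} (h : NC A f)
    (hf : f a = b) : ∀ i ∈ In A a b, f i ∈ In A a b := by
  intro i hi
  obtain ⟨h1, h2, h3⟩ := mem_In.1 hi
  have := h.nc a ha i h1 h2 (by rw [hf]; exact h3)
  rw [hf] at this
  exact mem_In.2 ⟨h.mem i h1, this⟩

theorem f_Out {A : Finset ℕ} {a b : ℕ} (ha : a ∈ A) (hab : a < b) {f : ℕ → ℕ} (h : NC A f)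
    (hf : f a = b) : ∀ i ∈ Out A a b, f i ∈ Out A a b := by
  intro i hi
  obtain ⟨h1, h2⟩ := mem_Out.1 hi
  have hb : f b = a := by rw [← hf, h.inv a ha]
  rcases cases_A (a := a) (b := b) (h.mem i h1) with h' | h' | h' | h'
  · exfalso
    have h3 := f_In ha hab h hf _ h'
    rw [h.inv i h1] at h3
    have h4 := mem_In.1 h3
    omega
  · exact h'
  · exfalso
    have h3 := h.inv i h1
    rw [h', hf] at h3
    omega
  · exfalso
    have h3 := h.inv i h1
    rw [h', hb] at h3
    omega

theorem NC_res_In {A : Finset ℕ} {a b : ℕ} (ha : a ∈ A) (hab : a < b) {f : ℕ → ℕ} (h : NC A f)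
    (hf : f a = b) : NC (In A a b) (res (In A a b) f) := by
  have hI := f_In ha hab h hf
  have hr : ∀ i ∈ In A a b, res (In A a b) f i = f i := fun i hi => by simp [res, hi]
  refine ⟨fun i hi => by simp [res, hi], ?_, ?_, ?_, ?_⟩
  · intro i hi
    rw [hr i hi]
    exact hI i hi
  · intro i hi
    rw [hr i hi, hr _ (hI i hi)]
    exact h.inv i (mem_In.1 hi).1
  · intro i hi
    rw [hr i hi]
    exact h.ne i (mem_In.1 hi).1
  · intro i hi j hj
    rw [hr i hi, hr j hj]
    exact h.nc i (mem_In.1 hi).1 j (mem_In.1 hj).1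

theorem NC_res_Out {A : Finset ℕ} {a b : ℕ} (ha : a ∈ A) (hab : a < b) {f : ℕ → ℕ} (h : NC A f)
    (hf : f a = b) : NC (Out A a b) (res (Out A a b) f) := by
  have hI := f_Out ha hab h hf
  have hr : ∀ i ∈ Out A a b, res (Out A a b) f i = f i := fun i hi => by simp [res, hi]
  refine ⟨fun i hi => by simp [res, hi], ?_, ?_, ?_, ?_⟩
  · intro i hi
    rw [hr i hi]
    exact hI i hi
  · intro i hi
    rw [hr i hi, hr _ (hI i hi)]
    exact h.inv i (mem_Out.1 hi).1
  · intro i hi
    rw [hr i hi]
    exact h.ne i (mem_Out.1 hi).1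
  · intro i hi j hj
    rw [hr i hi, hr j hj]
    exact h.nc i (mem_Out.1 hi).1 j (mem_Out.1 hj).1

/-- Sum over the matchings with a given arc. -/
theorem sum_arc {A : Finset ℕ} {a b : ℕ} (ha : a ∈ A) (hb : b ∈ A) (hab : a < b)
    (T : (ℕ → ℕ) → ℝ) :
    ∑ f ∈ (MF A).filter (fun f => f a = b), T f =
      ∑ f₁ ∈ MF (In A a b), ∑ f₂ ∈ MF (Out A a b), T (glue A a b f₁ f₂) := by
  classical
  rw [← Finset.sum_product']
  refine Finset.sum_nbij' (fun f => (res (In A a b) f, res (Out A a b) f))
    (fun p => glue A a b p.1 p.2) ?_ ?_ ?_ ?_ ?_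
  · intro f hf
    rw [Finset.mem_filter, mem_MF] at hf
    rw [Finset.mem_product, mem_MF, mem_MF]
    exact ⟨NC_res_In ha hab hf.1 hf.2, NC_res_Out ha hab hf.1 hf.2⟩
  · intro p hp
    rw [Finset.mem_product, mem_MF, mem_MF] at hp
    rw [Finset.mem_filter, mem_MF]
    exact ⟨NC_glue ha hb hab hp.1 hp.2, glue_a hab⟩
  · intro f hf
    rw [Finset.mem_filter, mem_MF] at hf
    obtain ⟨h, hf⟩ := hf
    have hfb : f b = a := by rw [← hf, h.inv a ha]
    funext i
    show glue A a b (res (In A a b) f) (res (Out A a b) f) i = f i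
    by_cases hi : i ∈ A
    · rcases cases_A (a := a) (b := b) hi with h' | h' | h' | h'
      · rw [glue_In h']; simp [res, h']
      · rw [glue_Out hab h']; simp [res, h']
      · rw [h', glue_a hab, hf]
      · rw [h', glue_b hab, hfb]
    · rw [glue_off ha hb hi, h.off i hi]
  · rintro ⟨f₁, f₂⟩ hp
    rw [Finset.mem_product, mem_MF, mem_MF] at hp
    obtain ⟨h1, h2⟩ := hp
    refine Prod.ext ?_ ?_
    · funext i
      show res (In A a b) (glue A a b f₁ f₂) i = f₁ i
      by_cases hi : i ∈ In A a b
      · simp only [res, hi, if_true]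
        exact glue_In hi
      · simp only [res, hi, if_false]
        exact (h1.off i hi).symm
    · funext i
      show res (Out A a b) (glue A a b f₁ f₂) i = f₂ i
      by_cases hi : i ∈ Out A a b
      · simp only [res, hi, if_true]
        exact glue_Out hab hi
      · simp only [res, hi, if_false]
        exact (h2.off i hi).symm
  · intro f hf
    rw [Finset.mem_filter, mem_MF] at hf
    obtain ⟨h, hf⟩ := hf
    have hfb : f b = a := by rw [← hf, h.inv a ha]
    congr 1
    funext i
    show f i = glue A a b (res (In A a b) f) (res (Out A a b) f) i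
    by_cases hi : i ∈ A
    · rcases cases_A (a := a) (b := b) hi with h' | h' | h' | h'
      · rw [glue_In h']; simp [res, h']
      · rw [glue_Out hab h']; simp [res, h']
      · rw [h', glue_a hab, hf]
      · rw [h', glue_b hab, hfb]
    · rw [glue_off ha hb hi, h.off i hi]

/-- The number of non-crossing perfect matchings of a set with `n` elements. -/
def cc (n : ℕ) : ℕ := if n % 2 = 0 then catalan (n / 2) else 0

theorem cc_zero : cc 0 = 1 := by simp [cc]

theorem cc_one : cc 1 = 0 := by simp [cc]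

theorem cc_even (m : ℕ) : cc (2 * m) = catalan m := by
  simp [cc]

theorem cc_odd (m : ℕ) : cc (2 * m + 1) = 0 := by
  have : (2 * m + 1) % 2 = 1 := by omega
  simp [cc, this]

theorem cc_rec (n : ℕ) : cc (n + 2) = ∑ i ∈ Finset.range (n + 1), cc i * cc (n - i) := by
  rcases Nat.even_or_odd' n with ⟨m, rfl | rfl⟩
  · have h1 : 2 * m + 2 = 2 * (m + 1) := by ring
    rw [h1, cc_even, catalan_succ, ← Finset.sum_range (fun i => catalan i * catalan (m - i))]
    rw [show 2 * m + 1 = 2 * m + 1 from rfl]
    have h2 : ∀ k, ∑ i ∈ Finset.range (2 * k + 1), cc i * cc (2 * m - i) =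
        ∑ i ∈ Finset.range (k + 1), cc (2 * i) * cc (2 * m - 2 * i) := by
      intro k
      induction k with
      | zero => simp
      | succ k ih =>
        rw [show 2 * (k + 1) + 1 = (2 * k + 1) + 1 + 1 by ring, Finset.sum_range_succ,
          Finset.sum_range_succ, ih, Finset.sum_range_succ _ (k + 1), cc_odd, zero_mul, add_zero,
          show 2 * k + 1 + 1 = 2 * (k + 1) by ring]
    rw [h2 m]
    refine Finset.sum_congr rfl fun i hi => ?_
    rw [← Nat.mul_sub, cc_even, cc_even]
  · rw [show 2 * m + 1 + 2 = 2 * (m + 1) + 1 by ring, cc_odd]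
    symm
    refine Finset.sum_eq_zero fun i hi => ?_
    rcases Nat.even_or_odd' i with ⟨k, rfl | rfl⟩
    · rw [Finset.mem_range] at hi
      rw [show 2 * m + 1 - 2 * k = 2 * (m - k) + 1 by omega, cc_odd, mul_zero]
    · rw [cc_odd, zero_mul]

/-- Sums over the elements of a finite set in terms of the number of the larger elements. -/
theorem sum_rank {R : Type*} [AddCommMonoid R] (S : Finset ℕ) (ψ : ℕ → R) :
    ∑ a ∈ S, ψ ((S.filter (fun x => a < x)).card) = ∑ i ∈ Finset.range S.card, ψ i := by
  classical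
  induction S using Finset.induction_on_min with
  | empty => simp
  | insert m S hm ih =>
    have hmS : m ∉ S := fun h => lt_irrefl _ (hm m h)
    rw [Finset.sum_insert hmS, Finset.card_insert_of_notMem hmS, Finset.sum_range_succ, add_comm]
    congr 1
    · rw [← ih]
      refine Finset.sum_congr rfl fun a ha => ?_
      congr 2
      rw [Finset.filter_insert, if_neg (not_lt.2 (hm a ha).le)]
    · congr 1
      rw [Finset.filter_insert, if_neg (lt_irrefl _), Finset.filter_true_of_mem hm]

theorem MF_empty : MF ∅ = {id} := by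
  ext f
  rw [mem_MF, Finset.mem_singleton]
  constructor
  · intro h
    funext i
    exact h.off i (by simp)
  · rintro rfl
    exact ⟨fun i _ => rfl, by simp, by simp, by simp, by simp⟩

/-- The number of the non-crossing perfect matchings. -/
theorem card_MF (A : Finset ℕ) : (MF A).card = cc A.card := by
  classical
  induction hn : A.card using Nat.strong_induction_on generalizing A with
  | _ n ih =>
  rcases A.eq_empty_or_nonempty with rfl | hA
  · rw [MF_empty]
    simp at hn
    simp [← hn, cc_zero]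
  · set a := A.min' hA with ha'
    have ha : a ∈ A := Finset.min'_mem A hA
    have hmin : ∀ x ∈ A, a ≤ x := fun x hx => Finset.min'_le A x hx
    set S := A.erase a with hS
    have hScard : S.card = n - 1 := by rw [hS, Finset.card_erase_of_mem ha, hn]
    have hlt : ∀ x ∈ S, a < x := by
      intro x hx
      obtain ⟨h1, h2⟩ := Finset.mem_erase.1 hx
      exact lt_of_le_of_ne (hmin x h2) (Ne.symm h1)
    have hpos : 0 < n := by rw [← hn]; exact Finset.card_pos.2 hA
    have h1 : ((MF A).card : ℝ) = ∑ b ∈ S, ∑ f ∈ (MF A).filter (fun f => f a = b), (1 : ℝ) := by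
      have h2 : MF A = S.biUnion (fun b => (MF A).filter (fun f => f a = b)) := by
        ext f
        rw [Finset.mem_biUnion]
        constructor
        · intro hf
          have hf' := mem_MF.1 hf
          exact ⟨f a, Finset.mem_erase.2 ⟨hf'.ne a ha, hf'.mem a ha⟩, Finset.mem_filter.2 ⟨hf, rfl⟩⟩
        · rintro ⟨b, -, hb⟩
          exact (Finset.mem_filter.1 hb).1
      have h3 : ((MF A).card : ℝ) = ∑ f ∈ MF A, (1 : ℝ) := by simp
      rw [h3]
      conv_lhs => rw [h2]
      rw [Finset.sum_biUnion]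
      intro b _ b' _ hbb'
      rw [Function.onFun, Finset.disjoint_left]
      intro f hf hf'
      exact hbb' ((Finset.mem_filter.1 hf).2.symm.trans (Finset.mem_filter.1 hf').2)
    have h4 : ∀ b ∈ S, ∑ f ∈ (MF A).filter (fun f => f a = b), (1 : ℝ) =
        (cc (n - 2 - (S.filter (fun x => b < x)).card) * cc ((S.filter (fun x => b < x)).card) : ℕ) := by
      intro b hb
      have hbA : b ∈ A := (Finset.mem_erase.1 hb).2
      rw [sum_arc ha hbA (hlt b hb)]
      have e1 : Out A a b = S.filter (fun x => b < x) := by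
        ext x
        rw [mem_Out, Finset.mem_filter, hS, Finset.mem_erase]
        constructor
        · rintro ⟨h5, h6 | h6⟩
          · exact absurd h6 (not_lt.2 (hmin x h5))
          · exact ⟨⟨by have := hlt b hb; omega, h5⟩, h6⟩
        · rintro ⟨⟨h5, h6⟩, h7⟩
          exact ⟨h6, Or.inr h7⟩
      have e2 : (In A a b).card + (Out A a b).card + 2 = n := by
        have e3 : A = insert a (insert b (In A a b ∪ Out A a b)) := by
          ext x
          simp only [Finset.mem_insert, Finset.mem_union]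
          constructor
          · intro hx
            rcases cases_A (a := a) (b := b) hx with h | h | h | h
            · exact Or.inr (Or.inr (Or.inl h))
            · exact Or.inr (Or.inr (Or.inr h))
            · exact Or.inl h
            · exact Or.inr (Or.inl h)
          · rintro (rfl | rfl | h | h)
            · exact ha
            · exact hbA
            · exact (mem_In.1 h).1
            · exact (mem_Out.1 h).1
        have hab := hlt b hb
        have d1 : Disjoint (In A a b) (Out A a b) := by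
          rw [Finset.disjoint_left]
          intro x h h'
          have := mem_In.1 h
          have := mem_Out.1 h'
          omega
        have n1 : b ∉ In A a b ∪ Out A a b := by
          rw [Finset.mem_union, mem_In, mem_Out]
          omega
        have n2 : a ∉ insert b (In A a b ∪ Out A a b) := by
          rw [Finset.mem_insert, Finset.mem_union, mem_In, mem_Out]
          omega
        have e4 := congrArg Finset.card e3
        rw [Finset.card_insert_of_notMem n2, Finset.card_insert_of_notMem n1,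
          Finset.card_union_of_disjoint d1, hn] at e4
        omega
      have e5 : (MF (In A a b)).card = cc (In A a b).card := ih _ (by omega) _ rfl
      have e6 : (MF (Out A a b)).card = cc (Out A a b).card := ih _ (by omega) _ rfl
      rw [← e1]
      simp only [Finset.sum_const, nsmul_eq_mul, mul_one]
      rw [e5, e6, show n - 2 - (Out A a b).card = (In A a b).card by omega]
      push_cast
      ring
    have h5 : ((MF A).card : ℝ) = ((∑ i ∈ Finset.range (n - 1), cc (n - 2 - i) * cc i : ℕ) : ℝ) := by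
      rw [h1, Finset.sum_congr rfl h4, ← Nat.cast_sum, sum_rank S (fun i => cc (n - 2 - i) * cc i),
        hScard]
    have h6 : (MF A).card = ∑ i ∈ Finset.range (n - 1), cc (n - 2 - i) * cc i := by exact_mod_cast h5
    rw [h6]
    rcases Nat.lt_or_ge n 2 with h7 | h7
    · have : n = 1 := by omega
      subst this
      simp [cc_one]
    · obtain ⟨k, rfl⟩ : ∃ k, n = k + 2 := ⟨n - 2, by omega⟩
      rw [cc_rec]
      simp only [Nat.add_sub_cancel]
      rw [show k + 2 - 1 = k + 1 by omega]
      refine Finset.sum_congr rfl fun i _ => mul_comm _ _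

end Pool.Agent.R967.Mea
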