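import Pool.Agent.R967.Mea.Mom

/-!
Convergence of the moment generating function.
-/

set_option autoImplicit false

namespace Pool.Agent.R967.Mea

open Finset Filter Topology

theorem tendsto_div_sqrt (c : ℝ) : Tendsto (fun n : ℕ => c / √(n : ℝ)) atTop (𝓝 0) :=
  tendsto_const_nhds.div_atTop (Real.tendsto_sqrt_atTop.comp tendsto_natCast_atTop_atTop)

theorem exp_second (c : ℝ) : Tendsto (fun n : ℕ => (n : ℝ) * (Real.exp (c / √(n : ℝ)) - 1 -
    c / √(n : ℝ))) atTop (𝓝 (c ^ 2 / 2)) := by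
  have h0 := (tendsto_div_sqrt c).abs
  rw [abs_zero] at h0
  have h1 : Tendsto (fun n : ℕ => c ^ 2 * |c / √(n : ℝ)|) atTop (𝓝 0) := by
    have := h0.const_mul (c ^ 2)
    rwa [mul_zero] at this
  have h2 : Tendsto (fun n : ℕ => (n : ℝ) * (Real.exp (c / √(n : ℝ)) - 1 -
    c / √(n : ℝ)) - c ^ 2 / 2) atTop (𝓝 0) := by
    refine squeeze_zero_norm' ?_ h1
    filter_upwards [eventually_ge_atTop 1, h0.eventually (ge_mem_nhds (show (0 : ℝ) < 1 by norm_num))]
      with n hn hx
    have hn' : (0 : ℝ) < n := by exact_mod_cast hn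
    obtain ⟨x, hxd⟩ : ∃ x, x = c / √(n : ℝ) := ⟨_, rfl⟩
    rw [← hxd] at hx ⊢
    have hb := Real.exp_bound hx (show 0 < 3 by norm_num)
    simp only [Finset.sum_range_succ, Finset.sum_range_zero, Nat.factorial] at hb
    have hsq : (n : ℝ) * x ^ 2 = c ^ 2 := by
      rw [hxd, div_pow, Real.sq_sqrt hn'.le]
      field_simp
    have e : (n : ℝ) * (Real.exp x - 1 - x) - c ^ 2 / 2 = n * (Real.exp x - 1 - x - x ^ 2 / 2) := by
      rw [← hsq]
      ring
    rw [e, Real.norm_eq_abs, abs_mul, abs_of_pos hn', ← hsq]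
    have hb' : |Real.exp x - 1 - x - x ^ 2 / 2| ≤ |x| ^ 3 := by
      refine le_trans (le_of_eq ?_) (hb.trans ?_)
      · congr 1
        norm_num
        ring
      · have : (0 : ℝ) ≤ |x| ^ 3 := by positivity
        norm_num
        linarith
    calc (n : ℝ) * |Real.exp x - 1 - x - x ^ 2 / 2| ≤ n * |x| ^ 3 :=
          mul_le_mul_of_nonneg_left hb' hn'.le
      _ = n * |x| ^ 2 * |x| := by ring
      _ = n * x ^ 2 * |x| := by rw [sq_abs]
  have h3 := h2.add_const (c ^ 2 / 2)
  rw [zero_add] at h3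
  refine h3.congr fun n => ?_
  ring

/-- The main term. -/
theorem tendsto_main (l : ℝ) : Tendsto (fun n : ℕ => Real.exp (-(2 * aa * l * √(n : ℝ))) *
    (1 + (Real.exp (l / √(n : ℝ)) - 1) * aa) ^ (2 * n)) atTop
    (𝓝 (Real.exp (aa * (1 - aa) * l ^ 2))) := by
  have h1 := (exp_second (-(aa * l))).const_mul (1 - aa)
  have h2 := (exp_second ((1 - aa) * l)).const_mul aa
  have h3 := h1.add h2
  have e : (1 - aa) * ((-(aa * l)) ^ 2 / 2) + aa * (((1 - aa) * l) ^ 2 / 2) =
      aa * (1 - aa) * l ^ 2 / 2 := by ring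
  rw [e] at h3
  have h4 : Tendsto (fun n : ℕ => (n : ℝ) * (Real.exp (-(aa * l) / √(n : ℝ)) *
      (1 + (Real.exp (l / √(n : ℝ)) - 1) * aa) - 1)) atTop (𝓝 (aa * (1 - aa) * l ^ 2 / 2)) := by
    refine h3.congr fun n => ?_
    have e1 : Real.exp ((1 - aa) * l / √(n : ℝ)) =
        Real.exp (-(aa * l) / √(n : ℝ)) * Real.exp (l / √(n : ℝ)) := by
      rw [← Real.exp_add]
      congr 1
      ring
    rw [e1]
    ring
  have h5 := Real.tendsto_one_add_pow_exp_of_tendsto h4
  have h6 := h5.pow 2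
  have e2 : Real.exp (aa * (1 - aa) * l ^ 2 / 2) ^ 2 = Real.exp (aa * (1 - aa) * l ^ 2) := by
    rw [← Real.exp_nat_mul]
    congr 1
    push_cast
    ring
  rw [e2] at h6
  refine h6.congr fun n => ?_
  rw [add_sub_cancel, ← pow_mul, mul_comm n 2, mul_pow, ← Real.exp_nat_mul]
  congr 2
  push_cast
  rcases Nat.eq_zero_or_pos n with rfl | hn
  · simp
  · have hn' : (0 : ℝ) < n := by exact_mod_cast hn
    have hs : √(n : ℝ) ≠ 0 := (Real.sqrt_pos.2 hn').ne'
    have hs2 : (n : ℝ) = √(n : ℝ) * √(n : ℝ) := (Real.mul_self_sqrt hn'.le).symm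
    field_simp
    rw [sq, ← hs2]
    ring

/-- The perturbed binomial sum. -/
theorem tendsto_ratio (l : ℝ) (hl : 0 < l) : Tendsto (fun n : ℕ =>
    (∑ k ∈ Finset.range (n + 1), ((2 * n).choose k : ℝ) *
      ((Real.exp (l / √(n : ℝ)) - 1) * aa) ^ k * RR n k) /
      (1 + (Real.exp (l / √(n : ℝ)) - 1) * aa) ^ (2 * n)) atTop (𝓝 1) := by
  have hapos := aa_pos
  obtain ⟨Λ, hΛ⟩ : ∃ Λ : ℝ, Λ = 4 * Real.exp 1 * aa * l + 1 := ⟨_, rfl⟩
  rw [Metric.tendsto_atTop]
  intro ε hε
  obtain ⟨n0, hn0⟩ := RR_unif Λ (ε / 3) (by positivity)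
  have htail : Tendsto (fun n : ℕ => 4 * gg * ((n : ℝ) + 1) ^ 3 * Real.exp (-√(n : ℝ))) atTop
      (𝓝 0) := by
    have h1 := (Real.tendsto_pow_mul_exp_neg_atTop_nhds_zero 6).comp
      (Real.tendsto_sqrt_atTop.comp tendsto_natCast_atTop_atTop)
    have h2 := h1.const_mul (4 * gg * 8)
    rw [mul_zero] at h2
    refine squeeze_zero' (Eventually.of_forall fun n => ?_) ?_ h2
    · have := gg_pos
      positivity
    · filter_upwards [eventually_ge_atTop 1] with n hn
      simp only [Function.comp_apply]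
      have hn' : (1 : ℝ) ≤ n := by exact_mod_cast hn
      have e : √(n : ℝ) ^ 6 = (n : ℝ) ^ 3 := by
        rw [show 6 = 2 * 3 by norm_num, pow_mul, Real.sq_sqrt (by linarith)]
      rw [e]
      have h3 : ((n : ℝ) + 1) ^ 3 ≤ 8 * (n : ℝ) ^ 3 := by
        have : ((n : ℝ) + 1) ^ 3 ≤ (2 * (n : ℝ)) ^ 3 := by
          refine pow_le_pow_left₀ (by linarith) (by linarith) 3
        calc ((n : ℝ) + 1) ^ 3 ≤ (2 * (n : ℝ)) ^ 3 := this
          _ = _ := by ring
      have hg := gg_pos
      calc 4 * gg * ((n : ℝ) + 1) ^ 3 * Real.exp (-√(n : ℝ))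
          ≤ 4 * gg * (8 * (n : ℝ) ^ 3) * Real.exp (-√(n : ℝ)) := by
            refine mul_le_mul_of_nonneg_right (mul_le_mul_of_nonneg_left h3 (by positivity))
              (Real.exp_pos _).le
        _ = _ := by ring
  have hsmall : ∀ᶠ n : ℕ in atTop, |l / √(n : ℝ)| ≤ 1 := by
    have h0 := (tendsto_div_sqrt l).abs
    rw [abs_zero] at h0
    exact h0.eventually (ge_mem_nhds (show (0 : ℝ) < 1 by norm_num))
  have hev : ∀ᶠ n : ℕ in atTop, dist ((∑ k ∈ Finset.range (n + 1), ((2 * n).choose k : ℝ) *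
      ((Real.exp (l / √(n : ℝ)) - 1) * aa) ^ k * RR n k) /
      (1 + (Real.exp (l / √(n : ℝ)) - 1) * aa) ^ (2 * n)) 1 < ε := by
    filter_upwards [eventually_ge_atTop n0, eventually_ge_atTop 1, hsmall,
      htail.eventually (ge_mem_nhds (show (0 : ℝ) < ε / 3 by positivity)),
      (Real.tendsto_sqrt_atTop.comp tendsto_natCast_atTop_atTop).eventually_ge_atTop Λ]
      with n hn hn1 hu ht hΛn
    simp only [Function.comp_apply] at hΛn
    have hn' : (1 : ℝ) ≤ n := by exact_mod_cast hn1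
    have hsq : 0 < √(n : ℝ) := Real.sqrt_pos.2 (by linarith)
    have hss : √(n : ℝ) * √(n : ℝ) = n := Real.mul_self_sqrt (by linarith)
    obtain ⟨s, hs⟩ : ∃ s, s = Real.exp (l / √(n : ℝ)) - 1 := ⟨_, rfl⟩
    rw [← hs]
    have hs0 : 0 < s := by
      rw [hs]
      have : 0 < l / √(n : ℝ) := by positivity
      have := Real.add_one_lt_exp this.ne'
      linarith
    have hs1 : s ≤ 2 * l / √(n : ℝ) := by
      have h1 := Real.abs_exp_sub_one_le hu
      rw [← hs, abs_of_pos hs0, abs_of_pos (show 0 < l / √(n : ℝ) by positivity)] at h1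
      calc s ≤ 2 * (l / √(n : ℝ)) := h1
        _ = _ := by ring
    have hB : 1 ≤ (1 + s * aa) ^ (2 * n) := one_le_pow₀ (by nlinarith)
    have hB0 : 0 < (1 + s * aa) ^ (2 * n) := by linarith
    rw [Real.dist_eq, div_sub_one hB0.ne', abs_div, abs_of_pos hB0, div_lt_iff₀ hB0]
    have e1 : (1 + s * aa) ^ (2 * n) = ∑ k ∈ Finset.range (2 * n + 1),
        ((2 * n).choose k : ℝ) * (s * aa) ^ k := by
      rw [add_comm, add_pow]
      refine Finset.sum_congr rfl fun k _ => ?_
      rw [one_pow]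
      ring
    have e2 : ∑ k ∈ Finset.range (n + 1), ((2 * n).choose k : ℝ) * (s * aa) ^ k * RR n k =
        ∑ k ∈ Finset.range (2 * n + 1), ((2 * n).choose k : ℝ) * (s * aa) ^ k *
          (if k ≤ n then RR n k else 0) := by
      have hsub : Finset.range (n + 1) ⊆ Finset.range (2 * n + 1) := by
        intro x hx
        rw [Finset.mem_range] at hx ⊢
        omega
      rw [← Finset.sum_subset hsub]
      · refine Finset.sum_congr rfl fun k hk => ?_
        rw [Finset.mem_range] at hk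
        rw [if_pos (by omega)]
      · intro k _ hk
        rw [Finset.mem_range] at hk
        rw [if_neg (by omega), mul_zero]
    have e3 : (∑ k ∈ Finset.range (n + 1), ((2 * n).choose k : ℝ) * (s * aa) ^ k * RR n k) -
        (1 + s * aa) ^ (2 * n) = ∑ k ∈ Finset.range (2 * n + 1),
          ((2 * n).choose k : ℝ) * (s * aa) ^ k * ((if k ≤ n then RR n k else 0) - 1) := by
      rw [e1, e2, ← Finset.sum_sub_distrib]
      refine Finset.sum_congr rfl fun k _ => ?_
      ring
    have hG : 1 ≤ 4 * gg * ((n : ℝ) + 1) ^ 3 := by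
      have h1 := one_le_gg
      have h2 : 1 ≤ ((n : ℝ) + 1) ^ 3 := one_le_pow₀ (by linarith)
      nlinarith
    have hterm : ∀ k ∈ Finset.range (2 * n + 1),
        |((2 * n).choose k : ℝ) * (s * aa) ^ k * ((if k ≤ n then RR n k else 0) - 1)| ≤
        ε / 3 * (((2 * n).choose k : ℝ) * (s * aa) ^ k) +
        4 * gg * ((n : ℝ) + 1) ^ 3 * Real.exp (-(Λ * √(n : ℝ))) *
          (((2 * n).choose k : ℝ) * (Real.exp 1 * (s * aa)) ^ k) := by
      intro k _
      have hc : 0 ≤ ((2 * n).choose k : ℝ) * (s * aa) ^ k := by positivity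
      rw [abs_mul, abs_of_nonneg hc]
      have key : |(if k ≤ n then RR n k else 0) - 1| ≤ ε / 3 +
          4 * gg * ((n : ℝ) + 1) ^ 3 * Real.exp (-(Λ * √(n : ℝ))) * Real.exp 1 ^ k := by
        by_cases hk : (k : ℝ) ≤ Λ * √(n : ℝ) ∧ k ≤ n
        · rw [if_pos hk.2]
          have h1 := hn0 n hn k hk.1
          have h2 : 0 ≤ 4 * gg * ((n : ℝ) + 1) ^ 3 * Real.exp (-(Λ * √(n : ℝ))) * Real.exp 1 ^ k := by
            have := gg_pos
            positivity
          linarith
        · have hE : 1 ≤ Real.exp (-(Λ * √(n : ℝ))) * Real.exp 1 ^ k := by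
            rw [← Real.exp_nat_mul, ← Real.exp_add, mul_one]
            apply Real.one_le_exp
            rcases not_and_or.1 hk with hk | hk
            · rw [not_le] at hk
              linarith
            · rw [not_le] at hk
              have h1 : (n : ℝ) < k := by exact_mod_cast hk
              have h2 : Λ * √(n : ℝ) ≤ n :=
                (mul_le_mul_of_nonneg_right hΛn hsq.le).trans hss.le
              linarith
          have h3 : |(if k ≤ n then RR n k else 0) - 1| ≤ 4 * gg * ((n : ℝ) + 1) ^ 3 := by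
            rw [abs_le]
            split_ifs
            · have h4 := RR_nonneg n k
              have h5 := RR_crude n k
              constructor <;> linarith
            · constructor <;> linarith
          calc _ ≤ 4 * gg * ((n : ℝ) + 1) ^ 3 * 1 := by rw [mul_one]; exact h3
            _ ≤ 4 * gg * ((n : ℝ) + 1) ^ 3 * (Real.exp (-(Λ * √(n : ℝ))) * Real.exp 1 ^ k) :=
              mul_le_mul_of_nonneg_left hE (by linarith)
            _ ≤ _ := by
              have : 0 < ε / 3 := by positivity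
              linarith
      calc _ ≤ ((2 * n).choose k : ℝ) * (s * aa) ^ k * (ε / 3 +
          4 * gg * ((n : ℝ) + 1) ^ 3 * Real.exp (-(Λ * √(n : ℝ))) * Real.exp 1 ^ k) :=
            mul_le_mul_of_nonneg_left key hc
        _ = _ := by
          rw [mul_pow (Real.exp 1)]
          ring
    have hexp : (1 + Real.exp 1 * (s * aa)) ^ (2 * n) ≤
        Real.exp (4 * Real.exp 1 * aa * l * √(n : ℝ)) := by
      have h1 : 1 + Real.exp 1 * (s * aa) ≤ Real.exp (Real.exp 1 * (s * aa)) := by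
        have := Real.add_one_le_exp (Real.exp 1 * (s * aa))
        linarith
      refine (pow_le_pow_left₀ (by positivity) h1 _).trans ?_
      rw [← Real.exp_nat_mul]
      refine Real.exp_le_exp.2 ?_
      push_cast
      have h2 : (n : ℝ) * s ≤ 2 * l * √(n : ℝ) := by
        calc (n : ℝ) * s ≤ n * (2 * l / √(n : ℝ)) := mul_le_mul_of_nonneg_left hs1 (by linarith)
          _ = 2 * l * (√(n : ℝ) * √(n : ℝ)) / √(n : ℝ) := by rw [hss]; ring
          _ = _ := by field_simp
      calc 2 * (n : ℝ) * (Real.exp 1 * (s * aa)) = 2 * Real.exp 1 * aa * (n * s) := by ring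
        _ ≤ 2 * Real.exp 1 * aa * (2 * l * √(n : ℝ)) :=
          mul_le_mul_of_nonneg_left h2 (by positivity)
        _ = _ := by ring
    have e4 : (1 + Real.exp 1 * (s * aa)) ^ (2 * n) = ∑ k ∈ Finset.range (2 * n + 1),
        ((2 * n).choose k : ℝ) * (Real.exp 1 * (s * aa)) ^ k := by
      rw [add_comm, add_pow]
      refine Finset.sum_congr rfl fun k _ => ?_
      rw [one_pow]
      ring
    rw [e3]
    have hG0 : 0 ≤ 4 * gg * ((n : ℝ) + 1) ^ 3 * Real.exp (-(Λ * √(n : ℝ))) :=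
      mul_nonneg (by linarith) (Real.exp_pos _).le
    calc _ ≤ ∑ k ∈ Finset.range (2 * n + 1),
        |((2 * n).choose k : ℝ) * (s * aa) ^ k * ((if k ≤ n then RR n k else 0) - 1)| :=
          Finset.abs_sum_le_sum_abs _ _
      _ ≤ ε / 3 * (1 + s * aa) ^ (2 * n) + 4 * gg * ((n : ℝ) + 1) ^ 3 *
          Real.exp (-(Λ * √(n : ℝ))) * (1 + Real.exp 1 * (s * aa)) ^ (2 * n) := by
          rw [e1, e4, Finset.mul_sum, Finset.mul_sum, ← Finset.sum_add_distrib]
          exact Finset.sum_le_sum hterm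
      _ ≤ ε / 3 * (1 + s * aa) ^ (2 * n) + 4 * gg * ((n : ℝ) + 1) ^ 3 *
          Real.exp (-(Λ * √(n : ℝ))) * Real.exp (4 * Real.exp 1 * aa * l * √(n : ℝ)) := by
          have := mul_le_mul_of_nonneg_left hexp hG0
          linarith
      _ = ε / 3 * (1 + s * aa) ^ (2 * n) + 4 * gg * ((n : ℝ) + 1) ^ 3 * Real.exp (-√(n : ℝ)) := by
          rw [mul_assoc (4 * gg * ((n : ℝ) + 1) ^ 3), ← Real.exp_add]
          congr 3
          rw [hΛ]
          ring
      _ ≤ ε / 3 * (1 + s * aa) ^ (2 * n) + ε / 3 := by linarith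
      _ < ε * (1 + s * aa) ^ (2 * n) := by nlinarith
  exact eventually_atTop.1 hev

/-- The moment generating function converges. -/
theorem tendsto_mgf (l : ℝ) (hl : 0 < l) : Tendsto (fun n : ℕ =>
    EE n (fun y => Real.exp (l * (((y : ℝ) - 2 * aa * n) / √(n : ℝ))))) atTop
    (𝓝 (Real.exp (aa * (1 - aa) * l ^ 2))) := by
  have h1 := (tendsto_main l).mul (tendsto_ratio l hl)
  rw [mul_one] at h1
  refine h1.congr' ?_
  filter_upwards [eventually_ge_atTop 1] with n hn
  have hn' : (1 : ℝ) ≤ n := by exact_mod_cast hn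
  have hsq : 0 < √(n : ℝ) := Real.sqrt_pos.2 (by linarith)
  have hss : √(n : ℝ) * √(n : ℝ) = n := Real.mul_self_sqrt (by linarith)
  have hB : 0 < (1 + (Real.exp (l / √(n : ℝ)) - 1) * aa) ^ (2 * n) := by
    have h2 : 0 < l / √(n : ℝ) := by positivity
    have h3 := Real.add_one_lt_exp h2.ne'
    have h4 := aa_pos
    have h5 : 0 ≤ (Real.exp (l / √(n : ℝ)) - 1) * aa := mul_nonneg (by linarith) h4.le
    positivity
  have e : (fun y : ℕ => Real.exp (l * (((y : ℝ) - 2 * aa * n) / √(n : ℝ)))) =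
      fun y : ℕ => Real.exp (-(2 * aa * l * √(n : ℝ))) * (1 + (Real.exp (l / √(n : ℝ)) - 1)) ^ y := by
    funext y
    rw [add_sub_cancel, ← Real.exp_nat_mul, ← Real.exp_add]
    congr 1
    have h7 : (y : ℝ) - 2 * aa * n = y - 2 * aa * (√(n : ℝ) * √(n : ℝ)) := by rw [hss]
    rw [h7]
    field_simp
    ring
  rw [e, EE_smul, EE_pow]
  rw [mul_assoc, mul_div_cancel₀ _ hB.ne']

end Pool.Agent.R967.Mea
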