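import Pool.Agent.R967.Mea.Exp

/-!
Moments of the number of common arcs of two uniform noncrossing matchings.
-/

set_option autoImplicit false

namespace Pool.Agent.R967.Mea

open Finset Filter Topology

/-- Pairs of noncrossing matchings of `2n` points. -/
noncomputable def WW (n : ℕ) : Finset ((ℕ → ℕ) × (ℕ → ℕ)) :=
  MF (Finset.range (2 * n)) ×ˢ MF (Finset.range (2 * n))

/-- The number of common arcs. -/
def YY (n : ℕ) (p : (ℕ → ℕ) × (ℕ → ℕ)) : ℕ := Y (Finset.range (2 * n)) 0 p.1 p.2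

/-- The expectation of a function of the number of common arcs. -/
noncomputable def EE (n : ℕ) (F : ℕ → ℝ) : ℝ := (∑ p ∈ WW n, F (YY n p)) / (catalan n : ℝ) ^ 2

theorem card_WW (n : ℕ) : ((WW n).card : ℝ) = (catalan n : ℝ) ^ 2 := by
  unfold WW
  rw [Finset.card_product, card_MF, Finset.card_range, cc_even]
  push_cast
  ring

theorem cat_pos (n : ℕ) : (0 : ℝ) < (catalan n : ℝ) ^ 2 := by
  have : (0 : ℝ) < catalan n := by exact_mod_cast catalan_pos n
  positivity

theorem cat_ne (n : ℕ) : (catalan n : ℝ) ≠ 0 := by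
  have : (0 : ℝ) < catalan n := by exact_mod_cast catalan_pos n
  exact this.ne'

theorem EE_const (n : ℕ) (c : ℝ) : EE n (fun _ => c) = c := by
  unfold EE
  rw [Finset.sum_const, nsmul_eq_mul, card_WW]
  have := cat_ne n
  field_simp

theorem EE_add (n : ℕ) (F G : ℕ → ℝ) : EE n (fun y => F y + G y) = EE n F + EE n G := by
  unfold EE
  rw [Finset.sum_add_distrib, add_div]

theorem EE_smul (n : ℕ) (c : ℝ) (F : ℕ → ℝ) : EE n (fun y => c * F y) = c * EE n F := by
  unfold EE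
  rw [← Finset.mul_sum, mul_div_assoc]

theorem EE_nonneg (n : ℕ) (F : ℕ → ℝ) (hF : ∀ y, 0 ≤ F y) : 0 ≤ EE n F :=
  div_nonneg (Finset.sum_nonneg fun _ _ => hF _) (cat_pos n).le

theorem sum_WW (s : ℝ) (hs : s ≠ 0) (n : ℕ) : ∑ p ∈ WW n, (1 + s) ^ (YY n p) =
    (catalan n : ℝ) ^ 2 * ∑ k ∈ Finset.range (n + 1),
      ((2 * n).choose k : ℝ) * (s * aa) ^ k * RR n k := by
  rw [← Ph_RR s hs n, ← NN_range]
  have := cat_ne n
  have h : ∑ p ∈ WW n, (1 + s) ^ (YY n p) = NN s (Finset.range (2 * n)) 0 := by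
    unfold WW NN YY
    rw [Finset.sum_product]
  rw [h]
  field_simp

open Polynomial in
theorem poly_eq (n : ℕ) : (∑ p ∈ WW n, (1 + X : ℝ[X]) ^ (YY n p)) =
    ∑ k ∈ Finset.range (n + 1),
      C ((catalan n : ℝ) ^ 2 * (((2 * n).choose k : ℝ) * aa ^ k * RR n k)) * X ^ k := by
  refine Polynomial.eq_of_infinite_eval_eq _ _ ?_
  refine Set.Infinite.mono (s := {0}ᶜ) ?_ (Set.Finite.infinite_compl (Set.finite_singleton 0))
  intro s hs
  have hs' : s ≠ 0 := by simpa using hs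
  simp only [Set.mem_ofPred_eq, Polynomial.eval_finsetSum, Polynomial.eval_pow,
    Polynomial.eval_add, Polynomial.eval_one, Polynomial.eval_X, Polynomial.eval_mul,
    Polynomial.eval_C]
  rw [sum_WW s hs' n, Finset.mul_sum]
  refine Finset.sum_congr rfl fun k _ => ?_
  rw [mul_pow]
  ring

theorem EE_choose {n k : ℕ} (hk : k ≤ n) : EE n (fun y => (y.choose k : ℝ)) =
    ((2 * n).choose k : ℝ) * aa ^ k * RR n k := by
  have h := congrArg (fun p => Polynomial.coeff p k) (poly_eq n)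
  simp only [Polynomial.finsetSum_coeff, Polynomial.coeff_one_add_X_pow,
    Polynomial.coeff_C_mul_X_pow] at h
  rw [Finset.sum_ite_eq, if_pos (Finset.mem_range.2 (by omega))] at h
  unfold EE
  rw [h]
  have := cat_ne n
  field_simp

theorem EE_pow (n : ℕ) (s : ℝ) : EE n (fun y => (1 + s) ^ y) =
    ∑ k ∈ Finset.range (n + 1), ((2 * n).choose k : ℝ) * (s * aa) ^ k * RR n k := by
  have h := congrArg (fun p => Polynomial.eval s p) (poly_eq n)
  simp only [Polynomial.eval_finsetSum, Polynomial.eval_pow,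
    Polynomial.eval_add, Polynomial.eval_one, Polynomial.eval_X, Polynomial.eval_mul,
    Polynomial.eval_C] at h
  unfold EE
  rw [h, Finset.sum_div]
  refine Finset.sum_congr rfl fun k _ => ?_
  have := cat_ne n
  rw [mul_pow]
  field_simp

/-- The mean. -/
noncomputable def mm (n : ℕ) : ℝ := EE n (fun y => (y : ℝ))

/-- The variance. -/
noncomputable def vv (n : ℕ) : ℝ := EE n (fun y => ((y : ℝ) - mm n) ^ 2)

theorem mm_eq {n : ℕ} (hn : 1 ≤ n) : mm n = 2 * n * aa * RR n 1 := by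
  have h := EE_choose hn
  simp only [Nat.choose_one_right, pow_one] at h
  unfold mm
  rw [h]
  push_cast
  ring

theorem sq_eq {n : ℕ} (hn : 2 ≤ n) : EE n (fun y => (y : ℝ) ^ 2) =
    2 * n * (2 * n - 1) * aa ^ 2 * RR n 2 + 2 * n * aa * RR n 1 := by
  have h := EE_choose hn
  have h1 : (fun y : ℕ => (y : ℝ) ^ 2) = fun y : ℕ => 2 * (y.choose 2 : ℝ) + (y : ℝ) := by
    funext y
    rw [Nat.cast_choose_two]
    ring
  rw [h1, EE_add n (fun y : ℕ => 2 * (y.choose 2 : ℝ)) (fun y => (y : ℝ)), EE_smul, h,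
    Nat.cast_choose_two]
  have h2 := mm_eq (show 1 ≤ n by omega)
  unfold mm at h2
  rw [h2]
  push_cast
  ring

theorem vv_eq' (n : ℕ) : vv n = EE n (fun y => (y : ℝ) ^ 2) - (mm n) ^ 2 := by
  unfold vv
  have h1 : (fun y : ℕ => ((y : ℝ) - mm n) ^ 2) = fun y : ℕ => ((y : ℝ) ^ 2 + (-(2 * mm n)) * y) +
      (mm n) ^ 2 := by
    funext y
    ring
  rw [h1, EE_add n (fun y : ℕ => (y : ℝ) ^ 2 + (-(2 * mm n)) * y) (fun _ => (mm n) ^ 2), EE_const,
    EE_add n (fun y : ℕ => (y : ℝ) ^ 2) (fun y => (-(2 * mm n)) * y), EE_smul]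
  unfold mm
  ring

theorem tendsto_RR (k : ℕ) (hk : 1 ≤ k) : Tendsto (fun n => RR n k) atTop (𝓝 1) := by
  have h1 := (RR_exp k hk).mul (tendsto_one_div_atTop_nhds_zero_nat (𝕜 := ℝ))
  rw [mul_zero] at h1
  have h2 := h1.add_const 1
  rw [zero_add] at h2
  refine h2.congr' ?_
  filter_upwards [eventually_ge_atTop 1] with n hn
  have : (0 : ℝ) < n := by exact_mod_cast hn
  field_simp
  ring

/-- The mean is linear up to a convergent term. -/
theorem tendsto_mm : Tendsto (fun n : ℕ => mm n - 2 * aa * n) atTop (𝓝 (6 * aa * (1 + mu1))) := by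
  have h := (RR_exp 1 le_rfl).const_mul (2 * aa)
  have e : 2 * aa * (3 * (1 : ℕ) * (1 + mu1)) = 6 * aa * (1 + mu1) := by push_cast; ring
  rw [e] at h
  refine h.congr' ?_
  filter_upwards [eventually_ge_atTop 1] with n hn
  rw [mm_eq hn]
  ring

/-- The variance is linear. -/
theorem tendsto_vv : Tendsto (fun n : ℕ => vv n / n) atTop (𝓝 (2 * aa * (1 - aa))) := by
  have h1 := RR_exp 1 le_rfl
  have h2 := RR_exp 2 (by norm_num)
  have t1 := tendsto_RR 1 le_rfl
  have t2 := tendsto_RR 2 (by norm_num)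
  have h3 : Tendsto (fun n : ℕ => 4 * aa ^ 2 * ((n : ℝ) * (RR n 2 - 1) -
      ((n : ℝ) * (RR n 1 - 1)) * (RR n 1 + 1)) - 2 * aa ^ 2 * RR n 2 + 2 * aa * RR n 1) atTop
      (𝓝 (4 * aa ^ 2 * ((3 * (2 : ℕ) * (1 + mu1)) - (3 * (1 : ℕ) * (1 + mu1)) * (1 + 1)) -
        2 * aa ^ 2 * 1 + 2 * aa * 1)) :=
    (((h2.sub (h1.mul (t1.add_const 1))).const_mul _).sub (t2.const_mul _)).add (t1.const_mul _)
  have e : (4 * aa ^ 2 * ((3 * (2 : ℕ) * (1 + mu1)) - (3 * (1 : ℕ) * (1 + mu1)) * (1 + 1)) -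
        2 * aa ^ 2 * 1 + 2 * aa * 1) = 2 * aa * (1 - aa) := by push_cast; ring
  rw [e] at h3
  refine h3.congr' ?_
  filter_upwards [eventually_ge_atTop 2] with n hn
  have hn' : (0 : ℝ) < n := by
    have : 0 < n := by omega
    exact_mod_cast this
  rw [vv_eq', sq_eq hn, mm_eq (by omega)]
  field_simp
  ring

theorem aa_pos : 0 < aa := div_pos gg_pos (by norm_num)

theorem aa_lt : aa < 1 / 4 := by
  rw [aa_eq]
  have h := Real.pi_gt_three
  have : 1 / Real.pi < 1 / 3 := one_div_lt_one_div_of_lt (by norm_num) h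
  linarith

end Pool.Agent.R967.Mea
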