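import Pool.Agent.R967.Mea.Match

/-!
The generating polynomial of the number of common arcs of two non-crossing matchings.
-/

set_option autoImplicit false

namespace Pool.Agent.R967.Mea

open Finset

/-- The number of the common arcs of `f` and `g` with right end at least `q`. -/
def Y (A : Finset ℕ) (q : ℕ) (f g : ℕ → ℕ) : ℕ :=
  (A.filter (fun x => q ≤ x ∧ f x = g x ∧ f x < x)).card

/-- The weighted sum. -/
noncomputable def NN (s : ℝ) (A : Finset ℕ) (q : ℕ) : ℝ :=
  ∑ f ∈ MF A, ∑ g ∈ MF A, (1 + s) ^ (Y A q f g)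

/-- squares -/
def dd (n : ℕ) : ℝ := (cc n : ℝ) ^ 2

/-- The recursion. -/
noncomputable def Ph (s : ℝ) : ℕ → ℕ → ℝ
  | 0, h => dd h
  | L + 1, h => Ph s L (h + 1) + s * ∑ i ∈ Finset.range h, dd i * Ph s L (h - 1 - i)

theorem Y_glue {A : Finset ℕ} {a b : ℕ} (ha : a ∈ A) (hb : b ∈ A) (hab : a < b)
    (f₁ f₂ g₁ g₂ : ℕ → ℕ) :
    Y A (b + 1) (glue A a b f₁ f₂) (glue A a b g₁ g₂) = Y (Out A a b) (b + 1) f₂ g₂ := by
  unfold Y
  congr 1
  ext x
  rw [Finset.mem_filter, Finset.mem_filter]
  constructor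
  · rintro ⟨h1, h2, h3, h4⟩
    have h5 : x ∈ Out A a b := mem_Out.2 ⟨h1, Or.inr (by omega)⟩
    rw [glue_Out hab h5, glue_Out hab h5] at h3
    rw [glue_Out hab h5] at h4
    exact ⟨h5, h2, h3, h4⟩
  · rintro ⟨h1, h2, h3, h4⟩
    have h5 := h1
    rw [glue_Out hab h5, glue_Out hab h5]
    exact ⟨(mem_Out.1 h1).1, h2, h3, h4⟩

theorem Y_succ {A : Finset ℕ} {b : ℕ} (hb : b ∈ A) (f g : ℕ → ℕ) :
    Y A b f g = Y A (b + 1) f g + if f b = g b ∧ f b < b then 1 else 0 := by
  classical
  unfold Y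
  by_cases h : f b = g b ∧ f b < b
  · rw [if_pos h]
    have : A.filter (fun x => b ≤ x ∧ f x = g x ∧ f x < x) =
        insert b (A.filter (fun x => b + 1 ≤ x ∧ f x = g x ∧ f x < x)) := by
      ext x
      rw [Finset.mem_filter, Finset.mem_insert, Finset.mem_filter]
      constructor
      · rintro ⟨h1, h2, h3⟩
        rcases Nat.lt_or_ge b x with h4 | h4
        · exact Or.inr ⟨h1, h4, h3⟩
        · exact Or.inl (by omega)
      · rintro (rfl | ⟨h1, h2, h3⟩)
        · exact ⟨hb, le_rfl, h⟩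
        · exact ⟨h1, by omega, h3⟩
    rw [this, Finset.card_insert_of_notMem]
    rw [Finset.mem_filter]
    omega
  · rw [if_neg h, add_zero]
    congr 1
    ext x
    rw [Finset.mem_filter, Finset.mem_filter]
    constructor
    · rintro ⟨h1, h2, h3⟩
      rcases Nat.lt_or_ge b x with h4 | h4
      · exact ⟨h1, h4, h3⟩
      · have : x = b := by omega
        subst this
        exact absurd h3 h
    · rintro ⟨h1, h2, h3⟩
      exact ⟨h1, by omega, h3⟩

theorem Y_eq {A : Finset ℕ} {q q' : ℕ} (h : ∀ x ∈ A, q ≤ x ↔ q' ≤ x) (f g : ℕ → ℕ) :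
    Y A q f g = Y A q' f g := by
  unfold Y
  congr 1
  ext x
  rw [Finset.mem_filter, Finset.mem_filter]
  constructor
  · rintro ⟨h1, h2, h3⟩
    exact ⟨h1, (h x h1).1 h2, h3⟩
  · rintro ⟨h1, h2, h3⟩
    exact ⟨h1, (h x h1).2 h2, h3⟩

theorem NN_eq {s : ℝ} {A : Finset ℕ} {q q' : ℕ} (h : ∀ x ∈ A, q ≤ x ↔ q' ≤ x) :
    NN s A q = NN s A q' := by
  unfold NN
  refine Finset.sum_congr rfl fun f _ => Finset.sum_congr rfl fun g _ => ?_
  rw [Y_eq h]

theorem NN_base {s : ℝ} {A : Finset ℕ} {q : ℕ} (h : ∀ x ∈ A, x < q) : NN s A q = dd A.card := by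
  have h1 : ∀ f g : ℕ → ℕ, Y A q f g = 0 := by
    intro f g
    unfold Y
    rw [Finset.card_eq_zero, Finset.filter_eq_empty_iff]
    intro x hx h2
    have := h x hx
    omega
  unfold NN
  simp only [h1, pow_zero, Finset.sum_const, nsmul_eq_mul, mul_one]
  rw [card_MF]
  unfold dd
  ring

/-- One step. -/
theorem NN_step (s : ℝ) {A : Finset ℕ} {b : ℕ} (hb : b ∈ A) :
    NN s A b = NN s A (b + 1) + s * ∑ a ∈ A.filter (fun x => x < b),
      dd (In A a b).card * NN s (Out A a b) (b + 1) := by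
  classical
  have h1 : ∀ f ∈ MF A, ∀ g ∈ MF A, (1 + s) ^ (Y A b f g) = (1 + s) ^ (Y A (b + 1) f g) +
      s * ∑ a ∈ A.filter (fun x => x < b),
        (if f a = b ∧ g a = b then (1 + s) ^ (Y A (b + 1) f g) else 0) := by
    intro f hf g hg
    rw [mem_MF] at hf hg
    rw [Y_succ hb]
    by_cases h : f b = g b ∧ f b < b
    · rw [if_pos h, Finset.sum_eq_single (f b)]
      · rw [if_pos ⟨hf.inv b hb, by rw [h.1]; exact hg.inv b hb⟩, pow_succ]
        ring
      · intro a ha hne
        rw [if_neg]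
        rintro ⟨h2, -⟩
        apply hne
        rw [← h2, hf.inv a (Finset.mem_filter.1 ha).1]
      · intro hcon
        exact absurd (Finset.mem_filter.2 ⟨hf.mem b hb, h.2⟩) hcon
    · rw [if_neg h, add_zero, Finset.sum_eq_zero, mul_zero, add_zero]
      intro a ha
      obtain ⟨ha1, ha2⟩ := Finset.mem_filter.1 ha
      rw [if_neg]
      rintro ⟨h2, h3⟩
      apply h
      have h4 : f b = a := by rw [← h2, hf.inv a ha1]
      have h5 : g b = a := by rw [← h3, hg.inv a ha1]
      rw [h4, h5]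
      exact ⟨rfl, ha2⟩
  have h2 : NN s A b = ∑ f ∈ MF A, ∑ g ∈ MF A, ((1 + s) ^ (Y A (b + 1) f g) +
      s * ∑ a ∈ A.filter (fun x => x < b),
        (if f a = b ∧ g a = b then (1 + s) ^ (Y A (b + 1) f g) else 0)) := by
    unfold NN
    exact Finset.sum_congr rfl fun f hf => Finset.sum_congr rfl fun g hg => h1 f hf g hg
  rw [h2]
  simp only [Finset.sum_add_distrib]
  congr 1
  simp only [← Finset.mul_sum]
  congr 1
  have h3 : ∑ f ∈ MF A, ∑ g ∈ MF A, ∑ a ∈ A.filter (fun x => x < b),
        (if f a = b ∧ g a = b then (1 + s) ^ (Y A (b + 1) f g) else 0) =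
      ∑ a ∈ A.filter (fun x => x < b), ∑ f ∈ MF A, ∑ g ∈ MF A,
        (if f a = b ∧ g a = b then (1 + s) ^ (Y A (b + 1) f g) else 0) := by
    have : ∀ f ∈ MF A, ∑ g ∈ MF A, ∑ a ∈ A.filter (fun x => x < b),
        (if f a = b ∧ g a = b then (1 + s) ^ (Y A (b + 1) f g) else 0) =
        ∑ a ∈ A.filter (fun x => x < b), ∑ g ∈ MF A,
          (if f a = b ∧ g a = b then (1 + s) ^ (Y A (b + 1) f g) else 0) :=
      fun f _ => Finset.sum_comm
    rw [Finset.sum_congr rfl this]
    exact Finset.sum_comm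
  rw [h3]
  refine Finset.sum_congr rfl fun a ha => ?_
  obtain ⟨ha1, ha2⟩ := Finset.mem_filter.1 ha
  have h4 : ∑ f ∈ MF A, ∑ g ∈ MF A,
        (if f a = b ∧ g a = b then (1 + s) ^ (Y A (b + 1) f g) else 0) =
      ∑ f ∈ (MF A).filter (fun f => f a = b), ∑ g ∈ (MF A).filter (fun g => g a = b),
        (1 + s) ^ (Y A (b + 1) f g) := by
    rw [Finset.sum_filter]
    refine Finset.sum_congr rfl fun f _ => ?_
    by_cases hf : f a = b
    · rw [if_pos hf, Finset.sum_filter]
      refine Finset.sum_congr rfl fun g _ => ?_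
      simp [hf]
    · rw [if_neg hf]
      exact Finset.sum_eq_zero fun g _ => by simp [hf]
  rw [h4, sum_arc ha1 hb ha2]
  have h5 : ∀ f₁ f₂ : ℕ → ℕ, ∑ g ∈ (MF A).filter (fun g => g a = b),
      (1 + s) ^ (Y A (b + 1) (glue A a b f₁ f₂) g) =
      ∑ g₁ ∈ MF (In A a b), ∑ g₂ ∈ MF (Out A a b), (1 + s) ^ (Y (Out A a b) (b + 1) f₂ g₂) := by
    intro f₁ f₂
    rw [sum_arc ha1 hb ha2]
    refine Finset.sum_congr rfl fun g₁ _ => Finset.sum_congr rfl fun g₂ _ => ?_
    rw [Y_glue ha1 hb ha2]
  simp only [h5]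
  unfold NN dd
  simp only [Finset.sum_const, nsmul_eq_mul, ← Finset.mul_sum]
  rw [card_MF]
  ring

theorem NN_Ph (s : ℝ) (L : ℕ) : ∀ (A : Finset ℕ) (q : ℕ),
    (A.filter (fun x => q ≤ x)).card = L → NN s A q = Ph s L (A.filter (fun x => x < q)).card := by
  classical
  induction L with
  | zero =>
    intro A q h
    rw [Finset.card_eq_zero, Finset.filter_eq_empty_iff] at h
    have h1 : ∀ x ∈ A, x < q := fun x hx => not_le.1 (h hx)
    rw [NN_base h1, Finset.filter_true_of_mem h1]
    rfl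
  | succ L ih =>
    intro A q h
    have hne : (A.filter (fun x => q ≤ x)).Nonempty := by
      rw [← Finset.card_pos, h]
      omega
    obtain ⟨b, hb⟩ : ∃ b, b = (A.filter (fun x => q ≤ x)).min' hne := ⟨_, rfl⟩
    have hb1 : b ∈ A.filter (fun x => q ≤ x) := hb ▸ Finset.min'_mem _ hne
    have hb2 : ∀ x ∈ A, q ≤ x → b ≤ x := fun x hx hqx =>
      hb ▸ Finset.min'_le _ x (Finset.mem_filter.2 ⟨hx, hqx⟩)
    obtain ⟨hbA, hqb⟩ := Finset.mem_filter.1 hb1
    have hcong : ∀ x ∈ A, q ≤ x ↔ b ≤ x := fun x hx => ⟨hb2 x hx, fun h => hqb.trans h⟩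
    have e1 : A.filter (fun x => x < q) = A.filter (fun x => x < b) := by
      ext x
      rw [Finset.mem_filter, Finset.mem_filter]
      constructor
      · rintro ⟨h1, h2⟩
        exact ⟨h1, by omega⟩
      · rintro ⟨h1, h2⟩
        refine ⟨h1, ?_⟩
        by_contra h3
        have := hb2 x h1 (not_lt.1 h3)
        omega
    have e2 : A.filter (fun x => q ≤ x) = insert b (A.filter (fun x => b + 1 ≤ x)) := by
      ext x
      rw [Finset.mem_filter, Finset.mem_insert, Finset.mem_filter]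
      constructor
      · rintro ⟨h1, h2⟩
        rcases Nat.lt_or_ge b x with h4 | h4
        · exact Or.inr ⟨h1, h4⟩
        · exact Or.inl (le_antisymm h4 (hb2 x h1 h2))
      · rintro (rfl | ⟨h1, h2⟩)
        · exact ⟨hbA, hqb⟩
        · exact ⟨h1, by omega⟩
    have e3 : (A.filter (fun x => b + 1 ≤ x)).card = L := by
      rw [e2, Finset.card_insert_of_notMem (by rw [Finset.mem_filter]; omega)] at h
      omega
    rw [NN_eq hcong, NN_step s hbA, e1]
    obtain ⟨S, hS⟩ : ∃ S, S = A.filter (fun x => x < b) := ⟨_, rfl⟩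
    rw [← hS]
    have e4 : A.filter (fun x => x < b + 1) = insert b S := by
      ext x
      rw [hS, Finset.mem_filter, Finset.mem_insert, Finset.mem_filter]
      constructor
      · rintro ⟨h1, h2⟩
        rcases Nat.lt_or_ge x b with h4 | h4
        · exact Or.inr ⟨h1, h4⟩
        · exact Or.inl (by omega)
      · rintro (rfl | ⟨h1, h2⟩)
        · exact ⟨hbA, by omega⟩
        · exact ⟨h1, by omega⟩
    have hbS : b ∉ S := by
      rw [hS, Finset.mem_filter]
      omega
    have e5 : NN s A (b + 1) = Ph s L (S.card + 1) := by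
      rw [ih A (b + 1) e3, e4, Finset.card_insert_of_notMem hbS]
    rw [e5]
    show _ = Ph s L (S.card + 1) + s * ∑ i ∈ Finset.range S.card, dd i * Ph s L (S.card - 1 - i)
    congr 2
    rw [← sum_rank S (fun i => dd i * Ph s L (S.card - 1 - i))]
    refine Finset.sum_congr rfl fun a ha => ?_
    have ha' := ha
    rw [hS] at ha'
    obtain ⟨haA, hab⟩ := Finset.mem_filter.1 ha'
    have e6 : In A a b = S.filter (fun x => a < x) := by
      ext x
      rw [mem_In, Finset.mem_filter, hS, Finset.mem_filter]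
      constructor
      · rintro ⟨h1, h2, h3⟩
        exact ⟨⟨h1, h3⟩, h2⟩
      · rintro ⟨⟨h1, h3⟩, h2⟩
        exact ⟨h1, h2, h3⟩
    have e7 : (Out A a b).filter (fun x => b + 1 ≤ x) = A.filter (fun x => b + 1 ≤ x) := by
      ext x
      rw [Finset.mem_filter, mem_Out, Finset.mem_filter]
      constructor
      · rintro ⟨⟨h1, h2⟩, h3⟩
        exact ⟨h1, h3⟩
      · rintro ⟨h1, h2⟩
        exact ⟨⟨h1, Or.inr h2⟩, h2⟩
    have e8 : (Out A a b).filter (fun x => x < b + 1) = S.filter (fun x => x < a) := by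
      ext x
      rw [Finset.mem_filter, mem_Out, Finset.mem_filter, hS, Finset.mem_filter]
      constructor
      · rintro ⟨⟨h1, h2⟩, h3⟩
        have : x < a := by omega
        exact ⟨⟨h1, by omega⟩, this⟩
      · rintro ⟨⟨h1, h2⟩, h3⟩
        exact ⟨⟨h1, Or.inl h3⟩, by omega⟩
    have e9 : (S.filter (fun x => x < a)).card = S.card - 1 - (S.filter (fun x => a < x)).card := by
      have e10 : S = insert a (S.filter (fun x => x < a) ∪ S.filter (fun x => a < x)) := by
        ext x
        simp only [Finset.mem_insert, Finset.mem_union, Finset.mem_filter]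
        constructor
        · intro hx
          rcases lt_trichotomy x a with h | h | h
          · exact Or.inr (Or.inl ⟨hx, h⟩)
          · exact Or.inl h
          · exact Or.inr (Or.inr ⟨hx, h⟩)
        · rintro (rfl | ⟨h, -⟩ | ⟨h, -⟩)
          · exact ha
          · exact h
          · exact h
      have d1 : Disjoint (S.filter (fun x => x < a)) (S.filter (fun x => a < x)) := by
        rw [Finset.disjoint_left]
        intro x h h'
        rw [Finset.mem_filter] at h h'
        omega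
      have n1 : a ∉ S.filter (fun x => x < a) ∪ S.filter (fun x => a < x) := by
        rw [Finset.mem_union, Finset.mem_filter, Finset.mem_filter]
        omega
      have e11 := congrArg Finset.card e10
      rw [Finset.card_insert_of_notMem n1, Finset.card_union_of_disjoint d1] at e11
      omega
    rw [e6, ih (Out A a b) (b + 1) (by rw [e7]; exact e3), e8, e9]

/-- The generating polynomial of the number of common arcs. -/
theorem NN_range (s : ℝ) (N : ℕ) : NN s (Finset.range N) 0 = Ph s N 0 := by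
  have h := NN_Ph s N (Finset.range N) 0 (by simp)
  simpa using h

end Pool.Agent.R967.Mea
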