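import Pool.Agent.R967.Mea.Cyc

/-!
The squares of the Catalan numbers, and the generating polynomial in terms of random sums.
-/

set_option autoImplicit false

namespace Pool.Agent.R967.Mea

open Finset Filter Topology

/-- Normalised squares of the Catalan numbers. -/
noncomputable def bb (m : ℕ) : ℝ := (catalan m : ℝ) ^ 2 / 16 ^ m

theorem bb_zero : bb 0 = 1 := by simp [bb]

theorem catalan_pos (m : ℕ) : 0 < catalan m := by
  have h := succ_mul_catalan_eq_centralBinom m
  have h2 := Nat.centralBinom_pos m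
  rw [← h] at h2
  exact Nat.pos_of_ne_zero fun h0 => by simp [h0] at h2

theorem bb_pos (m : ℕ) : 0 < bb m := by
  have : (0 : ℝ) < catalan m := by exact_mod_cast catalan_pos m
  unfold bb
  positivity

theorem catalan_rec (m : ℕ) : ((m : ℝ) + 2) * catalan (m + 1) = 2 * (2 * m + 1) * catalan m := by
  have h1 := succ_mul_catalan_eq_centralBinom m
  have h2 := succ_mul_catalan_eq_centralBinom (m + 1)
  have h3 := Nat.succ_mul_centralBinom_succ m
  rw [← h1, ← h2] at h3
  have h4 : (m + 1) * ((m + 2) * catalan (m + 1)) = (m + 1) * (2 * (2 * m + 1) * catalan m) := by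
    calc (m + 1) * ((m + 2) * catalan (m + 1)) = (m + 1) * ((m + 1 + 1) * catalan (m + 1)) := by ring
      _ = 2 * (2 * m + 1) * ((m + 1) * catalan m) := h3
      _ = _ := by ring
  have h5 := Nat.eq_of_mul_eq_mul_left (Nat.succ_pos m) h4
  exact_mod_cast h5

theorem bb_succ (m : ℕ) : bb (m + 1) * (4 * ((m : ℝ) + 2) ^ 2) = bb m * (2 * m + 1) ^ 2 := by
  have h := catalan_rec m
  unfold bb
  rw [pow_succ (16 : ℝ) m]
  have h16 : (16 : ℝ) ^ m ≠ 0 := by positivity
  field_simp
  have h2 : (((m : ℝ) + 2) * catalan (m + 1)) ^ 2 = (2 * (2 * m + 1) * catalan m) ^ 2 := by rw [h]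
  nlinarith [h2]

theorem bb_anti : Antitone bb := by
  refine antitone_nat_of_succ_le fun m => ?_
  have h := bb_succ m
  have h1 := bb_pos m
  have h2 : (0 : ℝ) < 4 * ((m : ℝ) + 2) ^ 2 := by positivity
  by_contra hcon
  push Not at hcon
  have h3 : bb m * (4 * ((m : ℝ) + 2) ^ 2) < bb (m + 1) * (4 * ((m : ℝ) + 2) ^ 2) :=
    mul_lt_mul_of_pos_right hcon h2
  rw [h] at h3
  have h4 := (mul_lt_mul_iff_right₀ h1).1 h3
  nlinarith [Nat.cast_nonneg (α := ℝ) m]

/-- `(m + 1) ^ 3 bb m` decreases. -/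
theorem bbU_anti : Antitone (fun m : ℕ => bb m * ((m : ℝ) + 1) ^ 3) := by
  refine antitone_nat_of_succ_le fun m => ?_
  have h := bb_succ m
  have h1 := bb_pos m
  have hm : (0 : ℝ) ≤ m := Nat.cast_nonneg m
  push_cast
  have h2 : bb (m + 1) * ((m : ℝ) + 1 + 1) ^ 3 = bb m * (2 * m + 1) ^ 2 * ((m : ℝ) + 2) / 4 := by
    rw [← h]
    ring
  rw [h2, mul_assoc, mul_div_assoc]
  refine mul_le_mul_of_nonneg_left ?_ h1.le
  nlinarith [mul_nonneg hm hm]

theorem bb_le (m : ℕ) : bb m ≤ 1 / ((m : ℝ) + 1) ^ 3 := by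
  have h := bbU_anti (Nat.zero_le m)
  simp only [bb_zero, Nat.cast_zero, zero_add, one_pow, mul_one] at h
  rw [le_div_iff₀ (by positivity)]
  exact h

/-- Telescoping. -/
noncomputable def bT (m : ℕ) : ℝ := bb m * (((m : ℝ) + 1) ^ 2 * (16 * m + 4))

theorem bT_succ (m : ℕ) : bT (m + 1) = bT m + bb m := by
  have h := bb_succ m
  unfold bT
  push_cast
  have h2 : bb (m + 1) * (((m : ℝ) + 1 + 1) ^ 2 * (16 * (m + 1) + 4)) =
      bb m * (2 * m + 1) ^ 2 * (4 * m + 5) := by
    rw [← h]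
    ring
  rw [h2]
  ring

theorem bT_zero : bT 0 = 4 := by
  simp [bT, bb_zero]

theorem sum_bb (m : ℕ) : ∑ i ∈ Finset.range m, bb i = bT m - 4 := by
  induction m with
  | zero => simp [bT_zero]
  | succ m ih =>
    rw [Finset.sum_range_succ, ih, bT_succ]
    ring

theorem bT_mono : Monotone bT := by
  refine monotone_nat_of_le_succ fun m => ?_
  rw [bT_succ]
  linarith [bb_pos m]

theorem le_bb (m : ℕ) : 1 / (4 * ((m : ℝ) + 1) ^ 3) ≤ bb m := by
  have h := bT_mono (Nat.zero_le m)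
  rw [bT_zero] at h
  unfold bT at h
  have h1 := bb_pos m
  rw [div_le_iff₀ (by positivity)]
  have h2 : bb m * (((m : ℝ) + 1) ^ 2 * (16 * m + 4)) ≤ bb m * (((m : ℝ) + 1) ^ 2 * (16 * (m + 1))) := by
    refine mul_le_mul_of_nonneg_left (mul_le_mul_of_nonneg_left ?_ (by positivity)) h1.le
    linarith
  nlinarith

theorem bT_eq (m : ℕ) : bT m = (16 * m + 4) / ((2 * m + 1) * Real.Wallis.W m) := by
  have hW : ∀ k, 0 < Real.Wallis.W k := Real.Wallis.W_pos
  induction m with
  | zero => simp [bT_zero, Real.Wallis.W]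
  | succ m ih =>
    have h1 : bT (m + 1) * ((16 * (m : ℝ) + 4) * (4 * ((m : ℝ) + 1) ^ 2)) =
        bT m * ((16 * ((m : ℝ) + 1) + 4) * (2 * m + 1) ^ 2) := by
      unfold bT
      have h := bb_succ m
      push_cast
      have h2 : bb (m + 1) * (((m : ℝ) + 1 + 1) ^ 2 * (16 * (m + 1) + 4)) *
          ((16 * (m : ℝ) + 4) * (4 * ((m : ℝ) + 1) ^ 2)) = (bb (m + 1) * (4 * ((m : ℝ) + 2) ^ 2)) *
          ((16 * (m + 1) + 4) * (16 * (m : ℝ) + 4) * ((m : ℝ) + 1) ^ 2) := by ring
      rw [h2, h]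
      ring
    rw [ih] at h1
    rw [Real.Wallis.W_succ]
    have hWm := hW m
    have hm : (0 : ℝ) ≤ m := Nat.cast_nonneg m
    have h3 : bT (m + 1) = (16 * (m : ℝ) + 4) / ((2 * m + 1) * Real.Wallis.W m) *
        ((16 * ((m : ℝ) + 1) + 4) * (2 * m + 1) ^ 2) / ((16 * (m : ℝ) + 4) * (4 * ((m : ℝ) + 1) ^ 2)) := by
      rw [← h1]
      field_simp
    rw [h3]
    push_cast
    field_simp
    ring

theorem tendsto_bT : Tendsto bT atTop (𝓝 (16 / Real.pi)) := by
  have h1 := Real.Wallis.tendsto_W_nhds_pi_div_two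
  have h2 : Tendsto (fun m : ℕ => (16 * (m : ℝ) + 4) / (2 * m + 1)) atTop (𝓝 8) := by
    have h3 : Tendsto (fun m : ℕ => 8 - 4 / (2 * (m : ℝ) + 1)) atTop (𝓝 (8 - 0)) := by
      refine tendsto_const_nhds.sub ?_
      refine Tendsto.div_atTop tendsto_const_nhds ?_
      refine tendsto_atTop_add_const_right _ _ ?_
      exact (tendsto_natCast_atTop_atTop).const_mul_atTop (by norm_num)
    rw [sub_zero] at h3
    refine h3.congr fun m => ?_
    have : (2 * (m : ℝ) + 1) ≠ 0 := by positivity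
    field_simp
    ring
  have h4 := h2.div h1 (by positivity)
  have e : (8 : ℝ) / (Real.pi / 2) = 16 / Real.pi := by
    field_simp
    norm_num
  rw [e] at h4
  refine h4.congr fun m => ?_
  rw [bT_eq, Pi.div_apply, div_div]

theorem hasSum_bb : HasSum bb (16 / Real.pi - 4) := by
  rw [hasSum_iff_tendsto_nat_of_nonneg (fun i => (bb_pos i).le)]
  refine (tendsto_bT.sub_const 4).congr fun m => ?_
  rw [sum_bb]

/-- The sum of the normalised squares of the Catalan numbers. -/
noncomputable def gg : ℝ := 16 / Real.pi - 4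

theorem hasSum_gg : HasSum bb gg := hasSum_bb

theorem one_le_gg : 1 ≤ gg := by
  have h := sum_le_hasSum (Finset.range 1) (fun i _ => (bb_pos i).le) hasSum_gg
  simpa [bb_zero] using h

theorem gg_pos : 0 < gg := lt_of_lt_of_le one_pos one_le_gg

/-- The probabilities. -/
noncomputable def pp (m : ℕ) : ℝ := bb m / gg

theorem pp_pos (m : ℕ) : 0 < pp m := div_pos (bb_pos m) gg_pos

theorem hasSum_pp : HasSum pp 1 := by
  have h := hasSum_gg.div_const gg
  rw [div_self gg_pos.ne'] at h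
  exact h

theorem pp_anti : Antitone pp := fun _ _ h => div_le_div_of_nonneg_right (bb_anti h) gg_pos.le

theorem pp_le (m : ℕ) : pp m ≤ 1 / ((m : ℝ) + 1) ^ 3 := by
  unfold pp
  rw [div_le_iff₀ gg_pos]
  refine (bb_le m).trans ?_
  have : 0 ≤ 1 / ((m : ℝ) + 1) ^ 3 := by positivity
  nlinarith [one_le_gg]

theorem le_pp (m : ℕ) : 1 / (4 * gg) / ((m : ℝ) + 1) ^ 3 ≤ pp m := by
  unfold pp
  rw [le_div_iff₀ gg_pos]
  refine le_trans (le_of_eq ?_) (le_bb m)
  have := gg_pos
  field_simp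

/-- The power series of the probabilities. -/
noncomputable def pS : PowerSeries ℝ := PowerSeries.mk pp

/-- The law of the sum of `k` independent variables. -/
noncomputable def qq (k m : ℕ) : ℝ := PowerSeries.coeff m (pS ^ k)

/-- The power series of the squares of the Catalan numbers. -/
noncomputable def GS : PowerSeries ℝ := PowerSeries.mk (fun m => (catalan m : ℝ) ^ 2)

theorem dd_even (m : ℕ) : dd (2 * m) = (catalan m : ℝ) ^ 2 := by
  unfold dd
  rw [cc_even]

theorem dd_odd (m : ℕ) : dd (2 * m + 1) = 0 := by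
  unfold dd
  rw [cc_odd]
  simp

theorem sum_even {f : ℕ → ℝ} (hf : ∀ m, f (2 * m + 1) = 0) (m : ℕ) :
    ∑ i ∈ Finset.range (2 * m + 1), f i = ∑ i ∈ Finset.range (m + 1), f (2 * i) := by
  induction m with
  | zero => simp
  | succ k ih =>
    rw [show 2 * (k + 1) + 1 = (2 * k + 1) + 1 + 1 by ring, Finset.sum_range_succ,
      Finset.sum_range_succ, ih, Finset.sum_range_succ _ (k + 1), hf, add_zero,
      show 2 * k + 1 + 1 = 2 * (k + 1) by ring]

theorem coeff_dS_pow (j : ℕ) : ∀ m, PowerSeries.coeff (2 * m) (dS ^ j) =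
    PowerSeries.coeff m (GS ^ j) := by
  induction j with
  | zero =>
    intro m
    simp only [pow_zero, PowerSeries.coeff_one]
    by_cases h : m = 0
    · simp [h]
    · simp [h]
  | succ j ih =>
    intro m
    rw [pow_succ', pow_succ', PowerSeries.coeff_mul, PowerSeries.coeff_mul,
      Finset.Nat.sum_antidiagonal_eq_sum_range_succ
        (fun i l => PowerSeries.coeff i dS * PowerSeries.coeff l (dS ^ j)),
      Finset.Nat.sum_antidiagonal_eq_sum_range_succ
        (fun i l => PowerSeries.coeff i GS * PowerSeries.coeff l (GS ^ j)), sum_even]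
    · refine Finset.sum_congr rfl fun i hi => ?_
      rw [Finset.mem_range] at hi
      rw [← Nat.mul_sub, ih]
      simp [dS, GS, dd_even]
    · intro i
      simp [dS, dd_odd]

theorem pS_eq : PowerSeries.rescale (1/16 : ℝ) GS = PowerSeries.C gg * pS := by
  ext m
  rw [PowerSeries.coeff_rescale, PowerSeries.coeff_C_mul]
  simp only [GS, pS, PowerSeries.coeff_mk, pp, bb]
  have := gg_pos
  rw [one_div, inv_pow]
  field_simp

theorem coeff_GS_pow (j m : ℕ) : PowerSeries.coeff m (GS ^ j) = 16 ^ m * gg ^ j * qq j m := by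
  have h1 : PowerSeries.rescale (1/16 : ℝ) (GS ^ j) = PowerSeries.C (gg ^ j) * pS ^ j := by
    rw [map_pow, pS_eq, mul_pow, map_pow]
  have h2 := congrArg (PowerSeries.coeff m) h1
  rw [PowerSeries.coeff_rescale, PowerSeries.coeff_C_mul] at h2
  unfold qq
  have h3 : (16 : ℝ) ^ m * ((1 / 16) ^ m * PowerSeries.coeff m (GS ^ j)) = PowerSeries.coeff m (GS ^ j) := by
    rw [← mul_assoc, ← mul_pow]
    norm_num
  rw [← h3, h2]
  ring

/-- The ratio of the factorial moments to those of the binomial law. -/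
noncomputable def RR (N k : ℕ) : ℝ := qq (k + 1) (N - k) / ((k + 1) * pp N)

/-- The constant. -/
noncomputable def aa : ℝ := gg / 16

theorem aa_eq : aa = 1 / Real.pi - 1 / 4 := by
  unfold aa gg
  have := Real.pi_pos
  field_simp
  ring

/-- The generating polynomial in terms of the ratios. -/
theorem Ph_RR (s : ℝ) (hs : s ≠ 0) (N : ℕ) :
    Ph s (2 * N) 0 / (catalan N : ℝ) ^ 2 =
      ∑ k ∈ Finset.range (N + 1), ((2 * N).choose k : ℝ) * (s * aa) ^ k * RR N k := by
  have h := Ph_sum s (2 * N)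
  have hC : (0 : ℝ) < catalan N := by exact_mod_cast catalan_pos N
  have hN : (0 : ℝ) < ((2 * N + 1 : ℕ) : ℝ) := by positivity
  have h1 : ∑ j ∈ Finset.range (2 * N + 2), ((2 * N + 1).choose j : ℝ) * s ^ j *
      (if 2 * j ≤ 2 * N + 2 then PowerSeries.coeff (2 * N + 2 - 2 * j) (dS ^ j) else 0) =
      ∑ k ∈ Finset.range (N + 1), ((2 * N + 1).choose (k + 1) : ℝ) * s ^ (k + 1) *
        (16 ^ (N - k) * gg ^ (k + 1) * qq (k + 1) (N - k)) := by
    rw [Finset.sum_range_succ']
    have e0 : ((2 * N + 1).choose 0 : ℝ) * s ^ 0 *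
      (if 2 * 0 ≤ 2 * N + 2 then PowerSeries.coeff (2 * N + 2 - 2 * 0) (dS ^ 0) else 0) = 0 := by
      simp [PowerSeries.coeff_one]
    rw [e0, add_zero]
    have hsub : Finset.range (N + 1) ⊆ Finset.range (2 * N + 1) := by
      intro x hx
      rw [Finset.mem_range] at hx ⊢
      omega
    rw [← Finset.sum_subset hsub]
    · refine Finset.sum_congr rfl fun k hk => ?_
      rw [Finset.mem_range] at hk
      rw [if_pos (by omega), show 2 * N + 2 - 2 * (k + 1) = 2 * (N - k) by omega, coeff_dS_pow,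
        coeff_GS_pow]
    · intro k _ hk
      rw [Finset.mem_range] at hk
      rw [if_neg (by omega), mul_zero]
  rw [h1] at h
  have h2 : Ph s (2 * N) 0 = (∑ k ∈ Finset.range (N + 1), ((2 * N + 1).choose (k + 1) : ℝ) *
      s ^ (k + 1) * (16 ^ (N - k) * gg ^ (k + 1) * qq (k + 1) (N - k))) / (s * ((2 * N + 1 : ℕ) : ℝ)) := by
    rw [← h]
    field_simp
  rw [h2, Finset.sum_div, Finset.sum_div]
  refine Finset.sum_congr rfl fun k hk => ?_
  rw [Finset.mem_range] at hk
  have h3 : ((2 * N + 1).choose (k + 1) : ℝ) * (k + 1) = (2 * N + 1 : ℕ) * ((2 * N).choose k : ℝ) := by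
    have := Nat.add_one_mul_choose_eq (2 * N) k
    rw [mul_comm] at this
    have h4 : (((2 * N + 1) * (2 * N).choose k : ℕ) : ℝ) = (((2 * N + 1).choose (k + 1) * (k + 1) : ℕ) : ℝ) := by
      rw [Nat.add_one_mul_choose_eq]
    push_cast at h4 ⊢
    linarith
  have h4 : ((2 * N + 1).choose (k + 1) : ℝ) = (2 * N + 1 : ℕ) * ((2 * N).choose k : ℝ) / (k + 1) := by
    rw [← h3]
    field_simp
  have h5 : (16 : ℝ) ^ N = 16 ^ (N - k) * 16 ^ k := by
    rw [← pow_add]
    congr 1
    omega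
  unfold RR pp bb aa
  rw [h4, h5, mul_pow, div_pow]
  have := gg_pos
  field_simp
  ring

end Pool.Agent.R967.Mea
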