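import Pool.Agent.R967.Mea.Jump

/-!
The ratios `RR n k` tend to one, uniformly for `k ≤ Λ √n`.
-/

set_option autoImplicit false

namespace Pool.Agent.R967.Mea

open Finset Filter Topology

theorem sum_tB_low (T : ℕ) : 1 - 1 / (2 * ((T : ℝ) + 1) ^ 2) ≤ ∑ i ∈ Finset.range (T + 1), pp i := by
  -- the total mass is one
  have h1 : Tendsto (fun d => ∑ i ∈ Finset.range (T + 1 + d), pp i) atTop (𝓝 1) := by
    have h2 := hasSum_pp.tendsto_sum_nat
    have h3 := h2.comp (tendsto_add_atTop_nat (T + 1))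
    refine h3.congr fun d => ?_
    simp only [Function.comp_apply]
    rw [add_comm]
  have h4 : ∀ d, ∑ i ∈ Finset.range (T + 1 + d), pp i ≤
      ∑ i ∈ Finset.range (T + 1), pp i + 1 / (2 * ((T : ℝ) + 1) ^ 2) := by
    intro d
    rw [Finset.sum_range_add]
    exact add_le_add le_rfl (tail_pp' T d)
  have h5 := le_of_tendsto' h1 h4
  linarith

theorem sum_qT (T k : ℕ) : ∀ M, k * T < M →
    ∑ j ∈ Finset.range M, qT T k j = (∑ i ∈ Finset.range (T + 1), pp i) ^ k := by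
  induction k with
  | zero =>
    intro M hM
    unfold qT
    simp only [pow_zero, PowerSeries.coeff_one]
    rw [Finset.sum_ite_eq', if_pos (Finset.mem_range.2 (by omega))]
  | succ k ih =>
    intro M hM
    unfold qT at ih ⊢
    rw [pow_succ', sum_coeff_mul, pow_succ', Finset.sum_mul]
    have e : (k + 1) * T = k * T + T := by ring
    have hsub : Finset.range (T + 1) ⊆ Finset.range M := by
      intro x hx
      rw [Finset.mem_range] at hx ⊢
      omega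
    rw [← Finset.sum_subset hsub]
    · refine Finset.sum_congr rfl fun i hi => ?_
      rw [Finset.mem_range] at hi
      rw [← ih (M - i) (by omega), Finset.mul_sum]
      refine Finset.sum_congr rfl fun l _ => ?_
      simp only [tB, PowerSeries.coeff_mk, if_pos (show i ≤ T by omega)]
    · intro i _ hi
      rw [Finset.mem_range] at hi
      refine Finset.sum_eq_zero fun l _ => ?_
      simp only [tB, PowerSeries.coeff_mk, if_neg (show ¬ i ≤ T by omega), zero_mul]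

theorem sum_qT_low (T k X : ℕ) (hX : 0 < X) :
    1 - k * (1 / (2 * ((T : ℝ) + 1) ^ 2)) - 2 * k / X ≤ ∑ j ∈ Finset.range X, qT T k j := by
  obtain ⟨M, hM⟩ : ∃ M, M = X + (k * T + 1) := ⟨_, rfl⟩
  have h1 := sum_qT T k M (by omega)
  have h2 : 1 - k * (1 / (2 * ((T : ℝ) + 1) ^ 2)) ≤ (∑ i ∈ Finset.range (T + 1), pp i) ^ k := by
    obtain ⟨σ, hσ⟩ : ∃ σ, σ = ∑ i ∈ Finset.range (T + 1), pp i := ⟨_, rfl⟩
    have h3 := sum_tB_low T
    rw [← hσ] at h3 ⊢
    have h4 : 0 ≤ σ := by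
      rw [hσ]
      exact Finset.sum_nonneg fun i _ => (pp_pos i).le
    have h5 := one_add_mul_le_pow (a := σ - 1) (by linarith) k
    have h6 : (1 + (σ - 1)) = σ := by ring
    rw [h6] at h5
    have hk : (0 : ℝ) ≤ k := Nat.cast_nonneg k
    nlinarith
  have h3 : ∑ j ∈ Finset.range M, qT T k j ≤ ∑ j ∈ Finset.range X, qT T k j + 2 * k / X := by
    rw [hM, Finset.sum_range_add]
    refine add_le_add le_rfl ?_
    have hX' : (0 : ℝ) < X := by exact_mod_cast hX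
    have h4 : ∑ x ∈ Finset.range (k * T + 1), qT T k (X + x) ≤
        ∑ x ∈ Finset.range (k * T + 1), ((X + x : ℕ) : ℝ) * qq k (X + x) / X := by
      refine Finset.sum_le_sum fun x _ => ?_
      refine (qT_le T k _).trans ?_
      rw [le_div_iff₀ hX', mul_comm]
      refine mul_le_mul_of_nonneg_right ?_ (qq_nonneg _ _)
      push_cast
      linarith [Nat.cast_nonneg (α := ℝ) x]
    refine h4.trans ?_
    rw [← Finset.sum_div]
    refine div_le_div_of_nonneg_right ?_ hX'.le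
    have h5 := sum_iqq_le k (X + (k * T + 1))
    rw [Finset.sum_range_add] at h5
    have h6 : 0 ≤ ∑ x ∈ Finset.range X, (x : ℝ) * qq k x :=
      Finset.sum_nonneg fun i _ => mul_nonneg (Nat.cast_nonneg i) (qq_nonneg _ _)
    linarith
  linarith

theorem RR_nonneg (n k : ℕ) : 0 ≤ RR n k := by
  unfold RR
  exact div_nonneg (qq_nonneg _ _) (mul_nonneg (by positivity) (pp_pos n).le)

/-- A crude bound. -/
theorem RR_crude (n k : ℕ) : RR n k ≤ 4 * gg * ((n : ℝ) + 1) ^ 3 := by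
  unfold RR
  have h1 := le_pp n
  have h2 := pp_pos n
  have hg := gg_pos
  rw [div_le_iff₀ (mul_pos (by positivity) h2)]
  refine (qq_le_one _ _).trans ?_
  have h3 : 1 ≤ pp n * (4 * gg * ((n : ℝ) + 1) ^ 3) := by
    rw [div_div, div_le_iff₀ (by positivity)] at h1
    exact h1
  have h4 : (0 : ℝ) ≤ k := Nat.cast_nonneg k
  nlinarith [mul_nonneg h4 (le_trans zero_le_one h3)]

theorem RR_zero (n : ℕ) : RR n 0 = 1 := by
  unfold RR
  have : qq (0 + 1) (n - 0) = pp n := by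
    unfold qq
    simp [pS]
  rw [this]
  simp [(pp_pos n).ne']

theorem RR_low {n k : ℕ} (hk : 2 * k ≤ n) (hn : 1 ≤ n) : 1 - 12 * (k : ℝ) / n ≤ RR n k := by
  rcases Nat.eq_zero_or_pos k with rfl | hk0
  · rw [RR_zero]; simp
  obtain ⟨m, hm⟩ : ∃ m, m = n - k := ⟨_, rfl⟩
  obtain ⟨T, hT⟩ : ∃ T, T = m / 2 := ⟨_, rfl⟩
  have hT1 : 2 * T ≤ m := by omega
  have hT2 : m < 2 * (T + 1) := by omega
  have hmT : 0 < m - T := by omega
  have h1 := qq_lower k T m
  have h2 : (∑ j ∈ Finset.range (m - T), qT T k j) * pp n ≤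
      ∑ j ∈ Finset.range (m - T), qT T k j * pp (m - j) := by
    rw [Finset.sum_mul]
    refine Finset.sum_le_sum fun j _ => ?_
    exact mul_le_mul_of_nonneg_left (pp_anti (by omega)) (qT_nonneg _ _ _)
  have h3 := sum_qT_low T k (m - T) hmT
  have hp := pp_pos n
  have hn' : (0 : ℝ) < n := by exact_mod_cast hn
  have hkr : (0 : ℝ) < k := by exact_mod_cast hk0
  have h4 : (n : ℝ) ≤ 4 * ((T : ℝ) + 1) := by
    have : n ≤ 4 * (T + 1) := by omega
    exact_mod_cast this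
  have h5 : (n : ℝ) ≤ 4 * ((m - T : ℕ) : ℝ) := by
    have : n ≤ 4 * (m - T) := by omega
    exact_mod_cast this
  have h6 : (k : ℝ) * (1 / (2 * ((T : ℝ) + 1) ^ 2)) ≤ 4 * k / n := by
    have h7 : 1 / (2 * ((T : ℝ) + 1) ^ 2) ≤ 4 / n := by
      rw [div_le_div_iff₀ (by positivity) hn']
      have h8 : (1 : ℝ) ≤ (T : ℝ) + 1 := by
        have := Nat.cast_nonneg (α := ℝ) T
        linarith
      nlinarith
    calc (k : ℝ) * (1 / (2 * ((T : ℝ) + 1) ^ 2)) ≤ k * (4 / n) :=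
          mul_le_mul_of_nonneg_left h7 hkr.le
      _ = 4 * k / n := by ring
  have h7 : 2 * (k : ℝ) / ((m - T : ℕ) : ℝ) ≤ 8 * k / n := by
    have hmT' : (0 : ℝ) < ((m - T : ℕ) : ℝ) := by exact_mod_cast hmT
    rw [div_le_div_iff₀ hmT' hn']
    nlinarith
  have h8 : 1 - 12 * (k : ℝ) / n ≤ ∑ j ∈ Finset.range (m - T), qT T k j := by
    have : 12 * (k : ℝ) / n = 4 * k / n + 8 * k / n := by ring
    linarith
  unfold RR
  rw [← hm, le_div_iff₀ (mul_pos (by positivity) hp)]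
  calc (1 - 12 * (k : ℝ) / n) * (((k : ℝ) + 1) * pp n)
      = ((k : ℝ) + 1) * ((1 - 12 * (k : ℝ) / n) * pp n) := by ring
    _ ≤ ((k : ℝ) + 1) * ((∑ j ∈ Finset.range (m - T), qT T k j) * pp n) := by
        refine mul_le_mul_of_nonneg_left ?_ (by positivity)
        exact mul_le_mul_of_nonneg_right h8 hp.le
    _ ≤ ((k : ℝ) + 1) * ∑ j ∈ Finset.range (m - T), qT T k j * pp (m - j) :=
        mul_le_mul_of_nonneg_left h2 (by positivity)
    _ ≤ qq (k + 1) m := h1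

/-- The upper bound. -/
theorem RR_up (Λ : ℝ) (hΛ : 1 ≤ Λ) : ∃ C : ℝ, 0 ≤ C ∧ ∀ (ε x : ℝ) (n k : ℕ), 0 < ε → ε ≤ 1 / 4 →
    1 ≤ x → x ^ 2 = n → Λ ≤ ε * x → (k : ℝ) + 1 ≤ Λ * x →
    RR n k ≤ (1 / (1 - 2 * ε)) ^ 3 + C / (ε * x) := by
  obtain ⟨C5, hC5, hB⟩ := qq_bound 5 Λ (3 / 8) hΛ (by norm_num)
  refine ⟨32 * gg * (16 * Λ * 3 + 2 * C5 * Λ ^ 2 * 2), by have := gg_pos; positivity,
    fun ε x n k hε hε4 hx hxn hΛx hk => ?_⟩
  have hg := gg_pos
  have hx0 : 0 < x := by linarith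
  have hn0 : (0 : ℝ) < n := by rw [← hxn]; positivity
  have hn1 : 1 ≤ n := by exact_mod_cast hn0
  have hkn : (k : ℝ) + 1 ≤ ε * n := by
    rw [← hxn]
    calc (k : ℝ) + 1 ≤ Λ * x := hk
      _ ≤ ε * x * x := mul_le_mul_of_nonneg_right hΛx hx0.le
      _ = ε * x ^ 2 := by ring
  have hk0 : (0 : ℝ) ≤ k := Nat.cast_nonneg k
  have hkn4 : (k : ℝ) + 1 ≤ n / 4 := by nlinarith
  have hkn' : 4 * (k + 1) ≤ n := by
    have : 4 * ((k : ℝ) + 1) ≤ n := by linarith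
    exact_mod_cast this
  obtain ⟨m, hm⟩ : ∃ m, m = n - k := ⟨_, rfl⟩
  have hmr : (m : ℝ) = n - k := by rw [hm, Nat.cast_sub (by omega)]
  have hm34 : 3 / 4 * (n : ℝ) ≤ m := by rw [hmr]; linarith
  have hmn : (m : ℝ) ≤ n := by rw [hmr]; linarith
  have hm0 : (0 : ℝ) < m := by linarith
  obtain ⟨T, hT⟩ : ∃ T, T = (m - 1) / (k + 1) := ⟨_, rfl⟩
  have hm1 : 1 ≤ m := by omega
  have hT1 : (k + 1) * T < m := by
    have := Nat.mul_div_le (m - 1) (k + 1)
    rw [← hT] at this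
    omega
  have hT2 : (m : ℝ) ≤ ((k : ℝ) + 1) * ((T : ℝ) + 1) := by
    have := Nat.lt_mul_div_succ (m - 1) (Nat.succ_pos k)
    rw [Nat.succ_eq_add_one, ← hT] at this
    have h2 : m ≤ (k + 1) * (T + 1) := by omega
    exact_mod_cast h2
  have hp := pp_pos n
  -- the terms
  obtain ⟨ρ, hρ⟩ : ∃ ρ : ℝ, ρ = (1 / (1 - 2 * ε)) ^ 3 := ⟨_, rfl⟩
  have hρ0 : 0 ≤ ρ := by
    rw [hρ]
    have : (0 : ℝ) < 1 - 2 * ε := by linarith
    positivity
  obtain ⟨w, hw⟩ : ∃ w : ℝ, w = 1 / x ^ 5 := ⟨_, rfl⟩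
  have hw0 : 0 ≤ w := by rw [hw]; positivity
  have hterm : ∀ j ∈ Finset.range (m - T), qq k j * pp (m - j) ≤
      qq k j * (ρ * pp n) + ((j : ℝ) * qq k j) * (8 / (m : ℝ) ^ 3 / (ε * n)) +
        2 * C5 * w * pp (m - j) := by
    intro j hj
    rw [Finset.mem_range] at hj
    have hjm : j < m := by omega
    have hjr : (0 : ℝ) ≤ j := Nat.cast_nonneg j
    have q0 := qq_nonneg k j
    have p0 := (pp_pos (m - j)).le
    have t1 : 0 ≤ qq k j * (ρ * pp n) := mul_nonneg q0 (mul_nonneg hρ0 hp.le)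
    have t2 : 0 ≤ ((j : ℝ) * qq k j) * (8 / (m : ℝ) ^ 3 / (ε * n)) :=
      mul_nonneg (mul_nonneg hjr q0) (by positivity)
    have t3 : 0 ≤ 2 * C5 * w * pp (m - j) := mul_nonneg (by positivity) p0
    by_cases c1 : (j : ℝ) ≤ ε * n
    · have h1 : pp (m - j) ≤ ρ * pp n := by
        have e1 : m - j = n - (k + j) := by omega
        have h2 := pp_ratio (n := n) (i := k + j) (by omega)
        rw [e1]
        push_cast at h2
        have h3 : (1 - 2 * ε) * (4 * (n : ℝ) + 1) ≤ 4 * ((n : ℝ) - (k + j)) + 1 := by nlinarith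
        have h4 : (0 : ℝ) < (1 - 2 * ε) * (4 * (n : ℝ) + 1) := mul_pos (by linarith) (by positivity)
        have h5 : pp (n - (k + j)) * ((1 - 2 * ε) * (4 * (n : ℝ) + 1)) ^ 3 ≤
            pp n * (4 * (n : ℝ) + 1) ^ 3 :=
          le_trans (mul_le_mul_of_nonneg_left (pow_le_pow_left₀ h4.le h3 3) (pp_pos _).le) h2
        rw [mul_pow, ← mul_assoc] at h5
        have h6 := le_of_mul_le_mul_right h5 (by positivity)
        have h7 : (0 : ℝ) < 1 - 2 * ε := by linarith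
        rw [hρ, div_pow, one_pow, one_div_mul_eq_div, le_div_iff₀ (by positivity)]
        exact h6
      have := mul_le_mul_of_nonneg_left h1 q0
      linarith
    · push Not at c1
      rcases Nat.lt_or_ge m (2 * j) with c2 | c2
      · have h3 : 3 / 8 * x ^ 2 ≤ j := by
          have : (m : ℝ) < 2 * j := by exact_mod_cast c2
          rw [hxn]
          linarith
        have h4 := hB x hx k (by linarith) j h3
        have h5 : C5 * (1 / x ^ 5 + 1 / x ^ 5) = 2 * C5 * w := by rw [hw]; ring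
        rw [h5] at h4
        have := mul_le_mul_of_nonneg_right h4 p0
        linarith
      · have h3 : pp (m - j) ≤ 8 / (m : ℝ) ^ 3 := by
          refine (pp_le _).trans ?_
          have h4 : 2 * (j : ℝ) ≤ m := by exact_mod_cast c2
          rw [Nat.cast_sub hjm.le, div_le_div_iff₀ (by
            have : (0 : ℝ) < (m : ℝ) - j + 1 := by linarith
            positivity) (by positivity)]
          have h5 : (m : ℝ) ≤ 2 * ((m : ℝ) - j + 1) := by linarith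
          calc 1 * (m : ℝ) ^ 3 ≤ (2 * ((m : ℝ) - j + 1)) ^ 3 := by
                rw [one_mul]
                exact pow_le_pow_left₀ hm0.le h5 3
            _ = 8 * ((m : ℝ) - j + 1) ^ 3 := by ring
        have h6 : qq k j * pp (m - j) ≤ ((j : ℝ) * qq k j) * (8 / (m : ℝ) ^ 3 / (ε * n)) := by
          have h7 : (1 : ℝ) ≤ j / (ε * n) := by
            rw [le_div_iff₀ (by positivity)]
            linarith
          have h8 : 0 ≤ 8 / (m : ℝ) ^ 3 := by positivity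
          calc qq k j * pp (m - j) ≤ qq k j * (8 / (m : ℝ) ^ 3) := mul_le_mul_of_nonneg_left h3 q0
            _ = (qq k j * (8 / (m : ℝ) ^ 3)) * 1 := by ring
            _ ≤ (qq k j * (8 / (m : ℝ) ^ 3)) * (j / (ε * n)) :=
                mul_le_mul_of_nonneg_left h7 (mul_nonneg q0 h8)
            _ = _ := by ring
        linarith
  have hsum : ∑ j ∈ Finset.range (m - T), qq k j * pp (m - j) ≤
      ρ * pp n + 2 * k * (8 / (m : ℝ) ^ 3 / (ε * n)) + 2 * C5 * w * (1 / (2 * ((T : ℝ) + 1) ^ 2)) := by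
    refine (Finset.sum_le_sum hterm).trans ?_
    rw [Finset.sum_add_distrib, Finset.sum_add_distrib, ← Finset.sum_mul, ← Finset.sum_mul,
      ← Finset.mul_sum]
    refine add_le_add (add_le_add ?_ ?_) ?_
    · have := mul_le_mul_of_nonneg_right (sum_qq_le k (m - T)) (mul_nonneg hρ0 hp.le)
      linarith
    · exact mul_le_mul_of_nonneg_right (sum_iqq_le k (m - T)) (by positivity)
    · exact mul_le_mul_of_nonneg_left (tail_refl T m) (by positivity)
  have h1 := qq_upper hT1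
  unfold RR
  rw [← hm, div_le_iff₀ (mul_pos (by positivity) hp)]
  have hkp : (0 : ℝ) < (k : ℝ) + 1 := by positivity
  refine h1.trans ?_
  rw [← hρ]
  have hpn : 1 / (n : ℝ) ^ 3 ≤ 32 * gg * pp n := by
    have h2 := le_pp n
    have h3 : 1 / (4 * gg) / (2 * (n : ℝ)) ^ 3 ≤ 1 / (4 * gg) / ((n : ℝ) + 1) ^ 3 := by
      apply div_le_div_of_nonneg_left (by positivity) (by positivity)
      refine pow_le_pow_left₀ (by positivity) ?_ 3
      have : (1 : ℝ) ≤ n := by exact_mod_cast hn1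
      linarith
    have h4 := h3.trans h2
    have h5 := mul_le_mul_of_nonneg_left h4 (show (0:ℝ) ≤ 32 * gg by positivity)
    refine le_trans (le_of_eq ?_) h5
    field_simp
    norm_num
  have b1 : 2 * (k : ℝ) * (8 / (m : ℝ) ^ 3 / (ε * n)) ≤ 16 * Λ * 3 / (ε * x) * (1 / (n : ℝ) ^ 3) := by
    have e1 : 8 / (m : ℝ) ^ 3 ≤ 8 * 3 / (n : ℝ) ^ 3 := by
      rw [div_le_div_iff₀ (by positivity) (by positivity)]
      have e2 : (3 / 4 * (n : ℝ)) ^ 3 ≤ (m : ℝ) ^ 3 := pow_le_pow_left₀ (by positivity) hm34 3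
      have e3 : (3 / 4 * (n : ℝ)) ^ 3 = 27 / 64 * (n : ℝ) ^ 3 := by ring
      have e4 : 0 ≤ (n : ℝ) ^ 3 := by positivity
      rw [e3] at e2
      linarith
    have e5 : (k : ℝ) / (ε * n) ≤ Λ / (ε * x) := by
      rw [div_le_div_iff₀ (by positivity) (by positivity), ← hxn]
      have e6 : (k : ℝ) ≤ Λ * x := by linarith
      calc (k : ℝ) * (ε * x) ≤ (Λ * x) * (ε * x) := mul_le_mul_of_nonneg_right e6 (by positivity)
        _ = Λ * (ε * x ^ 2) := by ring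
    calc 2 * (k : ℝ) * (8 / (m : ℝ) ^ 3 / (ε * n)) = 2 * ((k : ℝ) / (ε * n)) * (8 / (m : ℝ) ^ 3) := by
          ring
      _ ≤ 2 * (Λ / (ε * x)) * (8 * 3 / (n : ℝ) ^ 3) :=
          mul_le_mul (mul_le_mul_of_nonneg_left e5 (by norm_num)) e1 (by positivity) (by positivity)
      _ = _ := by ring
  have b2 : 2 * C5 * w * (1 / (2 * ((T : ℝ) + 1) ^ 2)) ≤
      2 * C5 * Λ ^ 2 * 2 / (ε * x) * (1 / (n : ℝ) ^ 3) := by
    have hT0 : (0 : ℝ) < (T : ℝ) + 1 := by positivity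
    have e1 : 1 / ((T : ℝ) + 1) ≤ (Λ * x) / (3 / 4 * n) := by
      rw [div_le_div_iff₀ hT0 (by positivity)]
      calc 1 * (3 / 4 * (n : ℝ)) ≤ m := by linarith
        _ ≤ ((k : ℝ) + 1) * ((T : ℝ) + 1) := hT2
        _ ≤ Λ * x * ((T : ℝ) + 1) := mul_le_mul_of_nonneg_right hk hT0.le
    have e2 : 1 / (2 * ((T : ℝ) + 1) ^ 2) ≤ 1 / 2 * ((Λ * x) / (3 / 4 * n)) ^ 2 := by
      have e3 : 1 / (2 * ((T : ℝ) + 1) ^ 2) = 1 / 2 * (1 / ((T : ℝ) + 1)) ^ 2 := by
        field_simp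
      rw [e3]
      refine mul_le_mul_of_nonneg_left ?_ (by norm_num)
      exact pow_le_pow_left₀ (by positivity) e1 2
    calc 2 * C5 * w * (1 / (2 * ((T : ℝ) + 1) ^ 2))
        ≤ 2 * C5 * w * (1 / 2 * ((Λ * x) / (3 / 4 * n)) ^ 2) :=
          mul_le_mul_of_nonneg_left e2 (by positivity)
      _ = C5 * Λ ^ 2 * (16 / 9) * (1 / x) * (1 / (n : ℝ) ^ 3) := by
          rw [hw, ← hxn]
          field_simp
          ring
      _ ≤ C5 * Λ ^ 2 * 4 * (1 / (ε * x)) * (1 / (n : ℝ) ^ 3) := by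
          refine mul_le_mul_of_nonneg_right ?_ (by positivity)
          refine mul_le_mul ?_ ?_ (by positivity) (by positivity)
          · have : 0 ≤ C5 * Λ ^ 2 := by positivity
            linarith
          · apply one_div_le_one_div_of_le (by positivity)
            nlinarith
      _ = _ := by ring
  have b3 : 0 ≤ 16 * Λ * 3 / (ε * x) + 2 * C5 * Λ ^ 2 * 2 / (ε * x) := by positivity
  have b4 := mul_le_mul_of_nonneg_left hpn b3
  have b5 : ∑ j ∈ Finset.range (m - T), qq k j * pp (m - j) ≤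
      (ρ + 32 * gg * (16 * Λ * 3 + 2 * C5 * Λ ^ 2 * 2) / (ε * x)) * pp n := by
    refine hsum.trans ?_
    have e1 : (ρ + 32 * gg * (16 * Λ * 3 + 2 * C5 * Λ ^ 2 * 2) / (ε * x)) * pp n = ρ * pp n +
        (16 * Λ * 3 / (ε * x) + 2 * C5 * Λ ^ 2 * 2 / (ε * x)) * (32 * gg * pp n) := by ring
    rw [e1]
    linarith
  calc ((k : ℝ) + 1) * ∑ j ∈ Finset.range (m - T), qq k j * pp (m - j)
      ≤ ((k : ℝ) + 1) * ((ρ + 32 * gg * (16 * Λ * 3 + 2 * C5 * Λ ^ 2 * 2) / (ε * x)) * pp n) :=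
        mul_le_mul_of_nonneg_left b5 hkp.le
    _ = _ := by ring

/-- Uniform convergence. -/
theorem RR_unif (Λ δ : ℝ) (hδ : 0 < δ) : ∃ n0 : ℕ, ∀ n : ℕ, n0 ≤ n → ∀ k : ℕ,
    (k : ℝ) ≤ Λ * √n → |RR n k - 1| ≤ δ := by
  obtain ⟨Λ', hΛ'⟩ : ∃ Λ', Λ' = max Λ 1 + 1 := ⟨_, rfl⟩
  have hΛ1 : 1 ≤ Λ' := by
    have := le_max_right Λ 1
    linarith
  obtain ⟨C, hC, hup⟩ := RR_up Λ' hΛ1
  -- choice of ε
  obtain ⟨ε, hε, hε4, hρ⟩ : ∃ ε : ℝ, 0 < ε ∧ ε ≤ 1 / 4 ∧ (1 / (1 - 2 * ε)) ^ 3 ≤ 1 + δ / 2 := by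
    have h1 : Tendsto (fun ε : ℝ => (1 / (1 - 2 * ε)) ^ 3) (𝓝 0) (𝓝 ((1 / (1 - 2 * 0)) ^ 3)) := by
      refine Tendsto.pow ?_ 3
      refine Tendsto.div tendsto_const_nhds ?_ (by norm_num)
      exact tendsto_const_nhds.sub (tendsto_id.const_mul 2)
    have h2 : ∀ᶠ ε : ℝ in 𝓝[>] 0, (1 / (1 - 2 * ε)) ^ 3 < 1 + δ / 2 := by
      refine nhdsWithin_le_nhds (h1.eventually_lt_const ?_)
      norm_num
      exact hδ
    have h3 : ∀ᶠ ε : ℝ in 𝓝[>] (0:ℝ), 0 < ε := self_mem_nhdsWithin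
    have h4 : ∀ᶠ ε : ℝ in 𝓝[>] (0:ℝ), ε < 1 / 4 :=
      nhdsWithin_le_nhds (gt_mem_nhds (by norm_num))
    obtain ⟨ε, e1, e2, e3⟩ := (h2.and (h3.and h4)).exists
    exact ⟨ε, e2, e3.le, e1.le⟩
  -- large n
  have hx : Tendsto (fun n : ℕ => √(n : ℝ)) atTop atTop :=
    Real.tendsto_sqrt_atTop.comp tendsto_natCast_atTop_atTop
  have hev : ∀ᶠ n : ℕ in atTop, 1 ≤ √(n : ℝ) ∧ Λ' ≤ ε * √(n : ℝ) ∧
      C / (ε * √(n : ℝ)) ≤ δ / 2 ∧ 12 * Λ' / √(n : ℝ) ≤ δ ∧ 4 * Λ' ≤ √(n : ℝ) := by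
    have h1 := hx.eventually_ge_atTop 1
    have h2 := hx.eventually_ge_atTop (Λ' / ε)
    have h3 := hx.eventually_ge_atTop (2 * C / (ε * δ))
    have h4 := hx.eventually_ge_atTop (12 * Λ' / δ)
    have h5 := hx.eventually_ge_atTop (4 * Λ')
    filter_upwards [h1, h2, h3, h4, h5] with n a1 a2 a3 a4 a5
    have hs : 0 < √(n : ℝ) := by linarith
    refine ⟨a1, ?_, ?_, ?_, a5⟩
    · rw [div_le_iff₀ hε] at a2
      linarith
    · rw [div_le_iff₀ (by positivity)] at a3 ⊢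
      nlinarith
    · rw [div_le_iff₀ hδ] at a4
      rw [div_le_iff₀ hs]
      linarith
  obtain ⟨n0, hn0⟩ := eventually_atTop.1 hev
  refine ⟨n0, fun n hn k hk => ?_⟩
  obtain ⟨a1, a2, a3, a4, a5⟩ := hn0 n hn
  have hs : 0 < √(n : ℝ) := by linarith
  have hsq : √(n : ℝ) ^ 2 = n := Real.sq_sqrt (Nat.cast_nonneg n)
  have hkΛ : (k : ℝ) + 1 ≤ Λ' * √(n : ℝ) := by
    rw [hΛ', add_mul, one_mul]
    refine add_le_add (hk.trans ?_) a1
    exact mul_le_mul_of_nonneg_right (le_max_left _ _) hs.le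
  have hnpos : (0 : ℝ) < n := by rw [← hsq]; positivity
  have hk2 : 2 * k ≤ n := by
    have h1 : 2 * (k : ℝ) ≤ n := by
      have h2 : (k : ℝ) ≤ Λ' * √(n : ℝ) := by linarith
      rw [← hsq]
      nlinarith
    exact_mod_cast h1
  have hup' := hup ε (√(n : ℝ)) n k hε hε4 a1 hsq a2 hkΛ
  have hlow' := RR_low hk2 (by exact_mod_cast hnpos)
  have hkn : 12 * (k : ℝ) / n ≤ δ := by
    refine le_trans ?_ a4
    rw [div_le_div_iff₀ hnpos hs]
    calc 12 * (k : ℝ) * √(n : ℝ) ≤ 12 * (Λ' * √(n : ℝ)) * √(n : ℝ) := by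
          refine mul_le_mul_of_nonneg_right ?_ hs.le
          linarith
      _ = 12 * Λ' * √(n : ℝ) ^ 2 := by ring
      _ = 12 * Λ' * n := by rw [hsq]
  rw [abs_le]
  constructor <;> linarith

end Pool.Agent.R967.Mea
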